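import Pool.Agent.Lib.DN.R.Spec
import Pool.Agent.Lib.DN.E.SpecB

/-!
# Theorem DN, part D: elementary lemmas for the modules of `DN/D/SpecK.lean` (complete; no task)

Systems, points of order two, the kernel of reduction (consequences of `S_D1`, `S_XOm`).
-/

set_option autoImplicit false

open scoped Pointwise nonZeroDivisors

noncomputable section

namespace Pool.Agent.DN

open Pool.Agent.MuZ Pool.Agent.FW NumberField IsDedekindDomain
open Pool.Agent.DI (io ofC io_inj exists_io io_ofC ofC_io VP MP UP TP ex)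

variable {n t : ℕ}

/-! ## Ideals and lattices -/

theorem g15_mul' [SqN n t] {a b : Ideal (OO n t)} (ha : a ≠ ⊥) (ha' : PrI a 15) (hb : G15 b) : G15 (a * b) :=
  Eb.g15_mul ⟨ha, ha'⟩ hb

theorem sup_top_iff {a c : Ideal (OO n t)} : a ⊔ c = ⊤ ↔ ∃ v ∈ a, ∃ u ∈ c, v + u = 1 := by
  rw [Ideal.eq_top_iff_one, Submodule.mem_sup]

/-- `1 = v + N u`, `v ∈ a`. -/
theorem pri_split {a : Ideal (OO n t)} {N : ℕ} (h : PrI a N) : ∃ v ∈ a, ∃ u : OO n t, v + N * u = 1 := by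
  obtain ⟨v, hv, w, hw, e⟩ := sup_top_iff.1 h
  obtain ⟨u, rfl⟩ := Ideal.mem_span_singleton'.1 hw
  exact ⟨v, hv, u, by rw [mul_comm]; exact e⟩

/-- Torsion of order prime to `a`: `z ∈ a⁻¹ Λ`, `N z ∈ Λ` imply `z ∈ Λ`. -/
theorem lam_of_pri [SqN n t] {a b : Ideal (OO n t)} {N : ℕ} (h : PrI a N) {z : ℂ} (h1 : z ∈ Lam (a * b))
    (h2 : (N : ℂ) * z ∈ Lam b) : z ∈ Lam b := by
  obtain ⟨v, hv, u, e⟩ := pri_split h
  have h3 : z = toC v * z + toC u * ((N : ℂ) * z) := by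
    have h4 := congrArg toC e
    rw [toC_add, toC_mul, toC_nat, toC_one] at h4
    linear_combination (-z) * h4
  rw [h3]
  exact lam_add (lam_prod.1 h1 v hv) (lam_mul u h2)

theorem lam_of_odd [SqN n t] {a b : Ideal (OO n t)} (h : PrI a 2) {z : ℂ} (h1 : z ∈ Lam (a * b))
    (h2 : 2 * z ∈ Lam b) : z ∈ Lam b := by
  refine lam_of_pri h h1 ?_
  push_cast
  exact h2

/-- `a` and `c` coprime: `z ∈ (a b)⁻¹`, `z ∈ (c b)⁻¹` imply `z ∈ b⁻¹`. -/
theorem lam_of_sup [SqN n t] {a c b : Ideal (OO n t)} (h : a ⊔ c = ⊤) {z : ℂ} (h1 : z ∈ Lam (a * b))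
    (h2 : z ∈ Lam (c * b)) : z ∈ Lam b := by
  obtain ⟨v, hv, u, hu, e⟩ := sup_top_iff.1 h
  have h3 : z = toC v * z + toC u * z := by
    have h4 := congrArg toC e
    rw [toC_add, toC_one] at h4
    linear_combination (-z) * h4
  rw [h3]
  exact lam_add (lam_prod.1 h1 v hv) (lam_prod.1 h2 u hu)

/-- The marked points: `1/N` is not in `Lam b` (`b` prime to `N ≥ 2`); more generally `toC v / N`. -/
theorem div_lam_iff [SqN n t] {b : Ideal (OO n t)} {N : ℕ} (hN : 0 < N) (hb : PrI b N) (v : OO n t) :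
    toC v / N ∈ Lam b ↔ (N : OO n t) ∣ v := by
  have hN' : (N : ℂ) ≠ 0 := by exact_mod_cast hN.ne'
  constructor
  · intro h
    obtain ⟨w, hw, u, e⟩ := pri_split hb
    obtain ⟨x, hx⟩ := h w hw
    refine ⟨x + u * v, toC_inj ?_⟩
    rw [toC_mul, toC_nat, toC_add, toC_mul]
    have h4 := congrArg toC e
    rw [toC_add, toC_mul, toC_nat, toC_one] at h4
    have h5 : toC w * toC v = N * toC x := by
      rw [← hx]
      field_simp
    linear_combination (-(toC v)) * h4 + h5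
  · rintro ⟨w, rfl⟩ v _
    rw [toC_mul, toC_nat]
    refine ⟨v * w, ?_⟩
    rw [toC_mul]
    field_simp

theorem third_lam [SqN n t] {b : Ideal (OO n t)} (hb : G15 b) : (1 / 3 : ℂ) ∉ Lam b := by
  intro h
  have h1 : toC (1 : OO n t) / ((3 : ℕ) : ℂ) ∈ Lam b := by
    rw [toC_one]
    push_cast
    exact h
  have h2 := (div_lam_iff (by norm_num) (Eb.pri_dvd hb.cop (by norm_num)) (1 : OO n t)).1 h1
  have h3 := ((nat_dvd_iff 3 (1 : OO n t)).1 h2).1
  rw [re_one] at h3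
  norm_num at h3

theorem fifth_lam [SqN n t] {b : Ideal (OO n t)} (hb : G15 b) : (1 / 5 : ℂ) ∉ Lam b := by
  intro h
  have h1 : toC (1 : OO n t) / ((5 : ℕ) : ℂ) ∈ Lam b := by
    rw [toC_one]
    push_cast
    exact h
  have h2 := (div_lam_iff (by norm_num) (Eb.pri_dvd hb.cop (by norm_num)) (1 : OO n t)).1 h1
  have h3 := ((nat_dvd_iff 5 (1 : OO n t)).1 h2).1
  rw [re_one] at h3
  norm_num at h3

theorem tor_nat_div [SqN n t] {N : ℕ} (hN : 0 < N) : Tor n t (1 / N) := by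
  have h := tor_div (n := n) (t := t) hN 1
  rwa [toC_one] at h

theorem tor_nat_mul [SqN n t] {z : ℂ} (j : ℕ) (h : Tor n t z) : Tor n t (j * z) := by
  have h1 := tor_mul (j : OO n t) h
  rwa [toC_nat] at h1

theorem tor_two [SqN n t] {z : ℂ} (h : Tor n t z) : Tor n t (2 * z) := by
  have h1 := tor_nat_mul 2 h
  push_cast at h1
  exact h1

/-! ## Systems -/

theorem sys_le {a b : Ideal (OO n t)} {R R' : Finset ℂ} (h : IsSys a b R) (h' : IsSys a b R') :
    R.card ≤ R'.card := by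
  classical
  have h1 : ∀ u ∈ R, ∃ u' ∈ R', u - u' ∈ Lam b := fun u hu => h'.ex u (h.mem u hu)
  choose! f hf hf' using h1
  refine Finset.card_le_card_of_injOn f hf ?_
  intro u hu v hv e
  refine h.uni u hu v hv ?_
  have h2 := hf' u hu
  have h3 := hf' v hv
  rw [← e] at h3
  have h4 := lam_sub h2 h3
  have e5 : u - f u - (v - f u) = u - v := by ring
  rwa [e5] at h4

theorem sys_card' {a b : Ideal (OO n t)} {R R' : Finset ℂ} (h : IsSys a b R) (h' : IsSys a b R') :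
    R.card = R'.card := le_antisymm (sys_le h h') (sys_le h' h)

theorem sys_card [SqN n t] (hL3 : S_L3) {a b : Ideal (OO n t)} (ha : a ≠ ⊥) (hb : b ≠ ⊥) {R : Finset ℂ}
    (h : IsSys a b R) : R.card = NI a := by
  obtain ⟨R', h', e⟩ := (hL3 n t a b ha hb).2.2
  rw [← e]
  exact sys_card' h h'

/-- A product over a system of a function with the periods `Lam b` does not depend on the system. -/
theorem sys_prod {M : Type} [CommMonoid M] {a b : Ideal (OO n t)} {R R' : Finset ℂ} (h : IsSys a b R)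
    (h' : IsSys a b R') (F : ℂ → M) (hF : ∀ u u' : ℂ, u - u' ∈ Lam b → F u = F u') :
    ∏ u ∈ R, F u = ∏ u ∈ R', F u := by
  classical
  have h1 : ∀ u ∈ R, ∃ u' ∈ R', u - u' ∈ Lam b := fun u hu => h'.ex u (h.mem u hu)
  choose! f hf hf' using h1
  refine Finset.prod_bij (fun u _ => f u) hf ?_ ?_ ?_
  · intro u hu v hv e
    refine h.uni u hu v hv ?_
    have h2 := hf' u hu
    have h3 := hf' v hv
    rw [← e] at h3
    have h4 := lam_sub h2 h3
    have e5 : u - f u - (v - f u) = u - v := by ring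
    rwa [e5] at h4
  · intro v hv
    obtain ⟨u, hu, hu'⟩ := h.ex v (h'.mem v hv)
    refine ⟨u, hu, h'.uni _ (hf u hu) v hv ?_⟩
    have h2 := hf' u hu
    have h3 := lam_sub (lam_neg h2) hu'
    have e5 : -(u - f u) - (v - u) = f u - v := by ring
    rwa [e5] at h3
  · intro u hu
    exact hF _ _ (hf' u hu)

/-- A system contains exactly one lattice point. -/
theorem sys_zero {a b : Ideal (OO n t)} {R : Finset ℂ} (h : IsSys a b R) :
    ∃ u ∈ R, u ∈ Lam b ∧ ∀ u' ∈ R, u' ∈ Lam b → u' = u := by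
  obtain ⟨u, hu, hu'⟩ := h.ex 0 (lam_zero _)
  rw [zero_sub] at hu'
  have h1 := lam_neg_iff.1 hu'
  exact ⟨u, hu, h1, fun u' hu2 h2 => h.uni u' hu2 u hu (lam_sub h2 h1)⟩

/-- Translates of a system. -/
theorem sys_translate {a b : Ideal (OO n t)} {R : Finset ℂ} (h : IsSys a b R) {w : ℂ} (hw : w ∈ Lam (a * b)) :
    IsSys a b (R.map ⟨fun u => w + u, fun x y e => add_left_cancel e⟩) where
  mem := by
    intro u hu
    obtain ⟨u', hu', rfl⟩ := Finset.mem_map.1 hu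
    exact lam_add hw (h.mem u' hu')
  ex := by
    intro z hz
    obtain ⟨u, hu, hu'⟩ := h.ex (z - w) (lam_sub hz hw)
    refine ⟨w + u, Finset.mem_map.2 ⟨u, hu, rfl⟩, ?_⟩
    have e : z - (w + u) = z - w - u := by ring
    rw [e]
    exact hu'
  uni := by
    intro u hu v hv e
    obtain ⟨u', hu', rfl⟩ := Finset.mem_map.1 hu
    obtain ⟨v', hv', rfl⟩ := Finset.mem_map.1 hv
    have e1 : u' - v' ∈ Lam b := by
      have e2 : (w + u') - (w + v') = u' - v' := by ring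
      rw [← e2]
      exact e
    have e3 := h.uni u' hu' v' hv' e1
    rw [e3]

/-! ## Points of order two -/

namespace Ord2

variable {b : Ideal (OO n t)} {T T' : ℂ}

/-- The third point. -/
theorem s1 (h : Ord2 b T T') : 2 * (T + T') ∈ Lam b := by
  rw [mul_add]
  exact lam_add h.t1 h.t3

theorem s2 (h : Ord2 b T T') : T + T' ∉ Lam b := by
  intro h1
  refine h.t5 ?_
  have e : T - T' = T + T' - 2 * T' := by ring
  rw [e]
  exact lam_sub h1 h.t3

theorem symm (h : Ord2 b T T') : Ord2 b T' T where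
  t1 := h.t3
  t2 := h.t4
  t3 := h.t1
  t4 := h.t2
  t5 := by
    intro h1
    have e : T - T' = -(T' - T) := by ring
    exact h.t5 (by rw [e]; exact lam_neg h1)

/-- `(T, T + T')`. -/
theorem right (h : Ord2 b T T') : Ord2 b T (T + T') where
  t1 := h.t1
  t2 := h.t2
  t3 := h.s1
  t4 := h.s2
  t5 := by
    intro h1
    have e : T - (T + T') = -T' := by ring
    rw [e] at h1
    exact h.t4 (lam_neg_iff.1 h1)

theorem tor [SqN n t] (hb : b ≠ ⊥) (h : Ord2 b T T') : Tor n t T ∧ Tor n t T' ∧ Tor n t (T + T') := by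
  refine ⟨(tor_iff hb).2 ⟨2, by norm_num, ?_⟩, (tor_iff hb).2 ⟨2, by norm_num, ?_⟩,
    (tor_iff hb).2 ⟨2, by norm_num, ?_⟩⟩
  · push_cast
    exact h.t1
  · push_cast
    exact h.t3
  · push_cast
    exact h.s1

/-- Isogenies of odd degree. -/
theorem mul [SqN n t] {a : Ideal (OO n t)} (ha : PrI a 2) (h : Ord2 b T T') : Ord2 (a * b) T T' where
  t1 := lam_mono h.t1
  t2 := fun h1 => h.t2 (lam_of_odd ha h1 h.t1)
  t3 := lam_mono h.t3
  t4 := fun h1 => h.t4 (lam_of_odd ha h1 h.t3)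
  t5 := fun h1 => h.t5 (lam_of_odd ha h1 (by
    have e : 2 * (T - T') = 2 * T - 2 * T' := by ring
    rw [e]
    exact lam_sub h.t1 h.t3))

end Ord2

/-- Points of order two exist (`2` inert). -/
theorem exists_ord2 [Ine n t] (hL3 : S_L3) {b : Ideal (OO n t)} (hb : b ≠ ⊥) : ∃ T T' : ℂ, Ord2 b T T' := by
  have h20 : sp (2 : OO n t) ≠ ⊥ := by
    refine Eb.ne_sp ?_
    have := Eb.nat_ne (n := n) (t := t) (N := 2) (by norm_num)
    exact_mod_cast this
  obtain ⟨⟨g, hg, hg'⟩, h2, -⟩ := hL3 n t (sp 2) b h20 hb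
  obtain ⟨h3, -⟩ := h2 g hg hg'
  have hnd : ∀ v : OO n t, ¬ (2 : ℤ) ∣ v.re ∨ ¬ (2 : ℤ) ∣ v.im → toC v * g ∉ Lam b := by
    intro v hv h4
    have h5 := (h3 v).1 h4
    rw [Ideal.mem_span_singleton] at h5
    have h6 := (nat_dvd_iff 2 v).1 (by exact_mod_cast h5)
    rcases hv with h | h
    · exact h (by exact_mod_cast h6.1)
    · exact h (by exact_mod_cast h6.2)
  have hd2 : ∀ v : OO n t, 2 * (toC v * g) ∈ Lam b := by
    intro v
    have h4 : toC (2 * v) * g ∈ Lam b := (h3 (2 * v)).2 (Ideal.mem_span_singleton.2 ⟨v, rfl⟩)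
    rw [toC_mul, toC_two] at h4
    rw [← mul_assoc]
    exact h4
  refine ⟨toC (1 : OO n t) * g, toC (wI n t) * g, hd2 1, hnd 1 (Or.inl ?_), hd2 _, hnd _ (Or.inr ?_), ?_⟩
  · rw [re_one]
    norm_num
  · change ¬ (2 : ℤ) ∣ 1
    norm_num
  · rw [← sub_mul, ← toC_sub]
    refine hnd _ (Or.inl ?_)
    rw [QuadraticAlgebra.re_sub, re_one]
    change ¬ (2 : ℤ) ∣ 1 - 0
    norm_num

/-- A point of order two is not killed by the elements of odd norm. -/
theorem two_cop [SqN n t] {b : Ideal (OO n t)} {T : ℂ} {v : OO n t} {k : ℤ} (hv : Nm v = 2 * k + 1)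
    (h2 : 2 * T ∈ Lam b) (h : toC v * T ∈ Lam b) : T ∈ Lam b := by
  have h1 := lam_mul (cjO v) h
  have h3 := lam_mul (k : OO n t) h2
  have h4 := lam_sub h1 h3
  have e : toC (cjO v) * (toC v * T) - toC (k : OO n t) * (2 * T) = T := by
    have h5 := toC_Nm v
    rw [hv] at h5
    push_cast at h5
    rw [toC_int]
    linear_combination (-T) * h5
  rwa [e] at h4

/-- Every point of order two is in a pair (`2` inert). -/
theorem exists_ord2' [h : Ine n t] {b : Ideal (OO n t)} {T : ℂ} (h2 : 2 * T ∈ Lam b) (hT : T ∉ Lam b) :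
    ∃ T' : ℂ, Ord2 b T T' := by
  obtain ⟨k, hk⟩ : ∃ k : ℤ, (n : ℤ) = 2 * k + 1 := by
    have h1 := h.odd
    exact ⟨(n / 2 : ℕ), by omega⟩
  have ht : (t : ℤ) = 1 := by exact_mod_cast h.one
  refine ⟨toC (wI n t) * T, h2, hT, ?_, ?_, ?_⟩
  · have e : 2 * (toC (wI n t) * T) = toC (wI n t) * (2 * T) := by ring
    rw [e]
    exact lam_mul _ h2
  · intro h3
    refine hT (two_cop (v := wI n t) (k := k) ?_ h2 h3)
    simp only [Nm, wI]
    rw [← hk]
    ring
  · intro h3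
    have e : T - toC (wI n t) * T = toC (1 - wI n t) * T := by
      rw [toC_sub, toC_one]
      ring
    rw [e] at h3
    refine hT (two_cop (v := 1 - wI n t) (k := k) ?_ h2 h3)
    simp only [Nm, QuadraticAlgebra.re_sub, QuadraticAlgebra.im_sub, re_one, im_one, wI]
    rw [← hk, ht]
    ring

/-! ## The kernel of reduction -/

section Ker

variable [Ine n t] {Q : Ideal ZZ} {b : Ideal (OO n t)}

theorem IK.neg (hX : XOm b) {z : ℂ} (h : IK Q b z) : IK Q b (-z) := by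
  refine ⟨tor_neg h.1, ?_⟩
  rcases h.2 with h1 | h1
  · exact Or.inl (lam_neg h1)
  · right
    rwa [(hX.neg z h.1).1]

theorem IK.add (hD1 : S_D1) (hQ : GQ n t Q) (hb : G15 b) {z z' : ℂ} (h : IK Q b z) (h' : IK Q b z') :
    IK Q b (z + z') := (hD1 n t Q hQ b hb).1 z z' h h'

theorem IK.sub (hD1 : S_D1) (hX : XOm b) (hQ : GQ n t Q) (hb : G15 b) {z z' : ℂ} (h : IK Q b z)
    (h' : IK Q b z') : IK Q b (z - z') := by
  rw [sub_eq_add_neg]
  exact IK.add hD1 hQ hb h (IK.neg hX h')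

theorem IK.lam (hD1 : S_D1) (hQ : GQ n t Q) (hb : G15 b) {z : ℂ} (h : z ∈ Lam b) : IK Q b z :=
  (hD1 n t Q hQ b hb).2.1 z h

theorem IK.mul (hD1 : S_D1) (hQ : GQ n t Q) (hb : G15 b) (v : OO n t) {z : ℂ} (h : IK Q b z) :
    IK Q b (toC v * z) := (hD1 n t Q hQ b hb).2.2.1 v z h

theorem IK.two (hD1 : S_D1) (hQ : GQ n t Q) (hb : G15 b) {z : ℂ} (h : IK Q b z) : IK Q b (2 * z) := by
  have h1 := IK.mul hD1 hQ hb (2 : OO n t) h
  rwa [toC_two] at h1

theorem IK.qp (hD1 : S_D1) (hQ : GQ n t Q) (hb : G15 b) {z : ℂ} (h : IK Q b z) : Qp Q b z :=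
  (hD1 n t Q hQ b hb).2.2.2.2.1 z h

theorem IK.red (hD1 : S_D1) (hQ : GQ n t Q) (hb : G15 b) {z z' : ℂ} (hz : Tor n t z) (h : ¬ IK Q b z)
    (h' : IK Q b z') : MP Q (xO b (z + z') - xO b z) := (hD1 n t Q hQ b hb).2.2.2.2.2.1 z z' hz h h'

/-- Translation by the kernel: not in the kernel. -/
theorem IK.not_add (hD1 : S_D1) (hX : XOm b) (hQ : GQ n t Q) (hb : G15 b) {z z' : ℂ} (h : ¬ IK Q b z)
    (h' : IK Q b z') : ¬ IK Q b (z + z') := by
  intro h1
  have h2 := IK.sub hD1 hX hQ hb h1 h'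
  rw [add_sub_cancel_right] at h2
  exact h h2

/-- Separation: a unit. `z`, `z'` not in the kernel, `z ± z'` not in the kernel. -/
theorem IK.sep (hD1 : S_D1) (hQ : GQ n t Q) (hb : G15 b) {z z' : ℂ} (hz : Tor n t z) (hz' : Tor n t z')
    (h : ¬ IK Q b z) (h' : ¬ IK Q b z') (h1 : ¬ IK Q b (z + z')) (h2 : ¬ IK Q b (z - z')) :
    UP Q (xO b z - xO b z') := by
  have : Q.IsPrime := hQ.1.1
  have hv : ∀ y : ℂ, Tor n t y → ¬ IK Q b y → VP Q (xO b y) := by
    intro y hy hy'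
    by_contra h3
    exact hy' ⟨hy, Or.inr h3⟩
  refine ⟨(hv z hz h).sub (hv z' hz' h'), fun h3 => ?_⟩
  rcases (hD1 n t Q hQ b hb).2.2.2.2.2.2 z z' hz hz' h h' h3 with h4 | h4
  · exact h1 h4
  · exact h2 h4

theorem IK.vp {z : ℂ} (hz : Tor n t z) (h : ¬ IK Q b z) : VP Q (xO b z) := by
  by_contra h3
  exact h ⟨hz, Or.inr h3⟩

theorem IK.not_lam (hD1 : S_D1) (hQ : GQ n t Q) (hb : G15 b) {z : ℂ} (h : ¬ IK Q b z) : z ∉ Lam b :=
  fun h1 => h (IK.lam hD1 hQ hb h1)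

/-- A point of order `α` with `α` a unit at `Q` is not in the kernel. -/
theorem IK.not_of_unit (hD1 : S_D1) (hQ : GQ n t Q) (hb : G15 b) {z : ℂ} {α : OO n t}
    (hα : ¬ MP Q (toO α)) (h : toC α * z ∈ Lam b) (hz : z ∉ Lam b) : ¬ IK Q b z := by
  intro h1
  have h2 := IK.qp hD1 hQ hb h1 α 1 hα (by rw [mul_one]; exact h)
  rw [toC_one, one_mul] at h2
  exact hz h2

theorem IK.not_of_nat (hD1 : S_D1) (hQ : GQ n t Q) (hb : G15 b) {z : ℂ} {N : ℕ}
    (hN : ¬ MP Q (N : Om)) (h : (N : ℂ) * z ∈ Lam b) (hz : z ∉ Lam b) : ¬ IK Q b z := by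
  refine IK.not_of_unit hD1 hQ hb (α := (N : OO n t)) ?_ ?_ hz
  · rw [toO_nat]
    exact hN
  · rw [toC_nat]
    exact h

/-- Points of odd order: if twice the point is in the kernel then the point is. -/
theorem IK.of_two (hD1 : S_D1) (hQ : GQ n t Q) (hb : G15 b) {a : Ideal (OO n t)} (ha : PrI a 2) {u : ℂ}
    (hu : u ∈ Lam (a * b)) (h : IK Q b (2 * u)) : IK Q b u := by
  obtain ⟨v, hv, w, e⟩ := pri_split ha
  have h1 : IK Q b (toC v * u) := IK.lam hD1 hQ hb (lam_prod.1 hu v hv)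
  have h2 := IK.mul hD1 hQ hb w h
  have h3 := IK.add hD1 hQ hb h1 h2
  have h4 := congrArg toC e
  rw [toC_add, toC_mul, toC_nat, toC_one] at h4
  push_cast at h4
  have e5 : toC v * u + toC w * (2 * u) = u := by linear_combination u * h4
  rwa [e5] at h3

/-- If the point is killed by an ideal which is not below `Q` then it is not in the kernel. -/
theorem IK.not_of_abv (hD1 : S_D1) (hQ : GQ n t Q) (hb : G15 b) {a : Ideal (OO n t)} (ha : ¬ Abv Q a) {u : ℂ}
    (hu : u ∈ Lam (a * b)) (hu' : u ∉ Lam b) : ¬ IK Q b u := by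
  unfold Abv at ha
  push Not at ha
  obtain ⟨v, hv, hv'⟩ := ha
  exact IK.not_of_unit hD1 hQ hb hv' (lam_prod.1 hu v hv) hu'

end Ker

end Pool.Agent.DN
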