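import Pool.Agent.Lib.DN.R.Spec

/-!
# Theorem DN, part D, first half (kernel of reduction, Legendre's coordinate, product formula): statements (helper46)

All proved by helper46 in `DN/D/<name>.lean` (from the valuation theory of `DN/R`). `Ord2 b T T'` (`DN/R/Spec`): `T`, `T'` are
different points of order two of `ℂ / Lam b`.
-/

set_option autoImplicit false

open scoped Pointwise nonZeroDivisors

noncomputable section

namespace Pool.Agent.DN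

open Pool.Agent.MuZ Pool.Agent.FW NumberField IsDedekindDomain
open Pool.Agent.DI (io ofC io_inj exists_io io_ofC ofC_io VP MP UP TP ex)

/-- The kernel of reduction at `Q`, in Legendre's coordinate (`Q` not above `2`). -/
def IL {n t : ℕ} (Q : Ideal ZZ) (b : Ideal (OO n t)) (T T' z : ℂ) : Prop :=
  Tor n t z ∧ (z ∈ Lam b ∨ ¬ VP Q (leO b T T' z))

/-- LEGENDRE'S COORDINATE AT ALL PRIMES NOT ABOVE TWO. (1) algebraicity; (2) the values at the points of order two; (3)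
the kernel is an `O`-module, it contains `Lam b`; (4) isogenies of odd degree; (5) the kernel is `Q`-primary; (6) congruence;
(7) separation; (8) the kernel does not depend on `T`, `T'`; (9) periods, parity; (10) injectivity. -/
def S_LgK : Prop :=
  ∀ (n t : ℕ) [Ine n t] (Q : Ideal ZZ), Npr Q → ¬ MP Q 2 → ∀ b : Ideal (OO n t), b ≠ ⊥ →
    ∀ T T' : ℂ, Ord2 b T T' →
    (wpC b T' ≠ wpC b T ∧ ∀ z : ℂ, Tor n t z → z ∉ Lam b →
      io (leO b T T' z) = (wpC b z - wpC b T) / (wpC b T' - wpC b T)) ∧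
    (leO b T T' T = 0 ∧ leO b T T' T' = 1 ∧ UP Q (leO b T T' (T + T')) ∧
      UP Q (1 - leO b T T' (T + T'))) ∧
    ((∀ z z' : ℂ, IL Q b T T' z → IL Q b T T' z' → IL Q b T T' (z + z')) ∧
      (∀ z : ℂ, IL Q b T T' z → IL Q b T T' (-z)) ∧ (∀ z ∈ Lam b, IL Q b T T' z) ∧
      ∀ (v : OO n t) (z : ℂ), IL Q b T T' z → IL Q b T T' (toC v * z)) ∧
    (∀ a : Ideal (OO n t), a ≠ ⊥ → PrI a 2 → Ord2 (a * b) T T' ∧
      ∀ z : ℂ, IL Q b T T' z → IL Q (a * b) T T' z) ∧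
    (∀ z : ℂ, IL Q b T T' z → Qp Q b z) ∧
    (∀ z z' : ℂ, Tor n t z → ¬ IL Q b T T' z → IL Q b T T' z' →
      MP Q (leO b T T' (z + z') - leO b T T' z)) ∧
    (∀ z z' : ℂ, Tor n t z → Tor n t z' → ¬ IL Q b T T' z → ¬ IL Q b T T' z' →
      MP Q (leO b T T' z - leO b T T' z') → IL Q b T T' (z + z') ∨ IL Q b T T' (z - z')) ∧
    (∀ T₁ T₁' : ℂ, Ord2 b T₁ T₁' → ∀ z : ℂ, IL Q b T T' z ↔ IL Q b T₁ T₁' z) ∧
    (∀ z z' : ℂ, (z - z' ∈ Lam b ∨ z + z' ∈ Lam b) → leO b T T' z = leO b T T' z') ∧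
    ∀ z z' : ℂ, Tor n t z → Tor n t z' → z ∉ Lam b → z' ∉ Lam b → leO b T T' z = leO b T T' z' →
      z - z' ∈ Lam b ∨ z + z' ∈ Lam b

/-- THE FACTORS OF THETA IN LEGENDRE'S COORDINATE. -/
def S_LgT : Prop :=
  ∀ (n t : ℕ) [Ine n t] (b : Ideal (OO n t)), G15 b → ∀ T T' : ℂ, Ord2 b T T' →
    ∀ z u : ℂ, Tor n t z → Tor n t u → z ∉ Lam b → u ∉ Lam b →
      W2 b u * ((xO b z - xO b u) ^ 3)⁻¹ =
        4 * leO b T T' u * (leO b T T' u - 1) * (leO b T T' u - leO b T T' (T + T')) *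
          ((leO b T T' z - leO b T T' u) ^ 3)⁻¹

open Classical in
/-- THE PRODUCT FORMULA IN `Om`, points of order two; the constant. -/
def S_PrC : Prop :=
  ∀ (n t : ℕ) [Ine n t] (a b : Ideal (OO n t)), a ≠ ⊥ → G15 b → PrI a 2 → PrI a 15 →
    ∀ R : Finset ℂ, IsSys a b R → ∀ T T' : ℂ, Ord2 b T T' → ∃ C : Om, C ≠ 0 ∧
      C = rO b (a * b) ^ 2 * ∏ u ∈ R, (if u ∈ Lam b then 1 else xO b u - xO b T) ∧
      (∀ z : ℂ, Tor n t z → z ∉ Lam (a * b) → ∏ u ∈ R, (xO b (z + u) - xO b T) =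
        C * (xO (a * b) z - xO (a * b) T)) ∧
      ((xO b T' - xO b T) * (xO b (T + T') - xO b T)) ^ NI a =
        C ^ 2 * ((xO (a * b) T' - xO (a * b) T) * (xO (a * b) (T + T') - xO (a * b) T)) ∧
      Ord2 (a * b) T T' ∧ ∀ Q : Ideal ZZ, GQ n t Q → ¬ MP Q 2 → UP Q C

/-- UNITS AT THE PRIMES OF GOOD REDUCTION NOT ABOVE TWO: the points of order two; the framing. -/
def S_LaU : Prop :=
  ∀ (n t : ℕ) [Ine n t] (b : Ideal (OO n t)), G15 b → ∀ Q : Ideal ZZ, GQ n t Q → ¬ MP Q 2 →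
    (∀ T T' : ℂ, Ord2 b T T' → VP Q (xO b T) ∧ UP Q (xO b T' - xO b T) ∧ ¬ IK Q b T ∧
      ∀ a : Ideal (OO n t), a ≠ ⊥ → PrI a 2 → ∀ u ∈ Lam (a * b), u ∉ Lam b → ¬ IK Q b u →
        UP Q (xO b u - xO b T)) ∧
    ∀ a : Ideal (OO n t), a ≠ ⊥ → PrI a 2 → PrI a 15 → VP Q (rO b (a * b)) ∧
      ((∃ u ∈ Lam (a * b), u ∉ Lam b ∧ IK Q b u) → MP Q (rO b (a * b))) ∧
      ((∀ u ∈ Lam (a * b), u ∉ Lam b → ¬ IK Q b u) → UP Q (rO b (a * b)))

end Pool.Agent.DN
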