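import Pool.Agent.Lib.DN.R.VTwo
import Pool.Agent.Lib.DN.R.RL
import Pool.Agent.Lib.DN.D.SpecA

/-!
# Theorem DN, part D: from the valuations of `ℂ` to the primes `Q` (helper46)
-/

set_option autoImplicit false

open scoped Pointwise nonZeroDivisors

noncomputable section

namespace Pool.Agent.DN

open Pool.Agent.MuZ Pool.Agent.FW NumberField IsDedekindDomain
open Pool.Agent.DI (io ofC io_inj exists_io io_ofC ofC_io VP MP UP TP ex)

/-- A valuation ring of `ℂ` above `Q`. -/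
structure VQ (Q : Ideal ZZ) (V : ValuationSubring ℂ) : Prop where
  le : ∀ x : Om, V.valuation (io x) ≤ 1 ↔ VP Q x
  lt : ∀ x : Om, V.valuation (io x) < 1 ↔ MP Q x
  eq : ∀ x : Om, V.valuation (io x) = 1 ↔ UP Q x

theorem exists_VQ {Q : Ideal ZZ} (hQ : Npr Q) : ∃ V : ValuationSubring ℂ, VQ Q V := by
  obtain ⟨V, h1, h2, h3⟩ := sVEx Q hQ
  exact ⟨V, h1, h2, h3⟩

section

variable {Q : Ideal ZZ} {V : ValuationSubring ℂ}

theorem VQ.two (h : VQ Q V) (hQ : Npr Q) (h2 : ¬ MP Q 2) : V.valuation 2 = 1 := by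
  haveI := hQ.1
  have h3 := (h.eq 2).2 ⟨by exact_mod_cast DI.VP.nat (P := Q) 2, h2⟩
  rwa [map_ofNat] at h3

theorem VQ.two_lt (h : VQ Q V) (h2 : MP Q 2) : V.valuation 2 < 1 := by
  have h3 := (h.lt 2).2 h2
  rwa [map_ofNat] at h3

theorem VQ.gt (h : VQ Q V) (x : Om) : 1 < V.valuation (io x) ↔ ¬ VP Q x := by
  rw [← h.le, not_le]

variable {n t : ℕ}

theorem VQ.tc [SqN n t] (h : VQ Q V) (hQ : Npr Q) {α : OO n t} (hα : ¬ MP Q (toO α)) :
    V.valuation (toC α) = 1 := by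
  haveI := hQ.1
  rw [← io_toO]
  exact (h.eq _).2 ⟨toO_VP α, hα⟩

/-- The coordinate `X`. -/
theorem xx_XC (b : Ideal (OO n t)) (z : ℂ) : xx b (wpC b (1 / 3)) (fr b ^ 2) z = XC b z := rfl

theorem XC_c [SqN n t] {b : Ideal (OO n t)} (hG : G15 b) :
    c2 (wpC b (1 / 3)) (fr b ^ 2) = A1 b ^ 2 ∧ c4 b (wpC b (1 / 3)) (fr b ^ 2) = A1 b * A3 b ∧
    c6 b (wpC b (1 / 3)) (fr b ^ 2) = A3 b ^ 2 ∧ c8 b (wpC b (1 / 3)) (fr b ^ 2) = 0 ∧ fr b ^ 2 ≠ 0 ∧
    dsc (c2 (wpC b (1 / 3)) (fr b ^ 2)) (c4 b (wpC b (1 / 3)) (fr b ^ 2))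
      (c6 b (wpC b (1 / 3)) (fr b ^ 2)) (c8 b (wpC b (1 / 3)) (fr b ^ 2)) =
      A3 b ^ 3 * (A1 b ^ 3 - 27 * A3 b) := by
  obtain ⟨h1, h2, h3, h4, h5, h6, -⟩ := mod_c hG one_ne_zero
  simp only [one_pow, mul_one, div_one] at h1 h2 h3 h4 h5 h6
  exact ⟨h1, h2, h3, h4, h5, h6⟩

theorem GCd_XC [SqN n t] {Γ : Type} [LinearOrderedCommGroupWithZero Γ] {v : Valuation ℂ Γ} {b : Ideal (OO n t)}
    (hG : G15 b) (h1 : v (A1 b) ≤ 1) (h3 : v (A3 b) = 1) (hd : v (A1 b ^ 3 - 27 * A3 b) = 1) :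
    GCd v b (wpC b (1 / 3)) (fr b ^ 2) := by
  obtain ⟨e2, e4, e6, e8, es, ed⟩ := XC_c hG
  refine ⟨⟨es, ?_, ?_, ?_, ?_⟩, ?_⟩
  · rw [e2]; exact vpow h1 2
  · rw [e4]; exact vmul h1 h3.le
  · rw [e6]; exact vpow h3.le 2
  · rw [e8, v.map_zero]; exact zero_le_one
  · rw [ed, v.map_mul, v.map_pow, h3, hd]
    simp

/-- Good reduction at the primes with `GQ`. -/
theorem VQ.good [Ine n t] (R1 : S_R1) (h : VQ Q V) (hQ : GQ n t Q) {b : Ideal (OO n t)} (hG : G15 b) :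
    GCd V.valuation b (wpC b (1 / 3)) (fr b ^ 2) := by
  obtain ⟨g1, g3, gd⟩ := hQ.2 b hG
  obtain ⟨r1, r3, -, -⟩ := (R1.1 n t).1 b hG
  refine GCd_XC hG ?_ ?_ ?_
  · rw [← r1]; exact (h.le _).2 g1
  · rw [← r3]; exact (h.eq _).2 g3
  · have := (h.eq _).2 gd
    rwa [map_sub, map_mul, map_pow, map_ofNat, r1, r3] at this

theorem io_xO [Ine n t] (R1 : S_R1) {b : Ideal (OO n t)} (hG : G15 b) {z : ℂ} (hz : Tor n t z) :
    io (xO b z) = xx b (wpC b (1 / 3)) (fr b ^ 2) z := (((R1.1 n t).1 b hG).2.2.1 z hz).1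

theorem VQ.ik [Ine n t] (R1 : S_R1) (h : VQ Q V) {b : Ideal (OO n t)} (hG : G15 b) {z : ℂ} :
    IK Q b z ↔ Tor n t z ∧ Kr V.valuation (Lam b) (xx b (wpC b (1 / 3)) (fr b ^ 2)) z := by
  unfold IK Kr
  constructor
  · rintro ⟨h1, h2⟩
    refine ⟨h1, h2.imp_right fun h3 => ?_⟩
    rw [← io_xO R1 hG h1]
    exact (h.gt _).2 h3
  · rintro ⟨h1, h2⟩
    refine ⟨h1, h2.imp_right fun h3 => ?_⟩
    rw [← io_xO R1 hG h1] at h3
    exact (h.gt _).1 h3

/-- Differences of values of `X`. -/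
theorem VQ.xsub [Ine n t] (R1 : S_R1) (h : VQ Q V) {b : Ideal (OO n t)} (hG : G15 b) {z z' : ℂ}
    (hz : Tor n t z) (hz' : Tor n t z') : MP Q (xO b z - xO b z') ↔
      V.valuation (xx b (wpC b (1 / 3)) (fr b ^ 2) z - xx b (wpC b (1 / 3)) (fr b ^ 2) z') < 1 := by
  rw [← io_xO R1 hG hz, ← io_xO R1 hG hz', ← map_sub, h.lt]

end

/-- Two coordinates with good reduction have the same kernel (`v 2 = 1`). -/
theorem kr_indep {n t : ℕ} [SqN n t] {Γ : Type} [LinearOrderedCommGroupWithZero Γ] {v : Valuation ℂ Γ}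
    (hv : v 2 = 1) {b : Ideal (OO n t)} (hb : b ≠ ⊥) {e s e' s' : ℂ} (hg : GCd v b e s) (hg' : GCd v b e' s') :
    v s = v s' ∧ v (e - e') ≤ v s ∧
      ∀ z : ℂ, Kr v (Lam b) (xx b e s) z ↔ Kr v (Lam b) (xx b e' s') z := by
  obtain ⟨T, T', hT⟩ := ex_ord2 hb
  have hs : v s ≠ 0 := (v.ne_zero_iff).2 hg.ne
  have hs' : v s' ≠ 0 := (v.ne_zero_iff).2 hg'.ne
  have key : ∀ {e s : ℂ}, GCd v b e s → v (wpC b T' - wpC b T) = v s := by
    intro e s hg
    have h1 := ord2_unit hv hb hg hT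
    have h2 : wpC b T' - wpC b T = (xx b e s T' - xx b e s T) * s := by
      have := hg.ne
      unfold xx
      field_simp
      ring
    rw [h2, v.map_mul, h1, one_mul]
  have hss : v s = v s' := by rw [← key hg, key hg']
  have h3 : ∀ {e s : ℂ}, GCd v b e s → v (wpC b T - e) ≤ v s := by
    intro e s hg
    have h1 := ord2_val hv hb hg.toICd hT.t1 hT.t2
    have h2 : wpC b T - e = xx b e s T * s := by
      have := hg.ne
      unfold xx
      field_simp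
    rw [h2, v.map_mul]
    exact mul_le_of_le_one_left' h1
  have hee : v (e - e') ≤ v s := by
    have : e - e' = (wpC b T - e') - (wpC b T - e) := by ring
    rw [this]
    exact v.map_sub_le (by rw [hss]; exact h3 hg') (h3 hg)
  refine ⟨hss, hee, ?_⟩
  have imp : ∀ {e s e' s' : ℂ}, GCd v b e s → GCd v b e' s' → v s = v s' → v (e - e') ≤ v s → ∀ z : ℂ,
      1 < v (xx b e s z) → 1 < v (xx b e' s' z) := by
    intro e s e' s' hg hg' hss hee z hz
    have hs : v s ≠ 0 := (v.ne_zero_iff).2 hg.ne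
    have n1 := hg.ne
    have n2 := hg'.ne
    have e1 : xx b e' s' z = xx b e s z * (s / s') + (e - e') / s' := by
      unfold xx
      field_simp
      ring
    have e2 : v (xx b e s z * (s / s')) = v (xx b e s z) := by
      rw [v.map_mul, v.map_div, ← hss, div_self hs, mul_one]
    have e3 : v ((e - e') / s') ≤ 1 := by
      rw [v.map_div, ← hss]
      exact (div_le_one₀ (zero_lt_iff.2 hs)).2 hee
    rw [e1, v.map_add_eq_of_lt_left (by rw [e2]; exact lt_of_le_of_lt e3 hz), e2]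
    exact hz
  intro z
  have hee' : v (e' - e) ≤ v s' := by rw [v.map_sub_swap, ← hss]; exact hee
  exact ⟨fun h => h.imp_right (imp hg hg' hss hee z), fun h => h.imp_right (imp hg' hg hss.symm hee' z)⟩

/-- A system of representatives of `Lam (a b) / Lam b` has `N a` elements. -/
theorem IsSys.card_eq {n t : ℕ} [SqN n t] {a b : Ideal (OO n t)} (ha : a ≠ ⊥) (hb : b ≠ ⊥) {R : Finset ℂ}
    (hR : IsSys a b R) : R.card = NI a := by
  obtain ⟨-, -, R', hR', hc⟩ := aL3 n t a b ha hb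
  rw [← hc]
  have aux : ∀ {S S' : Finset ℂ}, IsSys a b S → IsSys a b S' → S.card ≤ S'.card := by
    intro S S' hS hS'
    choose! f hf hf' using fun (u : ℂ) (hu : u ∈ S) => hS'.ex u (hS.mem u hu)
    refine Finset.card_le_card_of_injOn f (fun u hu => hf u hu) ?_
    intro u hu u' hu' he
    refine hS.uni u hu u' hu' ?_
    have h1 := hf' u hu
    have h2 := hf' u' hu'
    have he' : f u = f u' := he
    rw [← he'] at h2
    have : u - u' = (u - f u) - (u' - f u) := by ring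
    rw [this]
    exact lam_sub h1 h2
  exact le_antisymm (aux hR hR') (aux hR' hR)

end Pool.Agent.DN
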