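import Pool.Agent.Lib.DN.D.Brg

/-!
# Theorem DN, part D: supersingular reduction above two (helper46)
-/

set_option autoImplicit false

open scoped Pointwise nonZeroDivisors

noncomputable section

namespace Pool.Agent.DN

open Pool.Agent.MuZ Pool.Agent.FW NumberField IsDedekindDomain
open Pool.Agent.DI (io ofC io_inj exists_io io_ofC ofC_io VP MP UP TP ex)

section

variable {n t : ℕ} [Ine n t] {Γ : Type} [LinearOrderedCommGroupWithZero Γ] {v : Valuation ℂ Γ}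

/-- Above two: good reduction of `X`. -/
theorem two_good (hv : v 2 < 1) {b : Ideal (OO n t)} (hG : G15 b) :
    v (A3 b) = 1 ∧ v (A1 b) < 1 ∧ v (A1 b ^ 3 - 27 * A3 b) = 1 ∧ GCd v b (wpC b (1 / 3)) (fr b ^ 2) := by
  obtain ⟨h3, h1⟩ := sVTwo n t Γ v hv b hG
  have hd : v (A1 b ^ 3 - 27 * A3 b) = 1 := by
    refine vcongr (y := -(27 * A3 b)) ?_ ?_
    · have : A1 b ^ 3 - 27 * A3 b - -(27 * A3 b) = A1 b ^ 3 := by ring
      rw [this]
      exact mpow h1 three_ne_zero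
    · have := v_odd (F := ℂ) hv (by decide : Odd 27)
      have h27 : v (27 : ℂ) = 1 := by exact_mod_cast this
      rw [v.map_neg, v.map_mul, h27, h3, one_mul]
  exact ⟨h3, h1, hd, GCd_XC hG h1.le h3 hd⟩

/-- `W(z)²` is congruent to `A3²`. -/
theorem w2_congr (hv : v 2 < 1) {b : Ideal (OO n t)} (hG : G15 b) {x : ℂ} (hx : v x ≤ 1) :
    v ((4 * x ^ 3 + A1 b ^ 2 * x ^ 2 + 2 * (A1 b * A3 b) * x + A3 b ^ 2) - A3 b ^ 2) < 1 ∧
      v (4 * x ^ 3 + A1 b ^ 2 * x ^ 2 + 2 * (A1 b * A3 b) * x + A3 b ^ 2) = 1 := by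
  obtain ⟨h3, h1, -, -⟩ := two_good hv hG
  have h4v : v (4 : ℂ) < 1 := by
    have : (4 : ℂ) = 2 * 2 := by norm_num
    rw [this]
    exact mmul hv.le hv
  have key : v ((4 * x ^ 3 + A1 b ^ 2 * x ^ 2 + 2 * (A1 b * A3 b) * x + A3 b ^ 2) - A3 b ^ 2) < 1 := by
    have : (4 * x ^ 3 + A1 b ^ 2 * x ^ 2 + 2 * (A1 b * A3 b) * x + A3 b ^ 2) - A3 b ^ 2 =
        4 * x ^ 3 + A1 b ^ 2 * x ^ 2 + 2 * (A1 b * A3 b * x) := by ring
    rw [this]
    refine madd (madd (mmulr h4v (vpow hx 3)) (mmulr (mpow h1 two_ne_zero) (vpow hx 2))) (mmulr hv ?_)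
    exact vmul (vmul h1.le h3.le) hx
  exact ⟨key, vcongr key (by rw [v.map_pow, h3, one_pow])⟩

theorem kr_half (hv : v 2 < 1) {b : Ideal (OO n t)} (hG : G15 b) {z : ℂ}
    (hz : Kr v (Lam b) (xx b (wpC b (1 / 3)) (fr b ^ 2)) (z + z)) :
    Kr v (Lam b) (xx b (wpC b (1 / 3)) (fr b ^ 2)) z := by
  obtain ⟨h3, h1, -, hg⟩ := two_good hv hG
  obtain ⟨e2, e4, e6, e8, es, -⟩ := XC_c hG
  have hK := sVCrd n t Γ v b _ _ hG.ne hg.toICd
  by_contra hcon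
  have z1 : z ∉ Lam b := fun h => hcon (Or.inl h)
  have z2 : v (xx b (wpC b (1 / 3)) (fr b ^ 2) z) ≤ 1 := not_lt.1 fun h => hcon (Or.inr h)
  have hW := (w2_congr hv hG z2).2
  by_cases h2 : z + z ∈ Lam b
  · have h4 := hK.tw z z1 h2
    rw [e2, e4, e6] at h4
    rw [h4, v.map_zero] at hW
    exact zero_ne_one hW
  · have h4 := (hK.dup z h2).2
    rw [e2, e4, e6, e8] at h4
    have h5 := congrArg v h4
    rw [v.map_mul, hW, mul_one] at h5
    have h6 : v (xx b (wpC b (1 / 3)) (fr b ^ 2) z ^ 4 - A1 b * A3 b * xx b (wpC b (1 / 3)) (fr b ^ 2) z ^ 2 -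
        2 * A3 b ^ 2 * xx b (wpC b (1 / 3)) (fr b ^ 2) z - 0) ≤ 1 := by
      refine vsub (vsub (vsub (vpow z2 4) (vmul (vmul h1.le h3.le) (vpow z2 2))) ?_) (by
        rw [v.map_zero]; exact zero_le_one)
      exact vmul (vmul hv.le (vpow h3.le 2)) z2
    rw [← h5] at h6
    exact absurd (hz.resolve_left h2) (not_lt.2 h6)

/-- The kernel above two: the points of order a power of two. -/
theorem kr_two_iff (hv : v 2 < 1) {b : Ideal (OO n t)} (hG : G15 b) {z : ℂ} :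
    (∀ j : ℕ, (2 : ℂ) ^ j * z ∈ Lam b → Kr v (Lam b) (xx b (wpC b (1 / 3)) (fr b ^ 2)) z) ∧
    (Tor n t z → Kr v (Lam b) (xx b (wpC b (1 / 3)) (fr b ^ 2)) z → ∃ j : ℕ, (2 : ℂ) ^ j * z ∈ Lam b) := by
  obtain ⟨h3, h1, -, hg⟩ := two_good hv hG
  have hK := sVCrd n t Γ v b _ _ hG.ne hg.toICd
  constructor
  · intro j
    induction j generalizing z with
    | zero =>
      intro h
      rw [pow_zero, one_mul] at h
      exact Or.inl h
    | succ j ih =>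
      intro h
      refine kr_half hv hG (ih ?_)
      have : (2 : ℂ) ^ j * (z + z) = 2 ^ (j + 1) * z := by ring
      rw [this]
      exact h
  · intro hz hk
    obtain ⟨N, hN, hNz⟩ := (tor_iff hG.ne).1 hz
    obtain ⟨j, M, hM, rfl⟩ := Nat.exists_eq_two_pow_mul_odd hN.ne'
    refine ⟨j, ?_⟩
    have h2 : Kr v (Lam b) (xx b (wpC b (1 / 3)) (fr b ^ 2)) ((2 : ℂ) ^ j * z) := by
      have := hK.kr_nsmul hk (2 ^ j)
      rw [nsmul_eq_mul] at this
      exact_mod_cast this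
    refine hK.ker_nat h2 (v_odd hv hM) ?_
    rw [nsmul_eq_mul]
    have : (M : ℂ) * ((2 : ℂ) ^ j * z) = ((2 ^ j * M : ℕ) : ℂ) * z := by
      push_cast
      ring
    rw [this]
    exact hNz

end

section

variable {n t : ℕ} [Ine n t] {P : Ideal ZZ}

/-- `S_R2a` above two. -/
theorem two_GQ (R1 : S_R1) (hP : Ab2 P) : GQ n t P ∧ ∀ b : Ideal (OO n t), G15 b → MP P (a1O b) := by
  obtain ⟨V, hV⟩ := exists_VQ hP.1
  have hv := hV.two_lt hP.2
  refine ⟨⟨hP.1, fun b hG => ?_⟩, fun b hG => ?_⟩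
  · obtain ⟨h3, h1, hd, -⟩ := two_good hv hG
    obtain ⟨r1, r3, -, -⟩ := (R1.1 n t).1 b hG
    refine ⟨(hV.le _).1 (by rw [r1]; exact h1.le), (hV.eq _).1 (by rw [r3]; exact h3), (hV.eq _).1 ?_⟩
    rw [map_sub, map_mul, map_pow, map_ofNat, r1, r3]
    exact hd
  · obtain ⟨h3, h1, -, -⟩ := two_good hv hG
    exact (hV.lt _).1 (by rw [((R1.1 n t).1 b hG).1]; exact h1)

/-- The kernel at the primes above two. -/
theorem ik_two (R1 : S_R1) (hP : Ab2 P) {b : Ideal (OO n t)} (hG : G15 b) {z : ℂ} :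
    IK P b z ↔ ∃ j : ℕ, (2 : ℂ) ^ j * z ∈ Lam b := by
  obtain ⟨V, hV⟩ := exists_VQ hP.1
  have hv := hV.two_lt hP.2
  rw [hV.ik R1 hG]
  constructor
  · rintro ⟨h1, h2⟩
    exact (kr_two_iff hv hG).2 h1 h2
  · rintro ⟨j, hj⟩
    refine ⟨(tor_iff hG.ne).2 ⟨2 ^ j, by positivity, ?_⟩, (kr_two_iff hv hG).1 j hj⟩
    push_cast
    exact hj

end

/-- `S_R2a` from the second half. -/
theorem sR2a (R1 : S_R1) (R2c : S_R2c) : S_R2a := fun n t _ => ⟨fun _ hP => two_GQ R1 hP, R2c n t⟩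

end Pool.Agent.DN
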