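import Pool.Agent.Lib.DN.D.SpecK

/-!
# Theorem DN, part D, module D10: the valuations at the points of order `2 ^ j`
-/

set_option autoImplicit false

open scoped Pointwise nonZeroDivisors

noncomputable section

namespace Pool.Agent.DN

open Pool.Agent.MuZ Pool.Agent.FW NumberField IsDedekindDomain
open Pool.Agent.DI (io ofC io_inj exists_io io_ofC ofC_io VP MP UP TP ex)

/-- The cofactor `g`. -/
private def gg (x y A B : Om) : Om :=
  2 * x ^ 3 * y ^ 3 + 2 * B ^ 2 * x ^ 2 * y ^ 2 * (x + y) + 2 * A * B * x * y * (x ^ 2 + x * y + y ^ 2) +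
    4 * A * B * x ^ 2 * y ^ 2 - A ^ 3 * B * (x + y) + 4 * A ^ 2 * x * y * (x + y) - A ^ 4 +
    A ^ 2 * (x ^ 3 + 2 * x * y ^ 2 - x ^ 2 * y)

private theorem gg_vp {P : Ideal ZZ} [P.IsPrime] {x y A B : Om} (hx : VP P x) (hy : VP P y)
    (hA : VP P A) (hB : VP P B) : VP P (gg x y A B) := by
  have h2 : VP P (2 : Om) := by simpa using DI.VP.nat (P := P) 2
  have h4 : VP P (4 : Om) := by simpa using DI.VP.nat (P := P) 4
  have hxy := hx.add hy
  unfold gg
  refine ((((((?_ : VP P _).add ?_).add ?_).add ?_).sub ?_).add ?_).sub ?_ |>.add ?_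
  · exact (h2.mul (hx.pow 3)).mul (hy.pow 3)
  · exact (((h2.mul (hB.pow 2)).mul (hx.pow 2)).mul (hy.pow 2)).mul hxy
  · exact ((((h2.mul hA).mul hB).mul hx).mul hy).mul (((hx.pow 2).add (hx.mul hy)).add (hy.pow 2))
  · exact ((((h4.mul hA).mul hB).mul (hx.pow 2)).mul (hy.pow 2))
  · exact ((hA.pow 3).mul hB).mul hxy
  · exact (((h4.mul (hA.pow 2)).mul hx).mul hy).mul hxy
  · exact hA.pow 4
  · exact (hA.pow 2).mul (((hx.pow 3).add ((h2.mul hx).mul (hy.pow 2))).sub ((hx.pow 2).mul hy))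

/-- The algebra of the duplication. -/
private theorem alg {x y A B x2 y2 Gx Gy : Om} (hGx : Gx = 4 * x ^ 3 + (2 * B * x + A) ^ 2)
    (hGy : Gy = 4 * y ^ 3 + (2 * B * y + A) ^ 2)
    (h1 : x2 * Gx = x ^ 4 - 2 * B * A * x ^ 2 - 2 * A ^ 2 * x)
    (h2 : y2 * Gy = y ^ 4 - 2 * B * A * y ^ 2 - 2 * A ^ 2 * y) :
    (y2 - x2) * (Gx * Gy) = A ^ 2 * (y - x) ^ 4 + 2 * (y - x) * gg x y A B := by
  have e : (y2 - x2) * (Gx * Gy) = (y ^ 4 - 2 * B * A * y ^ 2 - 2 * A ^ 2 * y) * Gx -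
      (x ^ 4 - 2 * B * A * x ^ 2 - 2 * A ^ 2 * x) * Gy := by
    linear_combination Gx * h2 - Gy * h1
  rw [e, hGx, hGy]
  unfold gg
  ring

theorem sD10 (hX : S_XOm) (hR2 : S_R2) (hD1 : S_D1) (hD2 : S_D2) (hD10a : S_D10a) : S_D10 := by
  intro n t _ P hP b hb j
  have hPp : P.IsPrime := hP.1.1
  have h2P : MP P 2 := hP.2
  obtain ⟨hQ, hTP⟩ := (hR2 n t).1 P hP
  have hXb := hX n t b hb
  obtain ⟨d1, -, -, d4, -, -, -⟩ := hD2 n t P hP b hb
  obtain ⟨-, hA, -⟩ := hQ.2 b hb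
  obtain ⟨B, hB, hB'⟩ := hTP b hb
  induction j with
  | zero =>
    intro z d hz hz' h1 h2
    rw [zero_add, pow_one] at h1
    rw [pow_zero, one_mul] at h2
    rw [pow_zero, mul_one]
    exact hD10a n t P hP b hb z d hz hz' h1 h2
  | succ j ih =>
    intro z d hz hz' h1 h2
    -- the point `2 z`
    have h2z : ¬ IK P b (2 * z) := by
      intro h3
      have h4 := IK.qp hD1 hQ hb h3
      obtain ⟨M, hM, hMz⟩ := (tor_iff hb.ne).1 hz
      obtain ⟨s, m, hm, rfl⟩ := Nat.exists_eq_two_pow_mul_odd hM.ne'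
      obtain ⟨r, rfl⟩ := hm
      have h5 : ¬ MP P (toO ((2 * r + 1 : ℕ) : OO n t)) := by
        rw [toO_nat]
        intro h6
        push_cast at h6
        have h7 : MP P (2 * (r : Om) + 1 - 2 * r) :=
          h6.sub (DI.MP.mul_right h2P (DI.VP.nat r))
        rw [add_sub_cancel_left] at h7
        exact DI.MP.one_not h7
      have h6 := h4 ((2 * r + 1 : ℕ) : OO n t) ((2 ^ s : ℕ) : OO n t) h5 (by
        rw [toC_mul, toC_nat, toC_nat]
        have e : (((2 * r + 1 : ℕ) : ℂ) * ((2 ^ s : ℕ) : ℂ)) * (2 * z) =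
            ((2 : ℕ) : ℂ) * (((2 ^ s * (2 * r + 1) : ℕ) : ℂ) * z) := by
          push_cast
          ring
        rw [e]
        exact lam_nat 2 hMz)
      rw [toC_nat] at h6
      refine hz' (d1 z (s + 1) ?_)
      have e : (2 : ℂ) ^ (s + 1) * z = ((2 ^ s : ℕ) : ℂ) * (2 * z) := by
        push_cast
        ring
      rw [e]
      exact h6
    have hKd : IK P b d := d1 d (j + 2) h1
    have hKd2 : IK P b (2 * d) := IK.two hD1 hQ hb hKd
    have hw' : ¬ IK P b (z + d) := IK.not_add hD1 hXb hQ hb hz' hKd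
    have h2w : ¬ IK P b (2 * (z + d)) := by
      rw [mul_add]
      exact IK.not_add hD1 hXb hQ hb h2z hKd2
    have hw : Tor n t (z + d) := tor_add hz hKd.1
    have hxV : VP P (xO b z) := IK.vp hz hz'
    have hyV : VP P (xO b (z + d)) := IK.vp hw hw'
    have hδ : MP P (xO b (z + d) - xO b z) := IK.red hD1 hQ hb hz hz' hKd
    have hx2V : VP P (xO b (2 * z)) := IK.vp (tor_two hz) h2z
    have hy2V : VP P (xO b (2 * (z + d))) := IK.vp (tor_two hw) h2w
    -- the units `G(x)`, `G(y)`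
    have hGxU : UP P (vO b z ^ 2) := DI.UP.pow (d4 z hz hz').2.1 2
    have hGyU : UP P (vO b (z + d) ^ 2) := DI.UP.pow (d4 _ hw hw').2.1 2
    have hkey := alg (x2 := xO b (2 * z)) (y2 := xO b (2 * (z + d)))
      (A := a3O b) (B := B) (Gx := vO b z ^ 2) (Gy := vO b (z + d) ^ 2)
      (by rw [← hB']; exact hXb.crv z hz (IK.not_lam hD1 hQ hb hz'))
      (by rw [← hB']; exact hXb.crv (z + d) hw (IK.not_lam hD1 hQ hb hw'))
      (by rw [← hB']; exact hXb.dup z hz (IK.not_lam hD1 hQ hb h2z))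
      (by rw [← hB']; exact hXb.dup (z + d) hw (IK.not_lam hD1 hQ hb h2w))
    -- induction
    have hi := ih (2 * z) (2 * d) (tor_two hz) h2z
      (by rw [← mul_assoc, ← pow_succ]; exact h1) (by rw [← mul_assoc, ← pow_succ]; exact h2)
    rw [← mul_add] at hi
    have hggV : VP P (gg (xO b z) (xO b (z + d)) (a3O b) B) := gg_vp hxV hyV hA.1 hB
    set x := xO b z
    set y := xO b (z + d)
    set D := xO b (2 * (z + d)) - xO b (2 * z) with hD
    set g := gg x y (a3O b) B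
    have hDV : VP P D := hy2V.sub hx2V
    have hN : 3 * 4 ^ j = (3 * 4 ^ j - 1) + 1 := by
      have : 0 < 4 ^ j := by positivity
      omega
    set ε : Om := D ^ (3 * 4 ^ j) / 2 with hε
    have hε0 : ε ≠ 0 := DI.UP.ne_zero hi
    have hDN : D ^ (3 * 4 ^ j) = 2 * ε := by
      rw [hε]
      field_simp
    have hD0 : D ≠ 0 := by
      intro h3
      rw [h3, zero_pow (by positivity)] at hDN
      exact hε0 ((mul_eq_zero.1 hDN.symm).resolve_left two_ne_zero)
    -- `2 = D q`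
    obtain ⟨q, hqV, hq⟩ : ∃ q : Om, VP P q ∧ (2 : Om) = D * q := by
      refine ⟨D ^ (3 * 4 ^ j - 1) * ε⁻¹, (hDV.pow _).mul (DI.UP.inv hi).1, ?_⟩
      have h3 : D * D ^ (3 * 4 ^ j - 1) = 2 * ε := by
        rw [← pow_succ', ← hN]
        exact hDN
      rw [← mul_assoc, h3, mul_assoc, mul_inv_cancel₀ hε0, mul_one]
    have hAU : UP P (a3O b ^ 2) := DI.UP.pow hA 2
    have hA0 : a3O b ^ 2 ≠ 0 := DI.UP.ne_zero hAU
    have hUU : UP P (vO b z ^ 2 * vO b (z + d) ^ 2 - q * (y - x) * g) := by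
      refine DI.UP.congr (DI.UP.mul hGxU hGyU) ?_
      have e : vO b z ^ 2 * vO b (z + d) ^ 2 - q * (y - x) * g - vO b z ^ 2 * vO b (z + d) ^ 2 =
          -(q * (y - x) * g) := by ring
      rw [e]
      exact (DI.MP.mul_right (DI.MP.mul_left hqV hδ) hggV).neg
    have h4 : (y - x) ^ 4 =
        D * ((vO b z ^ 2 * vO b (z + d) ^ 2 - q * (y - x) * g) / a3O b ^ 2) := by
      rw [mul_div_assoc', eq_div_iff hA0]
      have h5 : D * (vO b z ^ 2 * vO b (z + d) ^ 2) =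
          a3O b ^ 2 * (y - x) ^ 4 + (D * q) * (y - x) * g := by
        rw [← hq]
        exact hkey
      linear_combination -h5
    have hfin : (y - x) ^ (3 * 4 ^ (j + 1)) / 2 =
        ε * ((vO b z ^ 2 * vO b (z + d) ^ 2 - q * (y - x) * g) / a3O b ^ 2) ^ (3 * 4 ^ j) := by
      have e : 3 * 4 ^ (j + 1) = 4 * (3 * 4 ^ j) := by ring
      rw [e, pow_mul, h4, mul_pow, hDN]
      field_simp
    rw [hfin]
    exact DI.UP.mul hi (DI.UP.pow (DI.UP.div hUU hAU) _)

end Pool.Agent.DN
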