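import Pool.Agent.Lib.DN.D.SpecK

/-!
# Theorem DN, part D: module `D10a` (translation by a point of order two, above `2`)
-/

set_option autoImplicit false

open scoped Pointwise nonZeroDivisors

noncomputable section

namespace Pool.Agent.DN

open Pool.Agent.MuZ Pool.Agent.FW NumberField IsDedekindDomain
open Pool.Agent.DI (io ofC io_inj exists_io io_ofC ofC_io VP MP UP TP ex)

/-- `A² y³ = 4 η`. -/
private theorem D10a_cubic {A B e y : Om} (hy : e * y = 1)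
    (hc : 4 * e ^ 3 + (2 * B * e + A) ^ 2 = 0) :
    A ^ 2 * y ^ 3 = 4 * -(1 + (A * B * y ^ 2 + B ^ 2 * y)) := by
  linear_combination y ^ 3 * hc - (4 * (e ^ 2 * y ^ 2 + e * y + 1) + 4 * B ^ 2 * y * (e * y + 1) +
    4 * A * B * y ^ 2) * hy

/-- The translation formula. -/
private theorem D10a_trans {A B e y x x' x1 x2 w : Om} (hy : e * y = 1) (hw : 2 * w = y ^ 2)
    (s1 : 4 * (e + x1 + x2) = -(2 * B) ^ 2) (s2 : 2 * (e * x1 + e * x2 + x1 * x2) = 2 * B * A)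
    (ht : (x' - e) * (x - e) = (x1 - e) * (x2 - e)) :
    (x' - x) * y * (x * y - 1) = 2 * (1 + ((B ^ 2 + x) * y + (A * B - x ^ 2) * w)) := by
  have h1 : (x1 - e) * (x2 - e) = 3 * e ^ 2 + 2 * B ^ 2 * e + A * B := by
    linear_combination (1 / 2) * s2 - e / 2 * s1
  have h2 : (x' - x) * (x - e) = 2 * e ^ 2 + 2 * (B ^ 2 + x) * e + A * B - x ^ 2 := by
    linear_combination ht + h1
  linear_combination y ^ 2 * h2 +
    ((x' - x) * y + 2 * (e * y + 1) + 2 * (B ^ 2 + x) * y) * hy - (A * B - x ^ 2) * hw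

private theorem D10a_end {A y d U1 U2 η : Om} (hη : η ≠ 0) (hU2 : U2 ≠ 0)
    (h1 : A ^ 2 * y ^ 3 = 4 * η) (h2 : d * y * U2 = 2 * U1) :
    d ^ 3 / 2 = A ^ 2 * U1 ^ 3 / (η * U2 ^ 3) := by
  rw [eq_div_iff (mul_ne_zero hη (pow_ne_zero 3 hU2))]
  have h3 : (d * y * U2) ^ 3 = (2 * U1) ^ 3 := by rw [h2]
  linear_combination (A ^ 2 / 8) * h3 - (d ^ 3 * U2 ^ 3 / 8) * h1

private theorem D10a_alg {P : Ideal ZZ} [P.IsPrime] {A B e x x' x1 x2 : Om} (h2 : MP P 2)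
    (hA : UP P A) (hB : VP P B) (he : e ≠ 0) (hy : MP P e⁻¹) (hx : VP P x)
    (hc : 4 * e ^ 3 + (2 * B * e + A) ^ 2 = 0)
    (s1 : 4 * (e + x1 + x2) = -(2 * B) ^ 2) (s2 : 2 * (e * x1 + e * x2 + x1 * x2) = 2 * B * A)
    (ht : (x' - e) * (x - e) = (x1 - e) * (x2 - e)) : UP P ((x' - x) ^ 3 / 2) := by
  obtain ⟨y, hy'⟩ : ∃ y : Om, y = e⁻¹ := ⟨_, rfl⟩
  rw [← hy'] at hy
  have hey : e * y = 1 := by rw [hy', mul_inv_cancel₀ he]
  have hA0 : A ≠ 0 := DI.UP.ne_zero hA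
  have hunit : ∀ u : Om, MP P u → UP P (1 + u) := by
    intro u hu
    refine DI.UP.congr DI.UP.one ?_
    rwa [add_sub_cancel_left]
  have hyV : VP P y := hy.vp
  -- the unit `η`
  obtain ⟨η, hη'⟩ : ∃ η : Om, η = -(1 + (A * B * y ^ 2 + B ^ 2 * y)) := ⟨_, rfl⟩
  have hη : UP P η := by
    rw [hη']
    refine DI.UP.neg (hunit _ (DI.MP.add ?_ (DI.MP.mul_left (DI.VP.pow hB 2) hy)))
    rw [pow_two, ← mul_assoc]
    exact DI.MP.mul_left (DI.VP.mul (DI.VP.mul hA.1 hB) hyV) hy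
  have e1 : A ^ 2 * y ^ 3 = 4 * η := by
    rw [hη']
    exact D10a_cubic hey hc
  -- `w = y² / 2`
  obtain ⟨w, hw'⟩ : ∃ w : Om, w = y ^ 2 / 2 := ⟨_, rfl⟩
  have hw2 : 2 * w = y ^ 2 := by
    rw [hw']
    ring
  have hw : MP P w := by
    have h3 : w ^ 3 = 2 * (η ^ 2 / A ^ 4) := by
      have h4 : w ^ 3 * A ^ 4 = 2 * η ^ 2 := by
        have h5 : (A ^ 2 * y ^ 3) ^ 2 = (4 * η) ^ 2 := by rw [e1]
        rw [hw']
        linear_combination (1 / 8) * h5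
      rw [← mul_div_assoc, eq_div_iff (pow_ne_zero 4 hA0)]
      exact h4
    refine DI.MP.of_pow (n := 3) ?_
    rw [h3]
    exact DI.MP.mul_right h2 (DI.UP.div (DI.UP.pow hη 2) (DI.UP.pow hA 4)).1
  have e2 := D10a_trans (A := A) hey hw2 s1 s2 ht
  -- the units
  have hU1 : UP P (1 + ((B ^ 2 + x) * y + (A * B - x ^ 2) * w)) :=
    hunit _ (DI.MP.add (DI.MP.mul_left (DI.VP.add (DI.VP.pow hB 2) hx) hy)
      (DI.MP.mul_left (DI.VP.sub (DI.VP.mul hA.1 hB) (DI.VP.pow hx 2)) hw))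
  have hU2 : UP P (x * y - 1) := by
    have h3 := DI.UP.neg (hunit _ (DI.MP.neg (DI.MP.mul_left hx hy)))
    have h4 : -(1 + -(x * y)) = x * y - 1 := by ring
    rwa [h4] at h3
  rw [D10a_end (DI.UP.ne_zero hη) (DI.UP.ne_zero hU2) e1 e2]
  exact DI.UP.div (DI.UP.mul (DI.UP.pow hA 2) (DI.UP.pow hU1 3))
    (DI.UP.mul hη (DI.UP.pow hU2 3))

theorem sD10a (hX : S_XOm) (hR2 : S_R2) (hD1 : S_D1) (hD2 : S_D2) (hTw : S_Tw) : S_D10a := by
  intro n t _ P hP b hb z T hz hz' h2 hT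
  have hPp : P.IsPrime := hP.1.1
  obtain ⟨hG, ha1⟩ := (hR2 n t).1 P hP
  obtain ⟨B, hB, hB'⟩ := ha1 b hb
  have hA : UP P (a3O b) := (hG.2 b hb).2.1
  obtain ⟨T', hO⟩ := exists_ord2' h2 hT
  have hIK : IK P b T := (hD2 n t P hP b hb).1 T 1 (by rw [pow_one]; exact h2)
  have hV : ¬ VP P (xO b T) := by
    rcases hIK.2 with h | h
    · exact absurd h hT
    · exact h
  obtain ⟨he, hy⟩ := DI.VP.not_iff.1 hV
  have hx : VP P (xO b z) := IK.vp hz hz'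
  have hzL : z ∉ Lam b := IK.not_lam hD1 hG hb hz'
  have hzT : z + T ∉ Lam b :=
    IK.not_lam hD1 hG hb (IK.not_add hD1 (hX n t b hb) hG hb hz' hIK)
  obtain ⟨⟨-, c1⟩, c2, c3, -, -, c4, -⟩ := hTw n t b hb T T' hO
  rw [hB'] at c1 c2 c3
  exact D10a_alg hP.2 hA hB he hy hx c1 c2 c3 (c4 z hz hzL hzT)

end Pool.Agent.DN
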