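import Pool.Agent.Lib.DN.D.SpecK
import Pool.Agent.Lib.DN.O.All

/-!
# Theorem DN, part D, module D3: Kronecker's congruence `S_D3`, the constant is `1`
-/

set_option autoImplicit false

open scoped Pointwise nonZeroDivisors

noncomputable section

namespace Pool.Agent.DN

open Pool.Agent.MuZ Pool.Agent.FW NumberField IsDedekindDomain
open Pool.Agent.DI (io ofC io_inj exists_io io_ofC ofC_io VP MP UP TP ex)

private theorem D3_cmul {Q : Ideal ZZ} [Q.IsPrime] {a a' b b' : Om} (ha : VP Q a) (hb : VP Q b')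
    (h1 : MP Q (a - a')) (h2 : MP Q (b - b')) : MP Q (a * b - a' * b') := by
  have e : a * b - a' * b' = a * (b - b') + (a - a') * b' := by ring
  rw [e]
  exact (DI.MP.mul_left ha h2).add (DI.MP.mul_right h1 hb)

private theorem D3_cancel {Q : Ideal ZZ} [Q.IsPrime] {a u : Om} (hu : UP Q u) (h : MP Q (a * u)) :
    MP Q a := by
  have h1 := DI.MP.mul_right h hu.inv.1
  rwa [mul_assoc, mul_inv_cancel₀ hu.ne_zero, mul_one] at h1

private theorem D3_trans {Q : Ideal ZZ} [Q.IsPrime] {a b c : Om} (h1 : MP Q (a - b)) (h2 : MP Q (b - c)) :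
    MP Q (a - c) := by
  have h := h1.add h2
  rwa [sub_add_sub_cancel] at h

private theorem D3_symm {Q : Ideal ZZ} {a b : Om} (h1 : MP Q (a - b)) : MP Q (b - a) := by
  have h := h1.neg
  rwa [neg_sub] at h

theorem sD3 (hFer : S_Fer) (hLaU : S_LaU) (hTw : S_Tw) (hD3a : S_D3a) (hD3b : S_D3b) : S_D3 := by
  intro n t _ q l hq hl Q hQ hA b hb
  have hQ1 : Q.IsPrime := hQ.1.1
  obtain ⟨hF1, hF2, -, -, hlo, h2, -, -, hq2, hq15⟩ := hFer n t q l hq hl Q hQ.1 hA
  have hqG : G15 q := ⟨hq.2.1, hq15⟩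
  have hqb : G15 (q * b) := Eb.g15_mul hqG hb
  obtain ⟨c, hc, hc3, hcT, hcz⟩ := hD3b n t q l hq hl Q hQ hA b hb
  obtain ⟨T, T', hT⟩ := exists_ord2 aL3 hb.ne
  have hT2 : Ord2 (q * b) T T' := hT.mul hq2
  have hv : ∀ (d : Ideal (OO n t)) (S S' : ℂ), G15 d → Ord2 d S S' → VP Q (xO d S) :=
    fun d S S' hd h => ((hLaU n t d hd Q hQ h2).1 S S' h).1
  -- the values at the points of order two
  have x0 := hv b _ _ hb hT
  have x1 := hv b _ _ hb hT.symm
  have x2 := hv b _ _ hb hT.right.symm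
  have y0 := hv (q * b) _ _ hqb hT2
  have y1 := hv (q * b) _ _ hqb hT2.symm
  have y2 := hv (q * b) _ _ hqb hT2.right.symm
  have k0 := hcT _ _ hT
  have k1 := hcT _ _ hT.symm
  have k2 := hcT _ _ hT.right.symm
  obtain ⟨-, -, r2, r3, -, -, -⟩ := hTw n t b hb T T' hT
  obtain ⟨-, -, s2, s3, -, -, -⟩ := hTw n t (q * b) hqb T T' hT2
  obtain ⟨hB, hAu, -⟩ := hQ.2 b hb
  obtain ⟨hB', hAu', -⟩ := hQ.2 (q * b) hqb
  generalize xO b T = x at *
  generalize xO b T' = x' at *
  generalize xO b (T + T') = x'' at *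
  generalize xO (q * b) T = y at *
  generalize xO (q * b) T' = y' at *
  generalize xO (q * b) (T + T') = y'' at *
  generalize a1O b = B at *
  generalize a1O (q * b) = B' at *
  generalize a3O b = A at *
  generalize a3O (q * b) = A' at *
  have hn1 : ¬ MP Q (((1 : ℤ)) : Om) := by
    rw [Int.cast_one]
    exact DI.MP.one_not
  have h4 : MP Q ((4 : Om) ^ l - 4) := by
    have h := hF1 4 1 hn1
    rw [Int.cast_one, div_one] at h
    exact_mod_cast h
  have h2l : MP Q ((2 : Om) ^ l - 2) := by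
    have h := hF1 2 1 hn1
    rw [Int.cast_one, div_one] at h
    exact_mod_cast h
  have v4 : VP Q (4 : Om) := by exact_mod_cast DI.VP.nat (P := Q) 4
  have v2 : VP Q (2 : Om) := by exact_mod_cast DI.VP.nat (P := Q) 2
  have hAl : VP Q (A ^ l) := hAu.1.pow l
  -- the constant
  have hc1 : MP Q (c - 1) := by
    have e1 : MP Q (x ^ l * x' ^ l * x'' ^ l - c * y * (c * y') * (c * y'')) :=
      D3_cmul ((x0.pow l).mul (x1.pow l)) (hc.1.mul y2)
        (D3_cmul (x0.pow l) (hc.1.mul y1) k0 k1) k2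
    have e2 : MP Q (4 ^ l * (x ^ l * x' ^ l * x'' ^ l) - 4 * (c * y * (c * y') * (c * y''))) :=
      D3_cmul (v4.pow l) (((hc.1.mul y0).mul (hc.1.mul y1)).mul (hc.1.mul y2)) h4 e1
    have e3 : (4 : Om) ^ l * (x ^ l * x' ^ l * x'' ^ l) = -(A ^ l * A ^ l) := by
      rw [← mul_pow, ← mul_pow, ← mul_pow, r3, ← mul_pow, ← pow_two, hlo.neg_pow]
    have e4 : (4 : Om) * (c * y * (c * y') * (c * y'')) = -(c * (c * A') * (c * A')) := by
      linear_combination c ^ 3 * s3
    rw [e3, e4] at e2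
    have e5 : MP Q (A ^ l * A ^ l - c * A' * (c * A')) :=
      D3_cmul hAl (hc.1.mul hAu'.1) hc3 hc3
    have e6 := e2.add e5
    have hu : UP Q (c * A' * (c * A')) := (hc.mul hAu').mul (hc.mul hAu')
    refine D3_cancel hu ?_
    have e7 : (c - 1) * (c * A' * (c * A')) =
        -(A ^ l * A ^ l) - -(c * (c * A') * (c * A')) + (A ^ l * A ^ l - c * A' * (c * A')) := by ring
    rw [e7]
    exact e6
  have hcc : ∀ w w' : Om, VP Q w' → MP Q (w - c * w') → MP Q (w' - w) := by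
    intro w w' hw' h
    have e : w' - w = -(w - c * w') - (c - 1) * w' := by ring
    rw [e]
    exact h.neg.sub (DI.MP.mul_right hc1 hw')
  have hA3 : MP Q (A' - A ^ l) := hcc _ _ hAu'.1 hc3
  refine ⟨hD3a n t q l hq hl Q hQ hA b hb, ?_, hA3, ?_⟩
  · have m0 := D3_symm (hcc _ _ y0 k0)
    have m1 := D3_symm (hcc _ _ y1 k1)
    have m2 := D3_symm (hcc _ _ y2 k2)
    -- the second relation
    have f1 : MP Q ((x * x' + x * x'' + x' * x'') ^ l - (y * y' + y * y'' + y' * y'')) := by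
      have g1 := (hF2 (x * x' + x * x'') (x' * x'') ((x0.mul x1).add (x0.mul x2)) (x1.mul x2)).1
      have g2 := (hF2 (x * x') (x * x'') (x0.mul x1) (x0.mul x2)).1
      have g3 : MP Q (x ^ l * x' ^ l - y * y') := D3_cmul (x0.pow l) y1 m0 m1
      have g4 : MP Q (x ^ l * x'' ^ l - y * y'') := D3_cmul (x0.pow l) y2 m0 m2
      have g5 : MP Q (x' ^ l * x'' ^ l - y' * y'') := D3_cmul (x1.pow l) y2 m1 m2
      have e : (x * x' + x * x'' + x' * x'') ^ l - (y * y' + y * y'' + y' * y'') =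
          ((x * x' + x * x'' + x' * x'') ^ l - ((x * x' + x * x'') ^ l + (x' * x'') ^ l)) +
          ((x * x' + x * x'') ^ l - ((x * x') ^ l + (x * x'') ^ l)) +
          ((x ^ l * x' ^ l - y * y') + (x ^ l * x'' ^ l - y * y'') + (x' ^ l * x'' ^ l - y' * y'')) := by
        rw [mul_pow x x', mul_pow x x'', mul_pow x' x'']
        ring
      rw [e]
      exact (g1.add g2).add ((g3.add g4).add g5)
    have hyv : VP Q (y * y' + y * y'' + y' * y'') := ((y0.mul y1).add (y0.mul y2)).add (y1.mul y2)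
    have f2 : MP Q (2 ^ l * (x * x' + x * x'' + x' * x'') ^ l - 2 * (y * y' + y * y'' + y' * y'')) :=
      D3_cmul (v2.pow l) hyv h2l f1
    rw [← mul_pow, r2, s2, mul_pow] at f2
    -- `f2 : B ^ l * A ^ l = B' * A'`
    refine D3_cancel hAu' ?_
    have e : (B' - B ^ l) * A' = -(B ^ l * A ^ l - B' * A') - B ^ l * (A' - A ^ l) := by ring
    rw [e]
    exact f2.neg.sub (DI.MP.mul_left (hB.pow l) hA3)
  · intro z hz h
    obtain ⟨j1, j2⟩ := hcz z hz h
    refine ⟨j1, hcc _ _ ?_ j2⟩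
    by_contra h5
    exact j1 ⟨hz, Or.inr h5⟩

end Pool.Agent.DN
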