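import Pool.Agent.Lib.DN.D.SpecK
import Pool.Agent.Lib.DN.O.All

/-!
# Theorem DN, part D, module D3a: the `q`-torsion is in the kernel of reduction
-/

set_option autoImplicit false

open scoped Pointwise nonZeroDivisors

noncomputable section

namespace Pool.Agent.DN

open Pool.Agent.MuZ Pool.Agent.FW NumberField IsDedekindDomain
open Pool.Agent.DI (io ofC io_inj exists_io io_ofC ofC_io VP MP UP TP ex)

variable {n t : ℕ}

private theorem D3a_top {q b : Ideal (OO n t)} {z : ℂ} (h : z ∉ Lam b) (hq : q.IsMaximal) :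
    ∀ a' : Ideal (OO n t), q < a' → z ∉ Lam (a' * b) := by
  intro a' ha' h1
  rw [hq.1.2 a' ha', Ideal.top_mul] at h1
  exact h h1

/-- If a point of `Lam (q b)` is not in the kernel, then no point outside `Lam b` is. -/
private theorem D3a_one [Ine n t] (hD1 : S_D1) {q : Ideal (OO n t)} (hq : q.IsMaximal)
    (hq0 : q ≠ ⊥) {Q : Ideal ZZ} (hQ : GQ n t Q) {b : Ideal (OO n t)} (hb : G15 b)
    {u u' : ℂ} (hu : u ∈ Lam (q * b)) (hK : ¬ IK Q b u) (hu' : u' ∈ Lam (q * b)) (hn : u' ∉ Lam b) :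
    ¬ IK Q b u' := by
  intro hK'
  obtain ⟨-, h32, -⟩ := aL3 n t q b hq0 hb.ne
  obtain ⟨v, hv⟩ := (h32 u' hu' (D3a_top hn hq)).2 u hu
  have h := IK.add hD1 hQ hb (IK.lam hD1 hQ hb hv) (IK.mul hD1 hQ hb v hK')
  rw [sub_add_cancel] at h
  exact hK h

/-- If `rO b (q b)` is a unit then so is `rO (q b) (q (q b))`. -/
private theorem D3a_two [Ine n t] (hD1 : S_D1) (hPrC : S_PrC)
    (hLaU : S_LaU) {q : Ideal (OO n t)} (hq0 : q ≠ ⊥) (hq2 : PrI q 2) (hq15 : PrI q 15) {Q : Ideal ZZ}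
    (hQ : GQ n t Q) (hQ2 : ¬ MP Q 2) {b : Ideal (OO n t)} (hb : G15 b)
    (hU : UP Q (rO b (q * b))) : UP Q (rO (q * b) (q * (q * b))) := by
  classical
  have := hQ.1.1
  obtain ⟨hT1, hL3⟩ := hLaU n t b hb Q hQ hQ2
  have hno : ∀ u ∈ Lam (q * b), u ∉ Lam b → ¬ IK Q b u := by
    intro u hu hu' hK
    exact hU.2 ((hL3 q hq0 hq2 hq15).2.1 ⟨u, hu, hu', hK⟩)
  have hqb : G15 (q * b) := g15_mul' hq0 hq15 hb
  obtain ⟨hT2, hL3'⟩ := hLaU n t (q * b) hqb Q hQ hQ2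
  refine (hL3' q hq0 hq2 hq15).2.2 ?_
  intro w hw hw' hKw
  obtain ⟨hT, hor⟩ := hKw
  have hV : ¬ VP Q (xO (q * b) w) := hor.resolve_left hw'
  obtain ⟨-, -, R, hR, -⟩ := aL3 n t q b hq0 hb.ne
  obtain ⟨T, T', hTT⟩ := exists_ord2 aL3 hb.ne
  obtain ⟨C, hC0, -, hprod, -, hTT', hCU⟩ := hPrC n t q b hq0 hb hq2 hq15 R hR T T' hTT
  have hCU := hCU Q hQ hQ2
  have hv1 : VP Q (xO b T) := (hT1 T T' hTT).1
  have hv2 : VP Q (xO (q * b) T) := (hT2 T T' hTT').1
  have hP := hprod w hT hw'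
  obtain ⟨u, hu, hVu⟩ : ∃ u ∈ R, ¬ VP Q (xO b (w + u)) := by
    by_contra hcon
    push Not at hcon
    have h1 : VP Q (C * (xO (q * b) w - xO (q * b) T)) := by
      rw [← hP]
      exact Pool.Agent.DI.VP.prod _ _ fun u hu => (hcon u hu).sub hv1
    apply hV
    have e : xO (q * b) w = C⁻¹ * (C * (xO (q * b) w - xO (q * b) T)) + xO (q * b) T := by
      rw [inv_mul_cancel_left₀ hC0, sub_add_cancel]
    rw [e]
    exact (hCU.inv.1.mul h1).add hv2
  have huq := hR.mem u hu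
  have hw1 : w + u ∈ Lam (q * (q * b)) := lam_add hw (lam_mono huq)
  have hw2 : w + u ∉ Lam (q * b) := by
    intro h
    apply hw'
    have := lam_sub h huq
    rwa [add_sub_cancel_right] at this
  have hK' : IK Q b (w + u) := ⟨tor_add hT (tor_lam hqb.ne huq), Or.inr hVu⟩
  obtain ⟨v, hv, hvb⟩ : ∃ v ∈ q, toC v * (w + u) ∉ Lam b := by
    by_contra hcon
    push Not at hcon
    exact hw2 (lam_prod.2 hcon)
  exact hno _ (lam_prod.1 hw1 v hv) hvb (IK.mul hD1 hQ hb v hK')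

/-- **THE `q`-TORSION IS IN THE KERNEL.** -/
theorem sD3a (_hX : S_XOm) (hD1 : S_D1) (hFer : S_Fer) (hPrC : S_PrC) (hLaU : S_LaU) (hRoH : S_RoH) :
    S_D3a := by
  intro n t _ q l hDeg hl Q hQ hA b hb
  obtain ⟨-, -, -, -, -, hQ2, -, -, hq2, hq15⟩ := hFer n t q l hDeg hl Q hQ.1 hA
  obtain ⟨hqP, hq0, -, -⟩ := hDeg
  have hqM : q.IsMaximal := hqP.isMaximal hq0
  have := hQ.1.1
  have hbad : ∀ b : Ideal (OO n t), G15 b → ¬ UP Q (rO b (q * b)) := by
    intro b hb hU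
    have hg : ∀ i : ℕ, G15 (q ^ i * b) := by
      intro i
      induction i with
      | zero => rwa [pow_zero, one_mul]
      | succ i ih =>
        rw [pow_succ', mul_assoc]
        exact g15_mul' hq0 hq15 ih
    have hall : ∀ i : ℕ, UP Q (rO (q ^ i * b) (q * (q ^ i * b))) := by
      intro i
      induction i with
      | zero => rwa [pow_zero, one_mul]
      | succ i ih =>
        have := D3a_two hD1 hPrC hLaU hq0 hq2 hq15 hQ hQ2 (hg i) ih
        rwa [← mul_assoc q (q ^ i) b, ← pow_succ'] at this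
    obtain ⟨h, la, hh, hla, -, -, hprod⟩ := hRoH n t q hq0 hq15
    have h1 : UP Q (toO la) := by
      rw [← hprod b hb]
      exact Pool.Agent.DI.UP.prod _ _ (fun i _ => hall i)
    have h2 : la ∈ q := by
      have h3 : la ∈ q ^ h := by
        rw [hla]
        exact Ideal.mem_span_singleton_self la
      exact Ideal.pow_le_self hh.ne' h3
    exact h1.2 (hA la h2)
  intro u hu
  by_contra hK
  obtain ⟨-, hL3⟩ := hLaU n t b hb Q hQ hQ2
  exact hbad b hb ((hL3 q hq0 hq2 hq15).2.2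
    (fun u' hu' hn => D3a_one hD1 hqM hq0 hQ hb hu hK hu' hn))

end Pool.Agent.DN
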