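import Pool.Agent.Lib.DN.D.SpecK
import Pool.Agent.Lib.DN.O.All

/-!
# Theorem DN, module D4: valuation of the `q`-torsion
-/

set_option autoImplicit false

open scoped Pointwise nonZeroDivisors

noncomputable section

namespace Pool.Agent.DN

open Pool.Agent.MuZ Pool.Agent.FW NumberField IsDedekindDomain
open Pool.Agent.DI (io ofC io_inj exists_io io_ofC ofC_io VP MP UP TP ex)

variable {n t : ℕ}

/-- Every class modulo a prime ideal of degree one contains a natural number. -/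
private theorem D4_nat {q : Ideal (OO n t)} {l : ℕ} (hl : l.Prime) (hN : NI q = l) (v : OO n t) :
    ∃ j : ℕ, v - j ∈ q := by
  have hN' : Nat.card (OO n t ⧸ q) = l := hN
  have hfin : Finite (OO n t ⧸ q) := Nat.finite_of_card_ne_zero (by rw [hN']; exact hl.ne_zero)
  let _ : Fintype (OO n t ⧸ q) := Fintype.ofFinite _
  have hc : Fintype.card (OO n t ⧸ q) = l := by rw [← Nat.card_eq_fintype_card]; exact hN'
  have : NeZero l := ⟨hl.ne_zero⟩
  let e : ZMod l ≃+* (OO n t ⧸ q) := ZMod.ringEquivOfPrime (OO n t ⧸ q) hl hc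
  refine ⟨(e.symm (Ideal.Quotient.mk q v)).val, ?_⟩
  rw [← Ideal.Quotient.eq]
  have h1 : e ((e.symm (Ideal.Quotient.mk q v)).val : ZMod l) = Ideal.Quotient.mk q v := by
    rw [ZMod.natCast_zmod_val, RingEquiv.apply_symm_apply]
  rw [map_natCast] at h1
  rw [map_natCast]
  exact h1.symm

/-- The number of nonzero classes. -/
private theorem D4_card {a b : Ideal (OO n t)} {l : ℕ} {R : Finset ℂ} (hR : IsSys a b R)
    (hc : R.card = l) [DecidablePred fun u => u ∈ Lam b] :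
    (R.filter fun u => ¬ u ∈ Lam b).card = l - 1 := by
  obtain ⟨u0, hu0, hl0⟩ := hR.ex 0 (lam_zero _)
  have hl0' : u0 ∈ Lam b := by
    have := lam_neg hl0
    simpa using this
  have h1 : R.filter (fun u => u ∈ Lam b) = {u0} := by
    ext u
    rw [Finset.mem_filter, Finset.mem_singleton]
    constructor
    · rintro ⟨h, h'⟩
      exact hR.uni u h u0 hu0 (lam_sub h' hl0')
    · rintro rfl
      exact ⟨hu0, hl0'⟩
  have h2 := Finset.card_filter_add_card_filter_not (s := R) (fun u => u ∈ Lam b)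
  rw [h1, Finset.card_singleton, hc] at h2
  omega

theorem sD4 (hX : S_XOm) (hD1 : S_D1) (hFer : S_Fer) (hPrC : S_PrC) (hLaU : S_LaU) (hD3a : S_D3a)
    (hRef : S_Ref) (hRoL : S_RoL) : S_D4 := by
  classical
  intro n t _ la l hdeg hl30 Q hQ hla b hb u hu hLu
  have : Q.IsPrime := hQ.1.1
  have hq0 : sp la ≠ ⊥ := hdeg.2.1
  have hla0 : la ≠ 0 := fun h => hq0 (by rw [h]; exact Ideal.span_singleton_eq_bot.2 rfl)
  have hl := hdeg.2.2.1
  have habv : Abv Q (sp la) := by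
    intro v hv
    obtain ⟨c, rfl⟩ := Ideal.mem_span_singleton'.1 hv
    rw [toO_mul]
    exact DI.MP.mul_left (toO_VP c) hla
  obtain ⟨-, -, -, -, hodd, h2, h3, h5, hP2, hP15⟩ := hFer n t (sp la) l hdeg hl30 Q hQ.1 habv
  have hcop : Cop la 15 := ((aO6 n t).2.2.2.1 15 la (by norm_num)).1 hP15
  obtain ⟨-, hL3b, R, hR, hRc⟩ := aL3 n t (sp la) b hq0 hb.ne
  rw [hdeg.2.2.2] at hRc
  obtain ⟨T, T', hTT⟩ := exists_ord2 aL3 hb.ne
  obtain ⟨C, -, hCdef, -, -, -, hCu⟩ := hPrC n t (sp la) b hq0 hb hP2 hP15 R hR T T' hTT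
  have uC : UP Q C := hCu Q hQ h2
  have hr : UP Q (rO b (sp la * b) / toO la) := hRoL n t Q hQ h3 h5 la b hla0 hcop hb
  have hlaO : toO la ≠ 0 := toO_ne hla0
  obtain ⟨hLaU1, -⟩ := hLaU n t b hb Q hQ h2
  obtain ⟨hTV, -, -, -⟩ := hLaU1 T T' hTT
  -- the torsion is in the kernel
  have hmem : ∀ u' : ℂ, u' ∈ Lam (sp la * b) → u' ∉ Lam b → ¬ VP Q (xO b u') := by
    intro u' hu' hL'
    exact ((hD3a n t (sp la) l hdeg hl30 Q hQ habv b hb u' hu').2).resolve_left hL'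
  have hqb : sp la * b ≠ ⊥ := fun h => (Ideal.mul_eq_bot.1 h).elim hq0 hb.ne
  have hT : ∀ u' : ℂ, u' ∈ Lam (sp la * b) → Tor n t u' := fun u' h => tor_lam hqb h
  have hmax : (sp la).IsMaximal := hdeg.1.isMaximal hq0
  have hu' : u ∈ Lam (sp la * b) := lam_sp.2 hu
  -- quotients
  have hquo : ∀ u1 u2 : ℂ, u1 ∈ Lam (sp la * b) → u1 ∉ Lam b → u2 ∈ Lam (sp la * b) →
      u2 ∉ Lam b → VP Q (xO b u1 / xO b u2) := by
    intro u1 u2 hu1 hL1 hu2 hL2
    obtain ⟨n1, m1⟩ := DI.VP.not_iff.1 (hmem u1 hu1 hL1)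
    have hadd := hRef n t b hb Q hQ (xO b u1)⁻¹ m1
    obtain ⟨-, hgen⟩ := hL3b u1 hu1 (by
      intro a' ha'
      have h3 : a' = ⊤ := hmax.1.2 a' ha'
      rw [h3, Ideal.top_mul]
      exact hL1)
    obtain ⟨v, hv⟩ := hgen u2 hu2
    obtain ⟨j, hn⟩ := D4_nat hl hdeg.2.2.2 v
    obtain ⟨c, hc⟩ := Ideal.mem_span_singleton'.1 hn
    have hv' : u2 - (j : ℂ) * u1 ∈ Lam b := by
      have h4 : toC v = toC (c * la) + j := by
        rw [hc, toC_sub, toC_nat]
        ring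
      have h5 : u2 - (j : ℂ) * u1 = (u2 - toC v * u1) + toC c * (toC la * u1) := by
        rw [h4, toC_mul]
        ring
      rw [h5]
      exact lam_add hv (lam_mul c (lam_sp.1 hu1))
    have j1 : Tor n t u1 ∧ (u1 ∈ Lam b ∨ (xO b u1 ≠ 0 ∧ TP Q (xO b u1)⁻¹ (xO b u1)⁻¹)) :=
      ⟨hT u1 hu1, Or.inr ⟨n1, 1, DI.VP.one, by rw [mul_one]⟩⟩
    have jn : ∀ j : ℕ, Tor n t ((j : ℂ) * u1) ∧ ((j : ℂ) * u1 ∈ Lam b ∨
        (xO b ((j : ℂ) * u1) ≠ 0 ∧ TP Q (xO b u1)⁻¹ (xO b ((j : ℂ) * u1))⁻¹)) := by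
      intro j
      induction j with
      | zero =>
        rw [Nat.cast_zero, zero_mul]
        exact ⟨tor_zero, Or.inl (lam_zero b)⟩
      | succ j ih =>
        have h6 := hadd _ _ ih j1
        have h7 : ((j + 1 : ℕ) : ℂ) * u1 = (j : ℂ) * u1 + u1 := by
          push_cast
          ring
        rw [h7]
        exact h6
    have j3 := hadd _ _ (jn j) ⟨tor_lam hb.ne hv', Or.inl hv'⟩
    rw [add_sub_cancel] at j3
    rcases j3.2 with h | ⟨-, y, hy, he⟩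
    · exact absurd h hL2
    · rw [div_eq_mul_inv, he, mul_inv_cancel_left₀ n1]
      exact hy
  have hn0 : ∀ u1 : ℂ, u1 ∈ Lam (sp la * b) → u1 ∉ Lam b → xO b u1 ≠ 0 := fun u1 h h' =>
    (DI.VP.not_iff.1 (hmem u1 h h')).1
  have hz := hn0 u hu' hLu
  have hun : ∀ u1 : ℂ, u1 ∈ Lam (sp la * b) → u1 ∉ Lam b →
      UP Q ((xO b u1 - xO b T) / xO b u) := by
    intro u1 h h'
    have ha : UP Q (xO b u1 / xO b u) := by
      refine DI.UP.iff.2 ⟨div_ne_zero (hn0 u1 h h') hz, hquo u1 u h h' hu' hLu, ?_⟩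
      rw [inv_div]
      exact hquo u u1 hu' hLu h h'
    have hb1 : UP Q (1 - xO b T * (xO b u1)⁻¹) := by
      refine DI.UP.congr DI.UP.one ?_
      have e : 1 - xO b T * (xO b u1)⁻¹ - 1 = -(xO b T * (xO b u1)⁻¹) := by ring
      rw [e]
      exact DI.MP.neg (DI.MP.mul_left hTV (DI.VP.not_iff.1 (hmem u1 h h')).2)
    have e : (xO b u1 - xO b T) / xO b u = xO b u1 / xO b u * (1 - xO b T * (xO b u1)⁻¹) := by
      have h6 := hn0 u1 h h'
      field_simp
    rw [e]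
    exact ha.mul hb1
  have e1 : ∏ u1 ∈ R, (if u1 ∈ Lam b then (1 : Om) else xO b u1 - xO b T) =
      xO b u ^ (l - 1) *
        ∏ u1 ∈ R, (if u1 ∈ Lam b then (1 : Om) else (xO b u1 - xO b T) / xO b u) := by
    have e2 : ∏ u1 ∈ R, (if u1 ∈ Lam b then (1 : Om) else xO b u) = xO b u ^ (l - 1) := by
      rw [Finset.prod_ite, Finset.prod_const_one, one_mul, Finset.prod_const, D4_card hR hRc]
    rw [← e2, ← Finset.prod_mul_distrib]
    refine Finset.prod_congr rfl fun u1 _ => ?_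
    split_ifs
    · rw [one_mul]
    · rw [mul_div_cancel₀ _ hz]
  have hq : UP Q (∏ u1 ∈ R, (if u1 ∈ Lam b then (1 : Om) else (xO b u1 - xO b T) / xO b u)) := by
    refine DI.UP.prod _ _ fun u1 hu1 => ?_
    split_ifs with hL'
    · exact DI.UP.one
    · exact hun u1 (hR.mem u1 hu1) hL'
  have hCe : C = (rO b (sp la * b) / toO la) ^ 2 * (toO la ^ 2 * xO b u ^ (l - 1)) *
      ∏ u1 ∈ R, (if u1 ∈ Lam b then (1 : Om) else (xO b u1 - xO b T) / xO b u) := by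
    have e3 : C = rO b (sp la * b) ^ 2 *
        ∏ u1 ∈ R, (if u1 ∈ Lam b then (1 : Om) else xO b u1 - xO b T) := by
      rw [hCdef]
    rw [e3, e1, div_pow]
    have h6 : toO la ^ 2 ≠ 0 := pow_ne_zero 2 hlaO
    rw [← mul_assoc (rO b (sp la * b) ^ 2 / toO la ^ 2), div_mul_cancel₀ _ h6, mul_assoc]
  have hc : UP Q ((rO b (sp la * b) / toO la) ^ 2 * (toO la ^ 2 * xO b u ^ (l - 1)) *
      ∏ u1 ∈ R, (if u1 ∈ Lam b then (1 : Om) else (xO b u1 - xO b T) / xO b u)) := by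
    rw [← hCe]
    exact uC
  have h6 := hc.div hq
  rw [mul_div_cancel_right₀ _ hq.ne_zero] at h6
  have h7 := h6.div (hr.pow 2)
  rw [mul_div_cancel_left₀ _ (hr.pow 2).ne_zero] at h7
  refine DI.UP.of_pow (n := 2) two_pos ?_
  obtain ⟨m, hm⟩ := hodd
  have e3 : (l - 1) / 2 = m := by omega
  have e4 : l - 1 = m * 2 := by omega
  rw [e3, mul_pow, ← pow_mul, ← e4]
  exact h7

end Pool.Agent.DN
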