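import Pool.Agent.Lib.DN.D.ThU
import Pool.Agent.Lib.DN.B.All

/-!
# Theorem DN, part D: the function `g` at the primes above `2` (module `D9`; author helper9)
-/

set_option autoImplicit false

open scoped Pointwise nonZeroDivisors

noncomputable section

namespace Pool.Agent.DN

open Pool.Agent.MuZ Pool.Agent.FW NumberField IsDedekindDomain
open Pool.Agent.DI (io ofC io_inj exists_io io_ofC ofC_io VP MP UP TP ex)

/-- **The function `g` at the primes above `2`.** -/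
theorem sD9 (hR1 : S_R1) (hR2a : S_R2a) (hD2 : S_D2) (hThU : S_ThU) : S_D9 := by
  intro n t _ P hPa m b hm hb hm2 hm15 z hz hzu
  have hP : P.IsPrime := hPa.1.1
  obtain ⟨hGQ, -⟩ := (hR2a n t).1 P hPa
  obtain ⟨t1, t2, t3⟩ := hThU n t m b hm hb hm2 P hGQ
  obtain ⟨hIz, -, hzm, t4⟩ := t3 z hz hzu
  have hH := (aB14 n t m b hm hb.ne hm2).1
  have hTu : ∀ u ∈ hs m b, Tor n t u := fun u hu => tor_lam (Eb.ne_mul hm hb.ne) (hH.mem u hu).1
  have r1 := ((hR1.1 n t).1 b hb).2.2.1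
  have hf : gO m b z = ∑ u ∈ hs m b, vO b z * (xO b z - xO b u)⁻¹ := by
    apply io_inj
    rw [(hR1.1 n t).2 m b hm hb hm2 hm15 z hz hzm, aB11 n t m b hm hb hm2 hm15 z hzm, map_sum]
    refine Finset.sum_congr rfl fun u hu => ?_
    rw [map_mul, map_inv₀, map_sub, (r1 z hz).1, (r1 z hz).2, (r1 u (hTu u hu)).1, div_eq_mul_inv]
  refine ⟨?_, hf⟩
  rw [hf]
  refine DI.VP.sum _ _ fun u hu => ?_
  obtain ⟨hu1, hu2⟩ := hH.mem u hu
  have hIu := t1 (t2 hPa.2) u hu1 hu2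
  have hU := (t4 u hu1).2 hu2 hIu
  exact ((hD2 n t P hPa b hb).2.2.2.1 z hz hIz).2.1.1.mul hU.inv.1

end Pool.Agent.DN
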