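import Pool.Agent.Lib.DN.D.SpecK
import Pool.Agent.Lib.DN.O.All
import Pool.Agent.Lib.DN.B.All

/-!
# Theorem DN, part D, module `Dis2`: the distribution relation of theta for `2`
-/

set_option autoImplicit false

open scoped Pointwise nonZeroDivisors

noncomputable section

namespace Pool.Agent.DN

open Pool.Agent.MuZ Pool.Agent.FW NumberField IsDedekindDomain
open Pool.Agent.DI (io ofC io_inj exists_io io_ofC ofC_io VP MP UP TP ex)

variable {n t : ℕ}

/-- The product of a periodic function over a system of representatives of the points of order two. -/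
private theorem Dis2_sys [Ine n t] {b : Ideal (OO n t)} (hb : b ≠ ⊥) {R : Finset ℂ}
    (hR : IsSys (sp 2) b R) {T T' : ℂ} (hO : Ord2 b T T') (F : ℂ → Om)
    (hF : ∀ w l : ℂ, l ∈ Lam b → F (w + l) = F w) :
    ∏ v ∈ R, F v = F 0 * F T * F T' * F (T + T') := by
  classical
  have h20 : sp (2 : OO n t) ≠ ⊥ := by
    refine Eb.ne_sp ?_
    have := Eb.nat_ne (n := n) (t := t) (N := 2) (by norm_num)
    exact_mod_cast this
  have hcard : R.card = 4 := by
    rw [sys_card aL3 h20 hb hR]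
    have h1 := (aO2 n t).2.2.2.1 (2 : OO n t)
    have h2 : Nm (2 : OO n t) = 4 := by
      have := Nm_nat (n := n) (t := t) 2
      push_cast at this
      rw [this]
    rw [h2] at h1
    exact_mod_cast h1
  have m2 : ∀ w : ℂ, 2 * w ∈ Lam b → w ∈ Lam (sp (2 : OO n t) * b) := by
    intro w hw
    rw [lam_sp, toC_two]
    exact hw
  obtain ⟨r0, hr0, k0⟩ := hR.ex 0 (lam_zero _)
  obtain ⟨rT, hrT, kT⟩ := hR.ex _ (m2 _ hO.t1)
  obtain ⟨rS, hrS, kS⟩ := hR.ex _ (m2 _ hO.t3)
  obtain ⟨rX, hrX, kX⟩ := hR.ex _ (m2 _ hO.s1)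
  -- two representatives are different
  have ne : ∀ w w' r r' : ℂ, w - r ∈ Lam b → w' - r' ∈ Lam b → w' - w ∉ Lam b → r ≠ r' := by
    rintro w w' r r' h1 h2 h3 rfl
    apply h3
    have := lam_sub h2 h1
    rwa [show w' - r - (w - r) = w' - w by ring] at this
  have n0T : r0 ≠ rT := ne 0 _ _ _ k0 kT (by rw [sub_zero]; exact hO.t2)
  have n0S : r0 ≠ rS := ne 0 _ _ _ k0 kS (by rw [sub_zero]; exact hO.t4)
  have n0X : r0 ≠ rX := ne 0 _ _ _ k0 kX (by rw [sub_zero]; exact hO.s2)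
  have nST : rS ≠ rT := ne _ _ _ _ kS kT hO.t5
  have nSX : rS ≠ rX := ne _ _ _ _ kS kX (by rw [add_sub_cancel_right]; exact hO.t2)
  have nTX : rT ≠ rX := ne _ _ _ _ kT kX (by rw [add_sub_cancel_left]; exact hO.t4)
  have m1 : r0 ∉ ({rT, rS, rX} : Finset ℂ) := by
    simp only [Finset.mem_insert, Finset.mem_singleton, not_or]
    exact ⟨n0T, n0S, n0X⟩
  have m2' : rT ∉ ({rS, rX} : Finset ℂ) := by
    simp only [Finset.mem_insert, Finset.mem_singleton, not_or]
    exact ⟨nST.symm, nTX⟩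
  have m3 : rS ∉ ({rX} : Finset ℂ) := by
    simp only [Finset.mem_singleton]
    exact nSX
  have hset : ({r0, rT, rS, rX} : Finset ℂ) = R := by
    refine Finset.eq_of_subset_of_card_le ?_ ?_
    · intro u hu
      simp only [Finset.mem_insert, Finset.mem_singleton] at hu
      rcases hu with rfl | rfl | rfl | rfl
      · exact hr0
      · exact hrT
      · exact hrS
      · exact hrX
    · rw [hcard, Finset.card_insert_of_notMem m1, Finset.card_insert_of_notMem m2',
        Finset.card_insert_of_notMem m3, Finset.card_singleton]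
  have fr : ∀ w r : ℂ, w - r ∈ Lam b → F r = F w := by
    intro w r h
    rw [← hF r (w - r) h, add_sub_cancel]
  rw [← hset, Finset.prod_insert m1, Finset.prod_insert m2', Finset.prod_insert m3,
    Finset.prod_singleton, fr 0 r0 k0, fr _ rS kS, fr _ rT kT, fr _ rX kX]
  ring

/-- Products over half systems, values in `ℂ`. -/
private theorem Dis2_half {m b : Ideal (OO n t)} {S S' : Finset ℂ} (h : IsHalf m b S)
    (h' : IsHalf m b S') (F : ℂ → ℂ)
    (hF : ∀ z ∈ Lam (m * b), F (-z) = F z ∧ ∀ l ∈ Lam b, F (z + l) = F z) :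
    ∏ u ∈ S, F u = ∏ u ∈ S', F u := by
  classical
  have h1 : ∀ u ∈ S, ∃ u' ∈ S', u - u' ∈ Lam b ∨ u + u' ∈ Lam b := fun u hu =>
    h'.ex u (h.mem u hu).1 (h.mem u hu).2
  choose! f hf hf' using h1
  have tr : ∀ x y w : ℂ, (x - w ∈ Lam b ∨ x + w ∈ Lam b) → (y - w ∈ Lam b ∨ y + w ∈ Lam b) →
      (x - y ∈ Lam b ∨ x + y ∈ Lam b) := by
    intro x y w h2 h3
    rcases h2 with h2 | h2 <;> rcases h3 with h3 | h3
    · left
      have := lam_sub h2 h3
      rwa [show x - w - (y - w) = x - y by ring] at this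
    · right
      have := lam_add h2 h3
      rwa [show x - w + (y + w) = x + y by ring] at this
    · right
      have := lam_add h2 h3
      rwa [show x + w + (y - w) = x + y by ring] at this
    · left
      have := lam_sub h2 h3
      rwa [show x + w - (y + w) = x - y by ring] at this
  have sw : ∀ x w : ℂ, (x - w ∈ Lam b ∨ x + w ∈ Lam b) → (w - x ∈ Lam b ∨ w + x ∈ Lam b) := by
    intro x w h2
    rcases h2 with h2 | h2
    · left
      have := lam_neg h2
      rwa [neg_sub] at this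
    · right
      rwa [add_comm]
  refine Finset.prod_bij (fun u _ => f u) hf ?_ ?_ ?_
  · intro u hu v hv e
    refine h.uni u hu v hv (tr u v (f u) (hf' u hu) ?_)
    rw [e]
    exact hf' v hv
  · intro v hv
    obtain ⟨u, hu, hu'⟩ := h.ex v (h'.mem v hv).1 (h'.mem v hv).2
    exact ⟨u, hu, h'.uni _ (hf u hu) v hv (tr _ _ u (sw _ _ (hf' u hu)) hu')⟩
  · intro u hu
    have h2 := (h'.mem _ (hf u hu)).1
    rcases hf' u hu with h3 | h3
    · rw [← (hF _ h2).2 _ h3, add_sub_cancel]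
    · have h4 := (hF _ (h.mem u hu).1).1
      have h5 := (hF _ h2).2 _ (lam_neg h3)
      rw [show f u + -(u + f u) = -u by ring] at h5
      rw [← h5, h4]

private theorem Dis2_alg {W A D : ℂ} (h : A = -W * D) : W ^ 4 * (A ^ 3)⁻¹ = -1 * (W * (D ^ 3)⁻¹) := by
  rw [h]
  by_cases hW : W = 0
  · rw [hW]
    simp
  · rw [show (-W * D) ^ 3 = -(W ^ 3) * D ^ 3 by ring, mul_inv, inv_neg]
    have h3 : W ^ 4 * (W ^ 3)⁻¹ = W := by field_simp
    linear_combination (-(D ^ 3)⁻¹) * h3

theorem sDis2 (hHsP : S_HsP) (hQt : S_Qt) (hD8a : S_D8a) : S_Dis2 := by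
  classical
  intro n t _ m b hm hG hm2 R hR z hz h2z
  have hb := hG.ne
  obtain ⟨T, T', hO⟩ := exists_ord2 aL3 hb
  obtain ⟨tT, tT', tX⟩ := hO.tor hb
  obtain ⟨-, d2, d3, -⟩ := hD8a n t m b hm hG hm2
  obtain ⟨-, -, -, p4⟩ := hHsP n t m b hm hb hm2
  have hq := (hQt n t b hG).1
  have hH : IsHalf m b (hs m b) := (aB14 n t m b hm hb hm2).1
  have hmb : m * b ≠ ⊥ := mul_ne_zero hm hb
  have h2z' : 2 * z ∉ Lam b := fun h => h2z (lam_mono h)
  have h2u : ∀ u ∈ hs m b, 2 * u ∉ Lam b := fun u hu h =>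
    (hH.mem u hu).2 (lam_of_odd hm2 (hH.mem u hu).1 h)
  have tu : ∀ u ∈ hs m b, Tor n t u := fun u hu => tor_lam hmb (hH.mem u hu).1
  -- `th0` as a complex number
  have hth : ∀ w : ℂ, Tor n t w → io (th0 m b w) = ∏ u ∈ hs m b, qC b w u := by
    intro w hw
    unfold th0
    rw [map_prod]
    exact Finset.prod_congr rfl fun u hu => (hq w u hw (tu u hu) (hH.mem u hu).2).1
  -- the product over the system
  have q1 : ∏ v ∈ R, th0 m b (z + v) = th0 m b z * th0 m b (z + T) * th0 m b (z + T') *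
      th0 m b (z + (T + T')) := by
    have := Dis2_sys hb hR hO (fun v => th0 m b (z + v)) (fun w l hl => by
      rw [← add_assoc]
      exact (d3 (z + w)).2 l hl)
    rw [this]
    simp only [add_zero]
  -- the half system `2 hs`
  have hcop : sp (2 : OO n t) ⊔ m = ⊤ := by
    rw [sup_comm]
    have := hm2
    unfold PrI at this
    exact_mod_cast this
  have hH2 : IsHalf m b ((hs m b).image fun u => toC (2 : OO n t) * u) := p4 2 _ hcop hH
  have hinj : ∀ u ∈ hs m b, ∀ u' ∈ hs m b, toC (2 : OO n t) * u = toC (2 : OO n t) * u' → u = u' := by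
    intro u _ u' _ h
    rw [toC_two] at h
    exact mul_left_cancel₀ two_ne_zero h
  have q3 : ∏ u ∈ hs m b, wdC b u ^ 2 = ∏ u ∈ hs m b, wdC b (2 * u) ^ 2 := by
    obtain ⟨b1, b2, -⟩ := aB1 n t b hb
    have hW : ∀ w ∈ Lam (m * b), wdC b (-w) ^ 2 = wdC b w ^ 2 ∧
        ∀ l ∈ Lam b, wdC b (w + l) ^ 2 = wdC b w ^ 2 := by
      intro w _
      refine ⟨?_, fun l hl => ?_⟩
      · rw [(b2 w).2, neg_sq]
      · rw [(b1 w l hl).2]
    rw [Dis2_half hH hH2 (fun u => wdC b u ^ 2) hW, Finset.prod_image hinj, toC_two]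
  have q4 : io (th0 m b (2 * z)) = (∏ u ∈ hs m b, wdC b (2 * u) ^ 2) *
      ∏ u ∈ hs m b, ((wpC b (2 * z) - wpC b (2 * u)) ^ 3)⁻¹ := by
    rw [← d2 _ hH2 (2 * z), Finset.prod_image hinj, toC_two, map_prod, ← Finset.prod_mul_distrib]
    exact Finset.prod_congr rfl fun u hu =>
      (hq (2 * z) (2 * u) (tor_two hz) (tor_two (tu u hu)) (h2u u hu)).1
  apply io_inj
  rw [q1, map_mul, map_mul, map_mul, hth z hz, hth _ (tor_add hz tT), hth _ (tor_add hz tT'),
    hth _ (tor_add hz tX), map_mul, map_pow, map_neg, map_one, q4, ← q3]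
  rw [← Finset.prod_mul_distrib, ← Finset.prod_mul_distrib, ← Finset.prod_mul_distrib,
    ← Finset.prod_mul_distrib, ← Finset.prod_const, ← Finset.prod_mul_distrib]
  refine Finset.prod_congr rfl fun u hu => ?_
  have key := aB15 n t b hb T T' hO.t1 hO.t2 hO.t3 hO.t4 hO.t5 u z (h2u u hu) h2z'
  rw [← Dis2_alg key]
  unfold qC
  simp only [mul_pow, mul_inv]
  ring

end Pool.Agent.DN
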