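import Pool.Agent.Lib.DN.D.SpecK
import Pool.Agent.Lib.DN.B.All
import Pool.Agent.Lib.DN.E.XOm

/-!
# Theorem DN, part D, module Qt: the factors of Theta do not depend on the framing
-/

set_option autoImplicit false

open scoped Pointwise nonZeroDivisors

noncomputable section

namespace Pool.Agent.DN

open Pool.Agent.MuZ Pool.Agent.FW NumberField IsDedekindDomain
open Pool.Agent.DI (io ofC io_inj exists_io io_ofC ofC_io VP MP UP TP ex)

private theorem Qt_alg {f w x : ℂ} (hf : f ≠ 0) :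
    (w / f ^ 3) ^ 2 * ((x / f ^ 2) ^ 3)⁻¹ = w ^ 2 * (x ^ 3)⁻¹ := by
  by_cases hx : x = 0
  · subst hx
    simp
  · field_simp

private theorem Qt_hom {a w x y : ℂ} (ha : a ≠ 0) :
    (a ^ 3 * w) ^ 2 * ((a ^ 2 * x - a ^ 2 * y) ^ 3)⁻¹ = w ^ 2 * ((x - y) ^ 3)⁻¹ := by
  rw [← mul_sub, mul_pow, mul_pow, mul_inv]
  have e : ((a ^ 2) ^ 3)⁻¹ = ((a ^ 3) ^ 2)⁻¹ := by
    rw [← pow_mul, ← pow_mul]
  rw [e]
  have h : (a ^ 3) ^ 2 ≠ 0 := pow_ne_zero _ (pow_ne_zero _ ha)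
  calc (a ^ 3) ^ 2 * w ^ 2 * (((a ^ 3) ^ 2)⁻¹ * ((x - y) ^ 3)⁻¹)
      = ((a ^ 3) ^ 2 * ((a ^ 3) ^ 2)⁻¹) * (w ^ 2 * ((x - y) ^ 3)⁻¹) := by ring
    _ = w ^ 2 * ((x - y) ^ 3)⁻¹ := by rw [mul_inv_cancel₀ h, one_mul]

theorem sQt (hX : S_XOm) (hR1 : S_R1) : S_Qt := by
  have h1 : ∀ (n t : ℕ) [Ine n t] (b : Ideal (OO n t)), G15 b → ∀ z u : ℂ, Tor n t z → Tor n t u →
      u ∉ Lam b → io (qO b z u) = qC b z u ∧ W2 b u = vO b u ^ 2 := by
    intro n t _ b hb z u hz hu hub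
    have hW : W2 b u = vO b u ^ 2 := ((hX n t b hb).crv u hu hub).symm
    refine ⟨?_, hW⟩
    obtain ⟨-, -, r3, -⟩ := (hR1.1 n t).1 b hb
    have hf : fr b ≠ 0 := ((aB1 n t b hb.ne).2.2.2.2.2 hb.cop).1
    unfold qO qC
    rw [hW, map_mul, map_pow, map_inv₀, map_pow, map_sub, (r3 z hz).1, (r3 u hu).1, (r3 u hu).2]
    have e : XC b z - XC b u = (wpC b z - wpC b u) / fr b ^ 2 := by
      unfold XC
      rw [← sub_div]
      ring
    rw [e]
    exact Qt_alg hf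
  intro n t _ b hb
  have hx : XOm b := hX n t b hb
  obtain ⟨b1, b2, -⟩ := aB1 n t b hb.ne
  have x1 : ∀ z l : ℂ, l ∈ Lam b → xO b (z + l) = xO b z := fun z l hl => (hx.per z l hl).1
  have x2 : ∀ z : ℂ, xO b (-z) = xO b z := by
    intro z
    unfold xO XC
    rw [(b2 z).1]
  refine ⟨h1 n t b hb, ?_, ?_, ?_⟩
  · intro α z u hα hc hz hu hub
    have hg : G15 (sp α * b) := g15_sp hα hc hb
    have hub' : toC α * u ∉ Lam b := fun h => hub (lam_sp.2 h)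
    apply io_inj
    rw [(h1 n t _ hg z u hz hu hub).1, (h1 n t b hb _ _ (tor_mul α hz) (tor_mul α hu) hub').1]
    obtain ⟨e1, -⟩ := (aB7 n t b hb.ne).1 α hα
    unfold qC
    rw [(e1 u).2.1, (e1 z).1, (e1 u).1]
    exact Qt_hom (toC_ne hα)
  · intro z u l hl
    refine ⟨?_, ?_, ?_, ?_⟩
    · unfold qO W2
      rw [x2]
    · unfold qO W2
      rw [x1 u l hl]
    · unfold qO
      rw [x2]
    · unfold qO
      rw [x1 z l hl]
  · intro z u hz hu h2u hzb hzu hzu'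
    have hub : u ∉ Lam b := by
      intro h
      apply h2u
      have h3 := lam_mul (2 : OO n t) h
      rwa [toC_two] at h3
    have hv : vO b u ≠ 0 := fun h => h2u ((hx.two u hu hub).1 h)
    have hne : xO b z - xO b u ≠ 0 := by
      intro h
      rcases hx.inj z u hz hu hzb hub (sub_eq_zero.1 h) with h3 | h3
      · exact hzu h3
      · exact hzu' h3
    unfold qO
    rw [(h1 n t b hb z u hz hu hub).2]
    exact mul_ne_zero (pow_ne_zero _ hv) (inv_ne_zero (pow_ne_zero _ hne))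

end Pool.Agent.DN
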