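import Pool.Agent.Lib.DN.D.SpecK
import Pool.Agent.Lib.DN.O.All
import Pool.Agent.Lib.DN.B.All

/-!
# Theorem DN, part D, module RoH: telescoping product of the framings
-/

set_option autoImplicit false

open scoped Pointwise nonZeroDivisors

noncomputable section

namespace Pool.Agent.DN

open Pool.Agent.MuZ Pool.Agent.FW NumberField IsDedekindDomain
open Pool.Agent.DI (io ofC io_inj exists_io io_ofC ofC_io VP MP UP TP ex)

variable {n t : ℕ}

/-- A power of an element prime to `15` is congruent to `1`. -/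
private theorem RoH_pow {μ : OO n t} (hμ : Cop μ 15) :
    ∃ e : ℕ, 0 < e ∧ (15 : OO n t) ∣ μ ^ e - 1 := by
  obtain ⟨ν, -, hν⟩ := cop_inv hμ
  have hν' : (15 : OO n t) ∣ μ * ν - 1 := by exact_mod_cast hν
  have hinf : ∃ i j : ℕ, i ≠ j ∧
      (fun j : ℕ => (((μ ^ j).re : ZMod 15), ((μ ^ j).im : ZMod 15))) i =
        (fun j : ℕ => (((μ ^ j).re : ZMod 15), ((μ ^ j).im : ZMod 15))) j :=
    Finite.exists_ne_map_eq_of_infinite _
  obtain ⟨i, j, hij, h⟩ := hinf
  have key : ∀ i j : ℕ, i < j → (((μ ^ i).re : ZMod 15), ((μ ^ i).im : ZMod 15)) =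
      (((μ ^ j).re : ZMod 15), ((μ ^ j).im : ZMod 15)) →
      ∃ e : ℕ, 0 < e ∧ (15 : OO n t) ∣ μ ^ e - 1 := by
    intro i j hlt h
    obtain ⟨h1, h2⟩ := Prod.mk.inj h
    refine ⟨j - i, by omega, ?_⟩
    have d : ((15 : ℕ) : OO n t) ∣ μ ^ j - μ ^ i := by
      rw [nat_dvd_iff]
      constructor
      · rw [QuadraticAlgebra.re_sub]
        exact (ZMod.intCast_eq_intCast_iff_dvd_sub _ _ 15).1 h1
      · rw [QuadraticAlgebra.im_sub]
        exact (ZMod.intCast_eq_intCast_iff_dvd_sub _ _ 15).1 h2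
    have d' : (15 : OO n t) ∣ μ ^ j - μ ^ i := by exact_mod_cast d
    have e1 : μ ^ j = μ ^ i * μ ^ (j - i) := by
      rw [← pow_add]
      congr 1
      omega
    have d2 : (15 : OO n t) ∣ (μ * ν) ^ i - 1 := by
      refine hν'.trans ?_
      have := sub_dvd_pow_sub_pow (μ * ν) 1 i
      rwa [one_pow] at this
    have e2 : μ ^ (j - i) - 1 =
        (μ ^ j - μ ^ i) * ν ^ i - ((μ * ν) ^ i - 1) * (μ ^ (j - i) - 1) := by
      rw [e1, mul_pow]
      ring
    rw [e2]
    exact dvd_sub (d'.mul_right _) (d2.mul_right _)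
  rcases lt_or_gt_of_ne hij with hlt | hlt
  · exact key i j hlt h
  · exact key j i hlt h.symm

private theorem RoH_g15 [SqN n t] {a b : Ideal (OO n t)} (ha : G15 a) (hb : G15 b) (i : ℕ) :
    G15 (a ^ i * b) := by
  induction i with
  | zero => rwa [pow_zero, one_mul]
  | succ i ih =>
    rw [pow_succ', mul_assoc]
    exact Eb.g15_mul ha ih

/-- **The telescoping product.** -/
theorem sRoH (hR1 : S_R1) : S_RoH := by
  intro n t _ a ha ha15
  obtain ⟨h₀, μ, hh₀, hμ, hah⟩ := aO5 n t a ha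
  have ga : G15 a := ⟨ha, ha15⟩
  have g1 : G15 (sp μ) := by
    have := RoH_g15 ga Eb.g15_top h₀
    rwa [hah, Ideal.mul_top] at this
  have hc : Cop μ 15 := ((aO6 n t).2.2.2.1 15 μ (by norm_num)).1 g1.cop
  obtain ⟨e, he, hd⟩ := RoH_pow hc
  have hla : μ ^ e ≠ 0 := by
    intro h0
    have h1 := toC_pow μ e
    rw [h0] at h1
    have h2 : toC μ ^ e ≠ 0 := pow_ne_zero e (toC_ne hμ)
    apply h2
    rw [← h1, toC_zero]
  have hsp : a ^ (h₀ * e) = sp (μ ^ e) := by
    rw [pow_mul, hah]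
    exact Ideal.span_singleton_pow μ e
  refine ⟨h₀ * e, μ ^ e, Nat.mul_pos hh₀ he, hsp, hla, hd, fun b hb => ?_⟩
  have d3 : (3 : OO n t) ∣ μ ^ e - 1 := by
    refine dvd_trans ?_ hd
    exact ⟨5, by norm_num⟩
  have d5 : (5 : OO n t) ∣ μ ^ e - 1 := by
    refine dvd_trans ?_ hd
    exact ⟨3, by norm_num⟩
  have hne : ∀ i : ℕ, fr (a ^ i * b) ≠ 0 := by
    intro i h0
    have g := RoH_g15 ga hb i
    have h1 := ((hR1.1 n t).1 b hb).2.2.2 _ g
    apply h1.2
    apply io_inj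
    rw [h1.1, h0, zero_div, map_zero]
  have tel : ∀ j : ℕ, io (∏ i ∈ Finset.range j, rO (a ^ i * b) (a * (a ^ i * b))) =
      fr (a ^ j * b) / fr b := by
    intro j
    induction j with
    | zero =>
      have := hne 0
      rw [pow_zero, one_mul] at this
      rw [Finset.prod_range_zero, map_one, pow_zero, one_mul, div_self this]
    | succ j ih =>
      have g := RoH_g15 ga hb j
      have g' : G15 (a * (a ^ j * b)) := Eb.g15_mul ga g
      have h1 := ((hR1.1 n t).1 _ g).2.2.2 _ g'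
      rw [Finset.prod_range_succ, map_mul, ih, h1.1, pow_succ', mul_assoc]
      have n1 := hne j
      have n2 := hne 0
      rw [pow_zero, one_mul] at n2
      field_simp
  apply io_inj
  rw [tel, io_toO, hsp]
  obtain ⟨f1, -⟩ := ((aB7 n t b hb.ne).2.2 hb.cop).1 (μ ^ e) hla d3 (Or.inl d5)
  have n2 := hne 0
  rw [pow_zero, one_mul] at n2
  rw [f1]
  field_simp

end Pool.Agent.DN
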