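import Pool.Agent.Lib.DN.D.SpecK

/-!
# Theorem DN, part D: good primes, the differences are units (module `ThU`; author helper9)
-/

set_option autoImplicit false

open scoped Pointwise nonZeroDivisors

noncomputable section

namespace Pool.Agent.DN

open Pool.Agent.MuZ Pool.Agent.FW NumberField IsDedekindDomain
open Pool.Agent.DI (io ofC io_inj exists_io io_ofC ofC_io VP MP UP TP ex)

variable {n t : ℕ}

/-- `0` is `Q`-primary. -/
theorem ThU_zero (Q : Ideal ZZ) (b : Ideal (OO n t)) : Qp Q b 0 := by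
  intro α β _ _
  rw [mul_zero]
  exact lam_zero b

/-- An ideal prime to `2` is not below a prime above `2`. -/
theorem ThU_two [SqN n t] {m : Ideal (OO n t)} (hm : PrI m 2) {Q : Ideal ZZ} [hP : Q.IsPrime] (h2 : MP Q 2) :
    ¬ Abv Q m := by
  intro h
  obtain ⟨v, hv, w, e⟩ := pri_split hm
  have h1 := congrArg toO e
  rw [toO_add, toO_mul, toO_nat, toO_one] at h1
  push_cast at h1
  refine DI.MP.one_not (P := Q) ?_
  rw [← h1]
  exact (h v hv).add (h2.mul_right (toO_VP w))

/-- **The differences are units.** -/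
theorem sThU (_hX : S_XOm) (hD1 : S_D1) : S_ThU := by
  intro n t _ m b hm hb hm2 Q hQ
  have hP : Q.IsPrime := hQ.1.1
  refine ⟨fun ha u hu hu' => IK.not_of_abv hD1 hQ hb ha hu hu', fun h2 => ThU_two hm2 h2,
    fun z hz hzu => ?_⟩
  have hI : ∀ u ∈ Lam (m * b), ¬ IK Q b (z + u) := fun u hu h => hzu u hu (IK.qp hD1 hQ hb h)
  have hI0 : ¬ IK Q b z := by
    have h := hI 0 (lam_zero _)
    rwa [add_zero] at h
  refine ⟨hI0, IK.vp hz hI0, fun h => ?_, fun u hu => ⟨hI u hu, fun _ hIu => ?_⟩⟩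
  · have h1 := hzu (-z) (lam_neg h)
    rw [add_neg_cancel] at h1
    exact h1 (ThU_zero Q b)
  · have hTu : Tor n t u := tor_lam (Eb.ne_mul hm hb.ne) hu
    refine IK.sep hD1 hQ hb hz hTu hI0 hIu (hI u hu) ?_
    rw [sub_eq_add_neg]
    exact hI (-u) (lam_neg hu)

end Pool.Agent.DN
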