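import Pool.Agent.Lib.DN.D.SpecK
import Pool.Agent.Lib.DN.B.All

/-!
# Theorem DN, part D, module Tw: the points of order two in `Om`
-/

set_option autoImplicit false

open scoped Pointwise nonZeroDivisors

noncomputable section

namespace Pool.Agent.DN

open Pool.Agent.MuZ Pool.Agent.FW NumberField IsDedekindDomain
open Pool.Agent.DI (io ofC io_inj exists_io io_ofC ofC_io VP MP UP TP ex)

variable {n t : ℕ}

private theorem Tw_cub (hX : S_XOm) [Ine n t] {b : Ideal (OO n t)} (hb : G15 b) {T T' : ℂ}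
    (h : Ord2 b T T') : vO b T = 0 ∧ 4 * xO b T ^ 3 + (a1O b * xO b T + a3O b) ^ 2 = 0 := by
  have X := hX n t b hb
  have ht := (h.tor hb.ne).1
  have h0 : vO b T = 0 := (X.two T ht h.t2).2 h.t1
  refine ⟨h0, ?_⟩
  rw [← X.crv T ht h.t2, h0]
  ring

private theorem Tw_ne (hX : S_XOm) [Ine n t] {b : Ideal (OO n t)} (hb : G15 b) {T T' : ℂ}
    (h : Ord2 b T T') : xO b T ≠ xO b T' := by
  intro he
  obtain ⟨h1, h2, -⟩ := h.tor hb.ne
  rcases (hX n t b hb).inj T T' h1 h2 h.t2 h.t4 he with h3 | h3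
  · exact h.t5 h3
  · exact h.s2 h3

theorem sTw (hX : S_XOm) (hR1 : S_R1) : S_Tw := by
  intro n t _ b hb T T' h
  have hr := h.right
  have hsr : Ord2 b T' (T + T') := by
    have := h.symm.right
    rwa [add_comm T' T] at this
  obtain ⟨v0, fx⟩ := Tw_cub hX hb h
  obtain ⟨-, fy⟩ := Tw_cub hX hb h.symm
  obtain ⟨-, fw⟩ := Tw_cub hX hb hr.symm
  have n1 := Tw_ne hX hb h
  have n2 := Tw_ne hX hb hr
  have n3 := Tw_ne hX hb hsr
  obtain ⟨t1, t2, t3⟩ := h.tor hb.ne
  have E1 : 4 * (xO b T ^ 2 + xO b T * xO b T' + xO b T' ^ 2) + a1O b ^ 2 * (xO b T + xO b T') +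
      2 * (a1O b * a3O b) = 0 := by
    have : (xO b T - xO b T') * (4 * (xO b T ^ 2 + xO b T * xO b T' + xO b T' ^ 2) +
        a1O b ^ 2 * (xO b T + xO b T') + 2 * (a1O b * a3O b)) = 0 := by
      linear_combination fx - fy
    exact (mul_eq_zero.1 this).resolve_left (sub_ne_zero.2 n1)
  have E2 : 4 * (xO b T ^ 2 + xO b T * xO b (T + T') + xO b (T + T') ^ 2) +
      a1O b ^ 2 * (xO b T + xO b (T + T')) + 2 * (a1O b * a3O b) = 0 := by
    have : (xO b T - xO b (T + T')) * (4 * (xO b T ^ 2 + xO b T * xO b (T + T') + xO b (T + T') ^ 2) +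
        a1O b ^ 2 * (xO b T + xO b (T + T')) + 2 * (a1O b * a3O b)) = 0 := by
      linear_combination fx - fw
    exact (mul_eq_zero.1 this).resolve_left (sub_ne_zero.2 n2)
  have R1 : 4 * (xO b T + xO b T' + xO b (T + T')) = -(a1O b) ^ 2 := by
    have : (xO b T' - xO b (T + T')) * (4 * (xO b T + xO b T' + xO b (T + T')) + a1O b ^ 2) = 0 := by
      linear_combination E1 - E2
    have h1 := (mul_eq_zero.1 this).resolve_left (sub_ne_zero.2 n3)
    linear_combination h1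
  have R2 : 2 * (xO b T * xO b T' + xO b T * xO b (T + T') + xO b T' * xO b (T + T')) =
      a1O b * a3O b := by
    linear_combination (-(1 / 2 : Om)) * E1 + (1 / 2 : Om) * (xO b T + xO b T') * R1
  have R3 : 4 * (xO b T * xO b T' * xO b (T + T')) = -(a3O b) ^ 2 := by
    linear_combination fx - xO b T ^ 2 * R1 + 2 * xO b T * R2
  refine ⟨⟨v0, fx⟩, R1, R2, R3, ⟨n1, n2, n3⟩, ?_, ?_⟩
  · intro z hz hzL hzT
    obtain ⟨f0, -⟩ := (aB1 n t b hb.ne).2.2.2.2.2 hb.cop
    have hB := (aB4 n t b hb.ne T T' h.t1 h.t2 h.t3 h.t4 h.t5).2.2.2 z hzL hzT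
    obtain ⟨-, -, hr1, -⟩ := hR1.1 n t |>.1 b hb
    apply io_inj
    have e1 := (hr1 (z + T) (tor_add hz t1)).1
    have e2 := (hr1 T t1).1
    have e3 := (hr1 z hz).1
    have e4 := (hr1 T' t2).1
    have e5 := (hr1 (T + T') t3).1
    simp only [map_mul, map_sub, e1, e2, e3, e4, e5]
    unfold XC
    field_simp
    linear_combination hB
  · intro u
    unfold W2
    linear_combination xO b u ^ 2 * R1 - 2 * xO b u * R2 + R3

end Pool.Agent.DN
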