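import Pool.Agent.Lib.DN.D.Fer
import Pool.Agent.Lib.DN.D.Tw
import Pool.Agent.Lib.DN.D.RoH
import Pool.Agent.Lib.DN.D.D3a
import Pool.Agent.Lib.DN.D.D3b
import Pool.Agent.Lib.DN.D.D3
import Pool.Agent.Lib.DN.D.Ref
import Pool.Agent.Lib.DN.D.RoL
import Pool.Agent.Lib.DN.D.D4
import Pool.Agent.Lib.DN.D.HsP
import Pool.Agent.Lib.DN.D.Qt
import Pool.Agent.Lib.DN.D.D8a
import Pool.Agent.Lib.DN.D.ThU
import Pool.Agent.Lib.DN.D.ThL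
import Pool.Agent.Lib.DN.D.D5
import Pool.Agent.Lib.DN.D.D6
import Pool.Agent.Lib.DN.D.Dis
import Pool.Agent.Lib.DN.D.Dis2
import Pool.Agent.Lib.DN.D.D7
import Pool.Agent.Lib.DN.D.D9
import Pool.Agent.Lib.DN.D.D10a
import Pool.Agent.Lib.DN.D.D10

/-!
# Theorem DN, part D, second half: assembly

`S_D3` - `S_D10` from `S_XOm`, `S_R1`, `S_R2a`, `S_R2`, `S_D1`, `S_D2`, `S_PrC`, `S_LaU`, `S_LgK`, `S_LgT`.
-/

set_option autoImplicit false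

noncomputable section

namespace Pool.Agent.DN

theorem allK (hX : S_XOm) (hR1 : S_R1) (hR2a : S_R2a) (hR2 : S_R2) (hD1 : S_D1) (hD2 : S_D2)
    (hPrC : S_PrC) (hLaU : S_LaU) (hLgK : S_LgK) (hLgT : S_LgT) :
    S_D3 ∧ S_D4 ∧ S_D5 ∧ S_D6 ∧ S_D7 ∧ S_D8 ∧ S_D9 ∧ S_D10 := by
  have hTw := sTw hX hR1
  have hD3a := sD3a hX hD1 sFer hPrC hLaU (sRoH hR1)
  have hD3 := sD3 sFer hLaU hTw hD3a (sD3b hX hD1 sFer hPrC hLaU hD3a)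
  have hD4 := sD4 hX hD1 sFer hPrC hLaU hD3a (sRef hX) (sRoL hX hD1)
  have hQt := sQt hX hR1
  have hD8a := sD8a hX sHsP hQt
  have hD8 := sD8 hD8a
  have hThU := sThU hX hD1
  have hD5 := sD5 hX hR2a hD1 hD2 hThU (sThL hLgK hLgT)
  have hD6 := sD6 sFer hD1 hD3 sHsP hD8 hThU
  have hD7 := sD7 hD8a (sDis hQt hD8a) (sDis2 sHsP hQt hD8a)
  have hD9 := sD9 hR1 hR2a hD2 hThU
  have hD10 := sD10 hX hR2 hD1 hD2 (sD10a hX hR2 hD1 hD2 hTw)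
  exact ⟨hD3, hD4, hD5, hD6, hD7, hD8, hD9, hD10⟩

end Pool.Agent.DN
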