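import Pool.Agent.Lib.DN.D.D1

/-!
# Theorem DN, part D: `S_D2` (helper46)
-/

set_option autoImplicit false

open scoped Pointwise nonZeroDivisors

noncomputable section

namespace Pool.Agent.DN

open Pool.Agent.MuZ Pool.Agent.FW NumberField IsDedekindDomain
open Pool.Agent.DI (io ofC io_inj exists_io io_ofC ofC_io VP MP UP TP ex)

section

variable {n t : ℕ} {Γ : Type} [LinearOrderedCommGroupWithZero Γ] {v : Valuation ℂ Γ}

/-- The sum formula for a general ideal. -/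
theorem sum_gen [SqN n t] {a b : Ideal (OO n t)} (ha : a ≠ ⊥) (hb : b ≠ ⊥) {e s e' s' : ℂ}
    (hi : ICd v b e s) (hs' : s' ≠ 0) {z z' : ℂ} (hz : z ∉ Lam (a * b)) (hz' : z' ∉ Lam (a * b))
    (h1 : ∀ u ∈ Lam (a * b), u ∉ Lam b → ¬ Kr v (Lam b) (xx b e s) (z + u))
    (h2 : ∀ u ∈ Lam (a * b), u ∉ Lam b → ¬ Kr v (Lam b) (xx b e s) (z' + u)) :
    v (s' / s * (xx (a * b) e' s' z - xx (a * b) e' s' z') - (xx b e s z - xx b e s z')) ≤ 1 := by
  classical
  have hs := hi.ne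
  obtain ⟨-, -, R, hR, -⟩ := aL3 n t a b ha hb
  have h9 := (aB9 n t a b ha hb R hR).1 z z' hz hz'
  obtain ⟨u₀, hu₀, h0⟩ := hR.ex 0 (lam_zero _)
  have hu₀' : u₀ ∈ Lam b := by
    have := lam_neg h0
    simpa using this
  have e1 : s' / s * (xx (a * b) e' s' z - xx (a * b) e' s' z') =
      ∑ u ∈ R, (xx b e s (z + u) - xx b e s (z' + u)) := by
    have : ∑ u ∈ R, (xx b e s (z + u) - xx b e s (z' + u)) =
        (∑ u ∈ R, (wpC b (z + u) - wpC b (z' + u))) / s := by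
      rw [Finset.sum_div]
      refine Finset.sum_congr rfl fun u _ => ?_
      unfold xx
      ring
    rw [this, ← h9]
    unfold xx
    field_simp
    ring
  rw [e1, ← Finset.add_sum_erase R _ hu₀]
  have e2 : ∀ y : ℂ, xx b e s (y + u₀) = xx b e s y := by
    intro y
    unfold xx
    rw [wpC_add hb y hu₀']
  rw [e2, e2]
  have e3 : xx b e s z - xx b e s z' + ∑ u ∈ R.erase u₀, (xx b e s (z + u) - xx b e s (z' + u)) -
      (xx b e s z - xx b e s z') = ∑ u ∈ R.erase u₀, (xx b e s (z + u) - xx b e s (z' + u)) := by ring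
  rw [e3]
  refine vsum _ _ fun u hu => ?_
  obtain ⟨hne, hu'⟩ := Finset.mem_erase.1 hu
  have hub : u ∉ Lam b := fun h => hne (hR.uni u hu' u₀ hu₀ (lam_sub h hu₀'))
  have hum := hR.mem u hu'
  refine vsub (not_lt.1 fun h => h1 u hum hub (Or.inr h)) (not_lt.1 fun h => h2 u hum hub (Or.inr h))

/-- The valuation of `X` at the points of order two, above two. -/
theorem two_rho [Ine n t] (hv : v 2 < 1) {b : Ideal (OO n t)} (hG : G15 b) {T : ℂ} (h1 : 2 * T ∈ Lam b)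
    (h2 : T ∉ Lam b) : 1 < v (XC b T) ∧ v 4 * v (XC b T) ^ 3 = 1 := by
  obtain ⟨h3, h1', -, hg⟩ := two_good hv hG
  obtain ⟨e2, e4, e6, e8, es, -⟩ := XC_c hG
  have hK := sVCrd n t Γ v b _ _ hG.ne hg.toICd
  have hk : 1 < v (XC b T) := by
    have h4 := kr_half hv hG (z := T) (Or.inl (by rwa [← two_mul]))
    exact h4.resolve_left h2
  refine ⟨hk, ?_⟩
  -- a second point
  have hpr : PrI (sp (wI n t)) 2 := ((aO6 n t).2.2.2.1 2 (wI n t) two_pos).2 wI_odd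
  have hw1 : 2 * (toC (wI n t) * T) ∈ Lam b := by
    have : 2 * (toC (wI n t) * T) = toC (wI n t) * (2 * T) := by ring
    rw [this]
    exact lam_mul _ h1
  have hw2 : toC (wI n t) * T ∉ Lam b := fun h => two_not (sp_ne wI_ne) hG.ne hpr h1 h2 (lam_sp.2 h)
  have hT : Ord2 b T (toC (wI n t) * T) := by
    refine ⟨h1, h2, hw1, hw2, fun h => ?_⟩
    -- `(w - 1)` is odd
    have hc : Cop (wI n t - 1) 2 := by
      by_contra hc
      have hd : (2 : OO n t) ∣ wI n t - 1 := by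
        by_contra hd
        exact hc (((aO4 n t).2.2.1 _).2 hd)
      have h7 := ((nat_dvd_iff 2 (wI n t - 1)).1 (by exact_mod_cast hd)).2
      rw [QuadraticAlgebra.im_sub, im_one] at h7
      simp only [wI] at h7
      norm_num at h7
    have hw10 : wI n t - 1 ≠ 0 := by
      intro h0
      rw [h0] at hc
      have := ((aO4 n t).2.2.1 (0 : OO n t)).1 hc
      exact this (dvd_zero _)
    have hpr1 : PrI (sp (wI n t - 1)) 2 := ((aO6 n t).2.2.2.1 2 (wI n t - 1) two_pos).2 hc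
    refine two_not (sp_ne hw10) hG.ne hpr1 h1 h2 (lam_sp.2 ?_)
    have : toC (wI n t - 1) * T = -(T - toC (wI n t) * T) := by
      rw [toC_sub, toC_one]
      ring
    rw [this]
    exact lam_neg h
  obtain ⟨a1, a2⟩ := two_all hv hG hg.toICd hT hk
  have k2 := (hT.sp3 (e := wpC b (1 / 3)) hG.ne es).2
  rw [e6] at k2
  have := congrArg v k2
  rw [v.map_pow, h3, one_pow, v.map_mul, v.map_neg, v.map_mul, v.map_mul, a1, a2, xx_XC] at this
  rw [pow_succ, sq]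
  exact this.symm

/-- The framings, above two. -/
theorem two_fr [Ine n t] (hv : v 2 < 1) {a b : Ideal (OO n t)} (ha : a ≠ ⊥) (ha2 : PrI a 2) (ha15 : PrI a 15)
    (hG : G15 b) : v (fr (a * b) / fr b) = 1 := by
  have hG2 := hG.mul ha ha15
  obtain ⟨h3, h1', -, hg⟩ := two_good hv hG
  obtain ⟨-, -, -, hg2⟩ := two_good hv hG2
  obtain ⟨T, T', hT⟩ := ex_ord2 hG.ne
  have hT2 := hT.up ha hG.ne ha2
  obtain ⟨k1, k2⟩ := two_rho hv hG hT.t1 hT.t2
  obtain ⟨k1', k2'⟩ := two_rho hv hG2 hT2.t1 hT2.t2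
  have hK := sVCrd n t Γ v b _ _ hG.ne hg.toICd
  have hx3 : XC b (1 / 3) = 0 := ((aB1 n t b hG.ne).2.2.2.2.2 hG.cop).2.2.2.2.1
  have hx3' : XC (a * b) (1 / 3) = 0 := ((aB1 n t _ hG2.ne).2.2.2.2.2 hG2.cop).2.2.2.2.1
  have hρ3 : (1 / 3 : ℂ) ∉ Lam (a * b) := by
    have hb3 : PrI (a * b) 3 := ((aO6 n t).2.1 3 5 (a * b)).1 hG2.cop |>.1
    intro h
    have := (aL6.1 n t (a * b) 3 hG2.ne (by norm_num) hb3 1).1 (by
      rw [toC_one]
      exact_mod_cast h)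
    have h7 := ((nat_dvd_iff 3 (1 : OO n t)).1 (by exact_mod_cast this)).1
    rw [re_one] at h7
    norm_num at h7
  have hNo := NI_odd ha2
  have one_mem : (1 : ℂ) ∈ Lam b := fun u _ => ⟨u, by rw [mul_one]⟩
  have hA : ∀ u ∈ Lam (a * b), u ∉ Lam b →
      ¬ Kr v (Lam b) (xx b (wpC b (1 / 3)) (fr b ^ 2)) (T + u) := by
    intro u hu hub hk
    refine odd_not hv hK hub hNo (NI_lam hu) ?_
    have := hK.kr_sub hk (Or.inr k1 : Kr v (Lam b) (xx b (wpC b (1 / 3)) (fr b ^ 2)) T)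
    rwa [add_sub_cancel_left] at this
  have hB : ∀ u ∈ Lam (a * b), u ∉ Lam b →
      ¬ Kr v (Lam b) (xx b (wpC b (1 / 3)) (fr b ^ 2)) (1 / 3 + u) := by
    intro u hu hub
    refine odd_not hv hK ?_ (N := 3 * NI a) ((by decide : Odd 3).mul hNo) ?_
    · intro h'
      apply hρ3
      have : (1 / 3 : ℂ) = (1 / 3 + u) - u := by ring
      rw [this]
      exact lam_sub (lam_mono h') hu
    · have e1 : ((3 * NI a : ℕ) : ℂ) * (1 / 3 + u) = (NI a : ℂ) * 1 + ((3 : ℕ) : ℂ) * ((NI a : ℂ) * u) := by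
        push_cast
        ring
      rw [e1]
      exact lam_add (lam_nat _ one_mem) (lam_nat 3 (NI_lam hu))
  have hs := sum_gen ha hG.ne (e' := wpC (a * b) (1 / 3)) (s' := fr (a * b) ^ 2) hg.toICd hg2.ne
    hT2.t2 hρ3 hA hB
  rw [xx_XC, xx_XC, xx_XC, xx_XC, hx3, hx3', sub_zero, sub_zero] at hs
  have h4 : v (fr (a * b) ^ 2 / fr b ^ 2 * XC (a * b) T) = v (XC b T) := by
    have e1 : fr (a * b) ^ 2 / fr b ^ 2 * XC (a * b) T =
        (fr (a * b) ^ 2 / fr b ^ 2 * XC (a * b) T - XC b T) + XC b T := by ring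
    rw [e1]
    exact v.map_add_eq_of_lt_right (lt_of_le_of_lt hs k1)
  have h40 : v (4 : ℂ) ≠ 0 := by
    intro h
    rw [h, zero_mul] at k2
    exact zero_ne_one k2
  have h5 : v (XC b T) ^ 3 = v (XC (a * b) T) ^ 3 := by
    apply mul_left_cancel₀ h40
    rw [k2, k2']
  have h6 : v (XC b T) = v (XC (a * b) T) := pow_left_injective three_ne_zero h5
  have h7 : v (XC (a * b) T) ≠ 0 := (lt_trans zero_lt_one k1').ne'
  refine uof_pow two_ne_zero ?_
  rw [div_pow]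
  rw [v.map_mul, h6] at h4
  exact mul_right_cancel₀ h7 (by rw [h4, one_mul])

end

theorem sD2 (R1 : S_R1) : S_D2 := by
  intro n t _ P hP b hG
  obtain ⟨V, hV⟩ := exists_VQ hP.1
  have hv := hV.two_lt hP.2
  have hb := hG.ne
  haveI := hP.1.1
  have hG2 : G15 (sp 2 * b) := hG.mul (sp_ne two_ne) pr_sp2_15
  obtain ⟨h3, h1, hd, hg⟩ := two_good hv hG
  obtain ⟨h3', h1', -, -⟩ := two_good hv hG2
  have hGQ := (two_GQ (n := n) (t := t) R1 hP).1
  have D1 := sD1 R1 n t P hGQ b hG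
  have hK := sVCrd n t _ V.valuation b _ _ hb hg.toICd
  obtain ⟨e2, e4, e6, e8, es, -⟩ := XC_c hG
  obtain ⟨r1, r3, rx, rr⟩ := (R1.1 n t).1 b hG
  obtain ⟨r1', r3', rx', -⟩ := (R1.1 n t).1 _ hG2
  obtain ⟨B1a, B1b, B1c, B1d, hx3, hx5, hv3, -, -⟩ := (aB1 n t b hb).2.2.2.2.2 hG.cop
  have hGood : ∀ z : ℂ, Tor n t z → ¬ IK P b z →
      z ∉ Lam b ∧ V.valuation (XC b z) ≤ 1 ∧
        ¬ Kr V.valuation (Lam b) (xx b (wpC b (1 / 3)) (fr b ^ 2)) z := by
    intro z hz hzn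
    have : ¬ Kr V.valuation (Lam b) (xx b (wpC b (1 / 3)) (fr b ^ 2)) z := fun h => hzn (by
      rw [hV.ik R1 hG]; exact ⟨hz, h⟩)
    exact ⟨fun h => this (Or.inl h), not_lt.1 fun h => this (Or.inr h), this⟩
  have one_mem : (1 : ℂ) ∈ Lam b := fun u _ => ⟨u, by rw [mul_one]⟩
  -- duplication modulo the maximal ideal
  have hdup : ∀ z : ℂ, z + z ∉ Lam b → V.valuation (XC b z) ≤ 1 →
      V.valuation (XC b (2 * z) * A3 b ^ 2 - XC b z ^ 4) < 1 ∧ V.valuation (XC b (2 * z)) ≤ 1 := by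
    intro z h2 hz
    have h4 := (hK.dup z h2).2
    rw [e2, e4, e6, e8, ← two_mul, xx_XC, xx_XC] at h4
    obtain ⟨w1, w2⟩ := w2_congr hv hG hz
    set W := 4 * XC b z ^ 3 + A1 b ^ 2 * XC b z ^ 2 + 2 * (A1 b * A3 b) * XC b z + A3 b ^ 2 with hW
    have h4' : XC b (2 * z) * W = XC b z ^ 4 - A1 b * A3 b * XC b z ^ 2 - 2 * A3 b ^ 2 * XC b z - 0 := h4
    have h5 : V.valuation (XC b (2 * z) * W - XC b z ^ 4) < 1 := by
      rw [h4']
      have : XC b z ^ 4 - A1 b * A3 b * XC b z ^ 2 - 2 * A3 b ^ 2 * XC b z - 0 - XC b z ^ 4 =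
          -(A1 b * (A3 b * XC b z ^ 2) + 2 * (A3 b ^ 2 * XC b z)) := by ring
      rw [this]
      exact mneg (madd (mmulr h1 (vmul h3.le (vpow hz 2))) (mmulr hv (vmul (vpow h3.le 2) hz)))
    have h6 : V.valuation (XC b (2 * z)) ≤ 1 := by
      have h7 : V.valuation (XC b (2 * z) * W) ≤ 1 := by
        have e1 : XC b (2 * z) * W = (XC b (2 * z) * W - XC b z ^ 4) + XC b z ^ 4 := by ring
        rw [e1]
        exact vadd h5.le (vpow hz 4)
      rwa [map_mul, w2, mul_one] at h7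
    refine ⟨?_, h6⟩
    have e1 : XC b (2 * z) * A3 b ^ 2 - XC b z ^ 4 =
        (XC b (2 * z) * W - XC b z ^ 4) - XC b (2 * z) * (W - A3 b ^ 2) := by ring
    rw [e1]
    exact msub h5 (mmul h6 w1)
  obtain ⟨b1, -, b2, -, b4, b5⟩ := aB5 n t b hG
  -- `X(2/5)` is congruent to `A3²`
  have hpt := aPt n t b hb hG.cop
  have h5n : (1 / 5 : ℂ) + 1 / 5 ∉ Lam b := by
    have : (1 / 5 : ℂ) + 1 / 5 = ((6 : ℤ) : ℂ) / 15 := by push_cast; ring
    rw [this, hpt]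
    decide
  have x25 : V.valuation (XC b (2 / 5) - A3 b ^ 2) < 1 := by
    have h6 := (hdup (1 / 5) h5n (by rw [hx5]; exact h3.le)).1
    have e1 : (2 : ℂ) * (1 / 5) = 2 / 5 := by ring
    rw [e1, hx5] at h6
    have e3 : XC b (2 / 5) * A3 b ^ 2 - A3 b ^ 4 = (XC b (2 / 5) - A3 b ^ 2) * A3 b ^ 2 := by ring
    rw [e3, map_mul, map_pow, h3, one_pow, mul_one] at h6
    exact h6
  have x25u : V.valuation (XC b (2 / 5)) = 1 := vcongr x25 (by rw [map_pow, h3, one_pow])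
  refine ⟨fun z j hj => (ik_two R1 hP hG).2 ⟨j, hj⟩, ?_, ?_, ?_, ?_, ?_, ?_⟩
  · -- Kronecker
    intro z hz hzn
    have hk2 : ¬ IK P (sp 2 * b) z := by
      rw [ik_two R1 hP hG2]
      rintro ⟨j, hj⟩
      apply hzn
      rw [ik_two R1 hP hG]
      refine ⟨j + 1, ?_⟩
      rw [lam_sp, toC_two] at hj
      have : (2 : ℂ) ^ (j + 1) * z = 2 * (2 ^ j * z) := by ring
      rw [this]
      exact hj
    refine ⟨hk2, ?_⟩
    obtain ⟨z1, z2, z3⟩ := hGood z hz hzn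
    have hzz : z + z ∉ Lam b := by
      intro h
      apply hk2
      rw [ik_two R1 hP hG2]
      refine ⟨0, ?_⟩
      rw [pow_zero, one_mul, lam_sp, toC_two, two_mul]
      exact h
    obtain ⟨d1, d2⟩ := hdup z hzz z2
    rw [← hV.lt, map_sub, map_pow, (rx' z hz).1, (rx z hz).1]
    have h6 := b2 z
    -- `X'(z) A3² = X(2/5)² X(2 z)`
    have h7 : V.valuation ((XC (sp 2 * b) z - XC b z ^ 4) * A3 b ^ 4) < 1 := by
      have e1 : (XC (sp 2 * b) z - XC b z ^ 4) * A3 b ^ 4 =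
          (XC b (2 / 5) - A3 b ^ 2) * ((XC b (2 / 5) + A3 b ^ 2) * (XC b (2 * z) * A3 b ^ 2)) +
            A3 b ^ 4 * (XC b (2 * z) * A3 b ^ 2 - XC b z ^ 4) := by
        linear_combination A3 b ^ 2 * h6
      rw [e1]
      refine madd (mmulr x25 ?_) (mmul (vpow h3.le 4) d1)
      exact vmul (vadd x25u.le (vpow h3.le 2)) (vmul d2 (vpow h3.le 2))
    rw [map_mul, map_pow, h3, one_pow, mul_one] at h7
    exact h7
  · rw [← hV.lt, map_sub, map_pow, r3', r3]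
    have h7 : V.valuation ((A3 (sp 2 * b) - A3 b ^ 4) * A3 b ^ 2) < 1 := by
      have e1 : (A3 (sp 2 * b) - A3 b ^ 4) * A3 b ^ 2 =
          (XC b (2 / 5) - A3 b ^ 2) * (XC b (2 / 5) ^ 2 + XC b (2 / 5) * A3 b ^ 2 + A3 b ^ 2 * A3 b ^ 2) := by
        linear_combination b4
      rw [e1]
      refine mmulr x25 (vadd (vadd (vpow x25u.le 2) (vmul x25u.le (vpow h3.le 2))) ?_)
      exact vmul (vpow h3.le 2) (vpow h3.le 2)
    rw [map_mul, map_pow, h3, one_pow, mul_one] at h7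
    exact h7
  · -- `W`
    intro z hz hzn
    obtain ⟨z1, z2, z3⟩ := hGood z hz hzn
    have hcrv := ((aB2 n t b hb z z1).2 hG.cop).1
    obtain ⟨w1, w2⟩ := w2_congr hv hG z2
    have e1 : 4 * XC b z ^ 3 + A1 b ^ 2 * XC b z ^ 2 + 2 * (A1 b * A3 b) * XC b z + A3 b ^ 2 =
        WC b z ^ 2 := by
      rw [hcrv]
      ring
    rw [e1] at w1 w2
    have w3 : V.valuation (WC b z) = 1 := uof_pow two_ne_zero (by rw [w2])
    have w4 : V.valuation (WC b z - A3 b) < 1 := by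
      have e3 : WC b z ^ 2 - A3 b ^ 2 = (WC b z - A3 b) * (WC b z + A3 b) := by ring
      rw [e3] at w1
      rcases mcases w1 with h | h
      · exact h
      · have e4 : WC b z - A3 b = (WC b z + A3 b) - 2 * A3 b := by ring
        rw [e4]
        exact msub h (mmulr hv h3.le)
    refine ⟨(hV.le _).1 (by rw [(rx z hz).1]; exact z2), (hV.eq _).1 (by rw [(rx z hz).2]; exact w3), ?_⟩
    rw [← hV.lt, map_sub, (rx z hz).2, r3]
    exact w4
  · intro z _ hq hk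
    exact hq (D1.2.2.2.2.1 z hk)
  · intro z z' hz hz' hzn hzn' hq hq'
    obtain ⟨z1, z2, z3⟩ := hGood z hz hzn
    obtain ⟨z1', z2', z3'⟩ := hGood z' hz' hzn'
    have hx : VP P (xO b z) := (hV.le _).1 (by rw [(rx z hz).1]; exact z2)
    have hx' : VP P (xO b z') := (hV.le _).1 (by rw [(rx z' hz').1]; exact z2')
    refine ⟨hx.sub hx', fun hm => ?_⟩
    rcases D1.2.2.2.2.2.2 z z' hz hz' hzn hzn' hm with h | h
    · exact hq (D1.2.2.2.2.1 _ h)
    · exact hq' (D1.2.2.2.2.1 _ h)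
  · intro a ha ha2 ha15
    rw [← hV.eq, (rr _ (hG.mul ha ha15)).1]
    exact two_fr hv ha ha2 ha15 hG

end Pool.Agent.DN
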