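import Pool.Agent.Lib.DN.R.R1
import Pool.Agent.Lib.DN.R.R2c
import Pool.Agent.Lib.DN.R.R3
import Pool.Agent.Lib.DN.D.D2
import Pool.Agent.Lib.DN.D.PrC
import Pool.Agent.Lib.DN.D.AllK
import Pool.Agent.Lib.DN.E.XOm

/-!
# Theorem DN, parts R and D: assembly (helper46)

No hypotheses, except `S_R2` (from `aR2a` and `S_R2b`: `TP P 2 (a1O b)`, part E) for `S_D10`.
-/

set_option autoImplicit false

noncomputable section

namespace Pool.Agent.DN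

theorem aRL : S_RL := sRL
theorem aR1 : S_R1 := sR1 aRL
theorem aR2c : S_R2c := sR2c aR1
theorem aR2a : S_R2a := sR2a aR1 aR2c
theorem aR3 : S_R3 := sR3
theorem aXOm : S_XOm := sXOm aB1 aB2 aB3 aB5 aB7 aR1
theorem aD1 : S_D1 := sD1 aR1
theorem aD2 : S_D2 := sD2 aR1
theorem aLgK : S_LgK := sLgK
theorem aLgT : S_LgT := sLgT aR1
theorem aLeg : S_Leg := sLeg
theorem aPrC : S_PrC := sPrC aR1
theorem aLaU : S_LaU := sLaU aR1
theorem aTw : S_Tw := sTw aXOm aR1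
theorem aD3a : S_D3a := sD3a aXOm aD1 sFer aPrC aLaU (sRoH aR1)
theorem aD3 : S_D3 := sD3 sFer aLaU aTw aD3a (sD3b aXOm aD1 sFer aPrC aLaU aD3a)
theorem aD4 : S_D4 := sD4 aXOm aD1 sFer aPrC aLaU aD3a (sRef aXOm) (sRoL aXOm aD1)
theorem aQt : S_Qt := sQt aXOm aR1
theorem aD8a : S_D8a := sD8a aXOm sHsP aQt
theorem aD8 : S_D8 := sD8 aD8a
theorem aThU : S_ThU := sThU aXOm aD1
theorem aD5 : S_D5 := sD5 aXOm aR2a aD1 aD2 aThU (sThL aLgK aLgT)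
theorem aD6 : S_D6 := sD6 sFer aD1 aD3 sHsP aD8 aThU
theorem aD7 : S_D7 := sD7 aD8a (sDis aQt aD8a) (sDis2 sHsP aQt aD8a)
theorem aD9 : S_D9 := sD9 aR1 aR2a aD2 aThU
theorem aD10 (R2 : S_R2) : S_D10 := sD10 aXOm R2 aD1 aD2 (sD10a aXOm R2 aD1 aD2 aTw)

end Pool.Agent.DN
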