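import Pool.Agent.Lib.DN.D.Ab2

/-!
# Theorem DN, part D: `S_D1` (helper46)
-/

set_option autoImplicit false

open scoped Pointwise nonZeroDivisors

noncomputable section

namespace Pool.Agent.DN

open Pool.Agent.MuZ Pool.Agent.FW NumberField IsDedekindDomain
open Pool.Agent.DI (io ofC io_inj exists_io io_ofC ofC_io VP MP UP TP ex)

section

variable {n t : ℕ} {Q : Ideal ZZ}

theorem pr_sp2_15 [SqN n t] : PrI (sp (2 : OO n t)) 15 := by
  refine ((aO6 n t).2.2.2.1 15 2 (by norm_num)).2 ?_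
  unfold Cop
  have : Nm (2 : OO n t) = 4 := by
    have := Nm_nat (n := n) (t := t) 2
    exact_mod_cast this
  rw [this]
  exact ⟨4, -1, by norm_num⟩

theorem two_ne [SqN n t] : (2 : OO n t) ≠ 0 := by
  intro h
  have h1 := congrArg (fun u : OO n t => toC u) h
  simp only [toC_two, toC_zero] at h1
  norm_num at h1

theorem G15.mul [SqN n t] {a b : Ideal (OO n t)} (hG : G15 b) (ha : a ≠ ⊥) (ha' : PrI a 15) : G15 (a * b) :=
  ⟨mul_ne_zero ha hG.ne, ((aO6 n t).1 15 a b).2 ⟨ha', hG.cop⟩⟩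

/-- The isogeny `(2)` and the kernel. -/
theorem ik_sp2 [Ine n t] (R1 : S_R1) (hQ : GQ n t Q) {b : Ideal (OO n t)} (hG : G15 b) {z : ℂ}
    (hz : Tor n t z) : IK Q (sp 2 * b) z ↔ IK Q b (2 * z) := by
  obtain ⟨V, hV⟩ := exists_VQ hQ.1
  have hG2 : G15 (sp 2 * b) := hG.mul (sp_ne two_ne) pr_sp2_15
  have hz2 : Tor n t (2 * z) := by
    have := tor_mul (2 : OO n t) hz
    rwa [toC_two] at this
  rw [hV.ik R1 hG2, hV.ik R1 hG]
  obtain ⟨b1, -, b2, -, b4, -⟩ := aB5 n t b hG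
  obtain ⟨r1, r3, -, -⟩ := (R1.1 n t).1 b hG
  obtain ⟨r1', r3', -, -⟩ := (R1.1 n t).1 _ hG2
  have a3 : V.valuation (A3 b) = 1 := by
    rw [← r3]
    exact (hV.eq _).2 (hQ.2 b hG).2.1
  have a3' : V.valuation (A3 (sp 2 * b)) = 1 := by
    rw [← r3']
    exact (hV.eq _).2 (hQ.2 _ hG2).2.1
  have x25 : V.valuation (XC b (2 / 5)) = 1 := by
    refine uof_pow three_ne_zero ?_
    rw [← b4, map_mul, map_pow, a3, a3']
    simp
  have key : V.valuation (XC (sp 2 * b) z) = V.valuation (XC b (2 * z)) := by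
    have := congrArg V.valuation (b2 z)
    rw [map_mul, map_mul, map_pow, map_pow, a3, x25] at this
    simpa using this
  unfold Kr
  rw [xx_XC, xx_XC, key, lam_sp, toC_two]
  exact and_congr_left fun _ => ⟨fun _ => hz2, fun _ => hz⟩

/-- Isogenies of odd degree and the kernel. -/
theorem ik_odd [Ine n t] (R1 : S_R1) (hQ : GQ n t Q) (h2 : ¬ MP Q 2) {a b : Ideal (OO n t)} (ha : a ≠ ⊥)
    (ha15 : PrI a 15) (ha2 : PrI a 2) (hG : G15 b) {z : ℂ} (hz : IK Q b z) : IK Q (a * b) z := by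
  obtain ⟨V, hV⟩ := exists_VQ hQ.1
  have hG2 : G15 (a * b) := hG.mul ha ha15
  rw [hV.ik R1 hG] at hz
  rw [hV.ik R1 hG2]
  have hv := hV.two hQ.1 h2
  obtain ⟨T, T', hT⟩ := ex_ord2 hG.ne
  exact ⟨hz.1, kr_up hv ha hG.ne ha2 (hV.good R1 hQ hG) (hV.good R1 hQ hG2) hT hz.2⟩

theorem ik_all [Ine n t] (R1 : S_R1) (hQ : GQ n t Q) (h2 : ¬ MP Q 2) (m : ℕ) :
    ∀ (a : Ideal (OO n t)), NI a ≤ m → a ≠ ⊥ → PrI a 15 → ∀ {b : Ideal (OO n t)}, G15 b → ∀ {z : ℂ},
      IK Q b z → IK Q (a * b) z := by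
  induction m with
  | zero =>
    intro a h1 ha
    have := ((aO2 n t).2.2.2.2.2.1 a).1 (Nat.le_zero.1 h1)
    exact absurd this ha
  | succ m ih =>
    intro a h1 ha ha15 b hG z hz
    by_cases ha2 : PrI a 2
    · exact ik_odd R1 hQ h2 ha ha15 ha2 hG hz
    · have hle : a ≤ sp (2 : OO n t) := by
        by_contra hc
        exact ha2 (((aO12 n t).2.2.2.2 a).2 hc)
      obtain ⟨a', ha'⟩ := Ideal.dvd_iff_le.2 hle
      subst ha'
      have ha'0 : a' ≠ ⊥ := by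
        rintro rfl
        exact ha (Ideal.mul_bot _)
      have ha'15 : PrI a' 15 := (((aO6 n t).1 15 (sp 2) a').1 ha15).2
      have hN : NI (sp 2 * a') = 4 * NI a' := by
        rw [(aO2 n t).2.2.2.2.1, (aO4 n t).2.1]
      have hpos : 0 < NI a' := Nat.pos_of_ne_zero fun h0 => ha'0 (((aO2 n t).2.2.2.2.2.1 a').1 h0)
      have h3 := ih a' (by omega) ha'0 ha'15 hG hz
      have hG' := hG.mul ha'0 ha'15
      rw [mul_assoc, ik_sp2 R1 hQ hG' hz.1]
      obtain ⟨V, hV⟩ := exists_VQ hQ.1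
      rw [hV.ik R1 hG'] at h3 ⊢
      have hK := sVCrd n t _ V.valuation (a' * b) _ _ hG'.ne (hV.good R1 hQ hG').toICd
      refine ⟨?_, ?_⟩
      · have := tor_mul (2 : OO n t) h3.1
        rwa [toC_two] at this
      · rw [two_mul]
        exact hK.kr_two h3.2

end

theorem sD1 (R1 : S_R1) : S_D1 := by
  intro n t _ Q hQ b hG
  obtain ⟨V, hV⟩ := exists_VQ hQ.1
  have hb := hG.ne
  haveI := hQ.1.1
  have hg := hV.good R1 hQ hG
  have hK := sVCrd n t _ V.valuation b _ _ hb hg.toICd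
  have hmul : ∀ (v : OO n t) (z : ℂ), IK Q b z → IK Q b (toC v * z) := by
    intro v z hz
    by_cases h2 : MP Q 2
    · have hP : Ab2 Q := ⟨hQ.1, h2⟩
      rw [ik_two R1 hP hG] at hz ⊢
      obtain ⟨j, hj⟩ := hz
      refine ⟨j, ?_⟩
      have : (2 : ℂ) ^ j * (toC v * z) = toC v * (2 ^ j * z) := by ring
      rw [this]
      exact lam_mul v hj
    · rw [hV.ik R1 hG] at hz ⊢
      exact ⟨tor_mul v hz.1, kr_mul (hV.two hQ.1 h2) hb hg v hz.2⟩
  refine ⟨?_, ?_, hmul, ?_, ?_, ?_, ?_⟩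
  · intro z z' hz hz'
    rw [hV.ik R1 hG] at hz hz' ⊢
    exact ⟨tor_add hz.1 hz'.1, hK.kr_add hz.2 hz'.2⟩
  · intro z hz
    exact ⟨tor_lam hb hz, Or.inl hz⟩
  · intro a z ha ha15 hz
    by_cases h2 : MP Q 2
    · have hP : Ab2 Q := ⟨hQ.1, h2⟩
      rw [ik_two R1 hP hG] at hz
      rw [ik_two R1 hP (hG.mul ha ha15)]
      obtain ⟨j, hj⟩ := hz
      exact ⟨j, lam_mono hj⟩
    · exact ik_all R1 hQ h2 (NI a) a le_rfl ha ha15 hG hz
  · intro z hz α β hα hαβ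
    have h1 := hmul β z hz
    rw [hV.ik R1 hG] at h1
    have hαv := hV.tc hQ.1 hα
    rw [toC_mul, mul_assoc] at hαβ
    by_cases h2 : MP Q 2
    · have hP : Ab2 Q := ⟨hQ.1, h2⟩
      have hv := hV.two_lt h2
      -- `α` is odd
      have hc : Cop α 2 := by
        by_contra hc
        have hd : (2 : OO n t) ∣ α := by
          by_contra hd
          exact hc (((aO4 n t).2.2.1 α).2 hd)
        obtain ⟨γ, rfl⟩ := hd
        rw [toC_mul, toC_two, map_mul] at hαv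
        have : V.valuation 2 * V.valuation (toC γ) < 1 := by
          rw [← map_mul]
          exact mmulr hv (v_toC γ)
        rw [hαv] at this
        exact lt_irrefl _ this
      have hNm : V.valuation ((Nm α : ℤ) : ℂ) = 1 := by
        have h3 : ¬ (2 : ℤ) ∣ Nm α := ((aO4 n t).2.2.2.1 α).1 hc
        obtain ⟨k, hk⟩ := Int.odd_iff.2 (Int.two_dvd_ne_zero.1 h3)
        refine vone ?_
        have : ((Nm α : ℤ) : ℂ) - 1 = 2 * ((k : ℤ) : ℂ) := by
          rw [hk]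
          push_cast
          ring
        rw [this]
        exact mmulr hv (vint _ k)
      exact ker_Nm hK h1.2 hNm hαβ
    · exact kr_unit (hV.two hQ.1 h2) hb hg (Nm α).toNat α _ (by
        rw [Int.toNat_of_nonneg (Nm_nonneg α)]) hαv h1.2 hαβ
  · intro z z' hz hzn hz'
    have hz'1 := hz'
    rw [hV.ik R1 hG] at hz'
    rw [hV.xsub R1 hG (tor_add hz hz'.1) hz]
    refine hK.red (fun h => hzn ?_) hz'.2
    rw [hV.ik R1 hG]
    exact ⟨hz, h⟩
  · intro z z' hz hz' hzn hzn' hm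
    rw [hV.xsub R1 hG hz hz'] at hm
    have n1 : ¬ Kr V.valuation (Lam b) (xx b (wpC b (1 / 3)) (fr b ^ 2)) z := fun h => hzn (by
      rw [hV.ik R1 hG]; exact ⟨hz, h⟩)
    have n2 : ¬ Kr V.valuation (Lam b) (xx b (wpC b (1 / 3)) (fr b ^ 2)) z' := fun h => hzn' (by
      rw [hV.ik R1 hG]; exact ⟨hz', h⟩)
    rw [hV.ik R1 hG, hV.ik R1 hG]
    rcases hK.sep hg.ds n1 n2 hm with h | h
    · exact Or.inl ⟨tor_add hz hz', h⟩
    · exact Or.inr ⟨tor_sub hz hz', h⟩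

end Pool.Agent.DN
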