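import Pool.Agent.Lib.DN.D.SpecA
import Pool.Agent.Lib.DN.D.AuxK

/-!
# Theorem DN (`p = 2`), part D, second half (`S_D3` - `S_D10`): statements of the modules with proofs (author helper58)

Every statement `S_..` is proved in the file `DN/D/<Name>.lean` (first line `import Pool.Agent.Lib.DN.D.SpecK`), namespace
`Pool.Agent.DN`, as `theorem s<Name> (hypotheses) : S_<Name>`: hypotheses EXACTLY the statements named after (from ..), in that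
order. The statements `S_O..`, `S_L..`, `S_B..` are NOT hypotheses: parts O, L, B are complete; add
`import Pool.Agent.Lib.DN.O.All` and/or `import Pool.Agent.Lib.DN.B.All` and use `aO2`, `aL3`, `aB4`, .. directly.
Read `DN/Defs.lean`, `DN/Iface.lean` (`GQ`, `IK`, `Qp`, `IsSys`, `Deg1`, `Abv`, `S_D..`, `S_R..`), `DN/IfaceX.lean` (`XOm`, `leO`), `DN/Base.lean`,
`DN/R/Spec.lean` (`Ord2`), `DN/D/SpecA.lean` (helper46: `S_PrC`, `S_LaU`, `S_LgK`, `S_LgT`) and `DN/D/AuxK.lean` first: AuxK contains `pri_split`, `lam_of_pri`, `lam_of_odd`, `third_lam`, `fifth_lam`, `sys_card`,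
`sys_prod`, `sys_zero`, `sys_translate`, `exists_ord2`, `exists_ord2'`, `Ord2.mul`, `Ord2.tor`, .. and the kernel: `IK.neg`, `IK.add`, `IK.sub`, `IK.lam`, `IK.mul`, `IK.two`,
`IK.red` (congruence), `IK.not_add`, `IK.sep` (a difference is a unit), `IK.vp`, `IK.not_lam`, `IK.not_of_nat`, `IK.not_of_abv`, `IK.of_two`. Facts on `VP`, `MP`, `UP`:
`DI/Val.lean` (namespace `Pool.Agent.DI`; `hQ.1` or `hQ.1.1` gives the instance `Q.IsPrime`).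

NOTATION. `Q` with `GQ n t Q`; `V`, `m` the valuation ring and the maximal ideal (`VP Q`, `MP Q`); `X z = xO b z`. The Kummer line: `b2 = A1 ^ 2`,
`b4 = A1 A3`, `b6 = A3 ^ 2`, `b8 = 0`. A system: `IsSys`. `Ord2 b T T'`: `T`, `T'`, `T + T'` are the points of order two.
-/

set_option autoImplicit false

open scoped Pointwise nonZeroDivisors

noncomputable section

namespace Pool.Agent.DN

open Pool.Agent.MuZ Pool.Agent.FW NumberField IsDedekindDomain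
open Pool.Agent.DI (io ofC io_inj exists_io io_ofC ofC_io VP MP UP TP ex)

/-! ## 1. Points of order two, the product formula -/

/-- MODULE `Fer` (110 lines; no hypotheses; `import Pool.Agent.Lib.DN.E.AbB`, theorem `Eb.tAbB`; PORT of `DT/D/Fer.lean`). FERMAT. PROOF. As there (`l ∈ m` and the units
`j` prime to `l`: second part of `Eb.tAbB`; `l` does not divide `N` because `l` is prime, `N.Coprime l`). `PrI q N`: `l ∈ q` (`NI q = l` kills `O/q`), `x l + y N = 1`. -/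
def S_Fer : Prop :=
  ∀ (n t : ℕ) [Ine n t] (q : Ideal (OO n t)) (l : ℕ), Deg1 q l → l.Coprime 30 → ∀ Q : Ideal ZZ,
    Npr Q → Abv Q q →
    (∀ i j : ℤ, ¬ MP Q (j : Om) → MP Q (((i : Om) / j) ^ l - (i : Om) / j)) ∧
    (∀ x y : Om, VP Q x → VP Q y → MP Q ((x + y) ^ l - (x ^ l + y ^ l)) ∧
      MP Q ((x - y) ^ l - (x ^ l - y ^ l)) ∧ (MP Q (x - y) → MP Q (x ^ l - y ^ l))) ∧
    (∀ N : ℕ, N.Coprime l → UP Q (N : Om) ∧ PrI q N) ∧ MP Q (l : Om) ∧ Odd l ∧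
    ¬ MP Q 2 ∧ ¬ MP Q 3 ∧ ¬ MP Q 5 ∧ PrI q 2 ∧ PrI q 15

/-- MODULE `Tw` (150 lines; from `S_XOm`, `S_R1`). THE POINTS OF ORDER TWO IN `Om`. PROOF. `T'' = T + T'` (`Ord2.right`, `Ord2.symm`, `Ord2.tor`). `vO b T = 0`: `XOm.two`; the cubic
equation: `XOm.crv`. The three values are different: `XOm.inj` and `Ord2` (`T + T' ∉ Lam b`, ..). Vieta: subtract the equations of `x, y` and divide by `x - y`:
`4 (x ^ 2 + x y + y ^ 2) + A1 ^ 2 (x + y) + 2 A1 A3 = 0`; the same for `x, y''`; subtract again and divide: the first relation; then the second and the third (`linear_combination`).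
Translation: `aB4` (last claim; `wpC b z - wpC b T = fr b ^ 2 (XC b z - XC b T)`, `fr b ≠ 0`: `aB1`) and `S_R1` (`io (xO b z) = XC b z`), `io_inj`. The last claim is the polynomial identity which
follows from the three relations (`W2` is `4 X ^ 3 + (A1 X + A3) ^ 2` by definition). -/
def S_Tw : Prop :=
  ∀ (n t : ℕ) [Ine n t] (b : Ideal (OO n t)), G15 b → ∀ T T' : ℂ, Ord2 b T T' →
    (vO b T = 0 ∧ 4 * xO b T ^ 3 + (a1O b * xO b T + a3O b) ^ 2 = 0) ∧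
    4 * (xO b T + xO b T' + xO b (T + T')) = -(a1O b) ^ 2 ∧
    2 * (xO b T * xO b T' + xO b T * xO b (T + T') + xO b T' * xO b (T + T')) = a1O b * a3O b ∧
    4 * (xO b T * xO b T' * xO b (T + T')) = -(a3O b) ^ 2 ∧
    (xO b T ≠ xO b T' ∧ xO b T ≠ xO b (T + T') ∧ xO b T' ≠ xO b (T + T')) ∧
    (∀ z : ℂ, Tor n t z → z ∉ Lam b → z + T ∉ Lam b →
      (xO b (z + T) - xO b T) * (xO b z - xO b T) =
        (xO b T' - xO b T) * (xO b (T + T') - xO b T)) ∧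
    ∀ u : ℂ, W2 b u =
      4 * ((xO b u - xO b T) * (xO b u - xO b T') * (xO b u - xO b (T + T')))

/-- MODULE `RoH` (110 lines; from `S_R1`). THE TELESCOPING PRODUCT. PROOF. `a ^ h₀ = sp μ`, `μ ≠ 0` (`aO5`). `μ` is prime to `15`: `PrI (a ^ h₀) 15` (`Eb.pri_mul`, induction, or `aO6`), `aO6` (4). The map `j ↦` (coordinates of `μ ^ j` modulo `15`) from `ℕ`
to the finite set `ZMod 15 × ZMod 15` is not injective (`Finite.exists_ne_map_eq_of_infinite`): `15 ∣ μ ^ i (μ ^ e - 1)` with `e > 0` (`nat_dvd_iff`), and `μ` is invertible modulo `15` (`cop_inv`), so `15 ∣ μ ^ e - 1`. Take `h = h₀ e`, `la = μ ^ e`: `a ^ h = sp la`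
(`Ideal.span_singleton_pow`). `io (rO (a ^ i * b) (a ^ (i + 1) * b))` is the quotient of the `fr` (`S_R1`; all ideals are `G15`: `Eb.g15_mul`); the product telescopes to `fr (sp la * b) / fr b = toC la` (`aB7`: `la = 1` modulo `3` and `5`); `io_toO`, `io_inj`. -/
def S_RoH : Prop :=
  ∀ (n t : ℕ) [Ine n t] (a : Ideal (OO n t)), a ≠ ⊥ → PrI a 15 → ∃ (h : ℕ) (la : OO n t), 0 < h ∧
    a ^ h = sp la ∧ la ≠ 0 ∧ (15 : OO n t) ∣ la - 1 ∧ ∀ b : Ideal (OO n t), G15 b →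
      ∏ i ∈ Finset.range h, rO (a ^ i * b) (a * (a ^ i * b)) = toO la

/-! ## 2. Kronecker's congruence -/

/-- MODULE `D3a` (140 lines; from `S_XOm`, `S_D1`, `S_Fer`, `S_PrC`, `S_LaU`, `S_RoH`; compare `DK/D/D3a.lean`). THE `q`-TORSION IS IN THE KERNEL. PROOF. `¬ MP Q 2`, `PrI q 2`, `PrI q 15`: `S_Fer`. Call `b` bad if `rO b (q * b)` is a unit. (1) If some `u ∈ Lam (q b)` is not in the
kernel then no `u' ∈ Lam (q b)`, `u' ∉ Lam b`, is in the kernel: `q` is a prime ideal `≠ ⊥`, so maximal, and every `u' ∉ Lam b` is a generator (`aL3` (2)): `u - toC v u' ∈ Lam b`, and `u` would be in the kernel (`IK.mul`); so `b` is bad (`S_LaU`, last claim). (2) If `b` is bad then `q b` is bad: by the last claim of `S_LaU` it is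
enough that no `w ∈ Lam (q (q b))`, `w ∉ Lam (q b)`, is in the kernel of `q b`. Suppose `IK Q (q b) w`: `xO (q b) w ∉ V`. `T, T'` (`exists_ord2`), `R` a system for `q` over `b`, `S_PrC`: `∏ (u ∈ R) (xO b (w + u) - xO b T) = C (xO (q b) w - xO (q b) T)`, `C` a unit, `xO (q b) T ∈ V` (`S_LaU`), so the product is not
in `V` and for some `u ∈ R`: `xO b (w + u) ∉ V` (`xO b T ∈ V`): `w' = w + u ∈ Lam (q (q b))` is in the kernel of `b`, `w' ∉ Lam (q b)`. There is `v ∈ q` with `toC v w' ∉ Lam b` (otherwise `w' ∈ Lam (q b)`: `lam_prod`), `toC v w' ∈ Lam (q b)` (`lam_prod`), in the kernel (`IK.mul`): `rO b (q b) ∈ m` (`S_LaU`), a contradiction.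
(3) If `b` is bad, so are all `q ^ i b`, and the product of `S_RoH` is a unit `toO la`, but `la ∈ q ^ h ≤ q` (`h > 0`), `Abv Q q`: `MP Q (toO la)`. -/
def S_D3a : Prop :=
  ∀ (n t : ℕ) [Ine n t] (q : Ideal (OO n t)) (l : ℕ), Deg1 q l → l.Coprime 30 → ∀ Q : Ideal ZZ,
    GQ n t Q → Abv Q q → ∀ b : Ideal (OO n t), G15 b → ∀ u ∈ Lam (q * b), IK Q b u

/-- MODULE `D3b` (150 lines; from `S_XOm`, `S_D1`, `S_Fer`, `S_PrC`, `S_LaU`, `S_D3a`; compare `DK/D/D3.lean`, lemma `D3_prod`). CONGRUENCES UP TO A CONSTANT. PROOF. `R` a system for `q` over `b` (`aL3`), `R.card = NI q = l`. Let `Tor z`, `¬ IK Q b z`. `z ∉ Lam (q b)` (`S_D3a`). For `u ∈ R`: `xO b (z + u) - xO b z ∈ m`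
(`IK.red`, `S_D3a`), so `∏ (xO b (z + u) - xO b T) - (xO b z - xO b T) ^ l ∈ m` (all factors in `V`, induction on the finset) and (`S_Fer`) modulo `m`: `(xO b z) ^ l - (xO b T) ^ l = C (xO (q b) z - xO (q b) T)`, for every point `T` of order two (with its own unit `C = C_T`: `S_PrC`). `xO (q b) T ∈ V` (`S_LaU` for `q b`), so `xO (q b) z ∈ V`: first claim
(not in the kernel: `z ∉ Lam (q b)`). Let `z = 1/3`: `¬ IK Q b (1/3)` (`third_lam`, `IK.not_of_nat`, `¬ MP Q 3`), `xO (1/3) = 0` for both curves (`XOm.x3`): `(xO b T) ^ l - C xO (q b) T ∈ m`, so `(xO b z) ^ l - C xO (q b) z ∈ m` for all `z`. Let `z = 1/5` (`fifth_lam`, `XOm.x5`):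
`(a3O b) ^ l - C a3O (q b) ∈ m`, so `C - c ∈ m` with `c = (a3O b) ^ l (a3O (q b))⁻¹`, a unit (`GQ`), which does not depend on `T`. -/
def S_D3b : Prop :=
  ∀ (n t : ℕ) [Ine n t] (q : Ideal (OO n t)) (l : ℕ), Deg1 q l → l.Coprime 30 → ∀ Q : Ideal ZZ,
    GQ n t Q → Abv Q q → ∀ b : Ideal (OO n t), G15 b → ∃ c : Om, UP Q c ∧
      MP Q (a3O b ^ l - c * a3O (q * b)) ∧
      (∀ T T' : ℂ, Ord2 b T T' → MP Q (xO b T ^ l - c * xO (q * b) T)) ∧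
      ∀ z : ℂ, Tor n t z → ¬ IK Q b z → ¬ IK Q (q * b) z ∧ MP Q (xO b z ^ l - c * xO (q * b) z)

/-- MODULE `D3` (120 lines; from `S_Fer`, `S_LaU`, `S_Tw`, `S_D3a`, `S_D3b`): `S_D3`. PROOF. First claim: `S_D3a`. `c` from `S_D3b`; `T, T'` (`exists_ord2`), `x, x', x''` the values of `xO b` at `T, T', T + T'`, `y, y', y''` those of `xO (q b)` (all in `V`: `S_LaU` for the pairs `(T, T')`, `(T', T)`, `(T + T', T)`;
`Ord2.symm`, `Ord2.right`, `Ord2.mul`). Modulo `m`: `x ^ l = c y`, .., so `(x x' x'') ^ l = c ^ 3 y y' y''`; by the third relation of `S_Tw` (for `b` and `q b`) and `4 ^ l = 4` (`S_Fer` (1) with `4/1`): `(a3O b) ^ (2 l) = c ^ 3 (a3O (q b)) ^ 2` (note `(-w) ^ l = - w ^ l`, `l` odd). But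
`(a3O b) ^ (2 l) = c ^ 2 (a3O (q b)) ^ 2` (`S_D3b` (1)); `a3O (q b)`, `c` are units: `c - 1 ∈ m`. So `a3O (q b) - (a3O b) ^ l ∈ m` and `xO (q b) z - (xO b z) ^ l ∈ m` (with `xO (q b) z ∈ V`), `y - x ^ l ∈ m`. Second relation of `S_Tw` and `2 ^ l = 2`: modulo `m`:
`a1O (q b) a3O (q b) = 2 (y y' + ..) = 2 ((x x') ^ l + ..) = (2 (x x' + ..)) ^ l = (a1O b) ^ l (a3O b) ^ l = (a1O b) ^ l a3O (q b)`, so `a1O (q b) - (a1O b) ^ l ∈ m`. -/
abbrev M_D3 : Prop := S_D3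

/-! ## 3. The filtration of the kernel -/

/-- MODULE `Ref` (180 lines; from `S_XOm`; PORT of `DK/D/Ref.lean` / `DT/D/Ref.lean`). THE FILTRATION OF THE KERNEL, ADDITION ONLY. PROOF. As there (the private lemmas `Ref_aux`, `Ref_dbl`, `Ref_add` are pure algebra, copy them), with `b2 = (a1O b) ^ 2`,
`b4 = a1O b * a3O b`, `b6 = (a3O b) ^ 2`, `b8 = 0`, all in `V` (`GQ`); the formulas: `XOm.kad`, `XOm.kml`, `XOm.dup` with `XOm.crv`. -/
def S_Ref : Prop :=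
  ∀ (n t : ℕ) [Ine n t] (b : Ideal (OO n t)), G15 b → ∀ Q : Ideal ZZ, GQ n t Q → ∀ s : Om, MP Q s →
    ∀ z z' : ℂ, (Tor n t z ∧ (z ∈ Lam b ∨ (xO b z ≠ 0 ∧ TP Q s (xO b z)⁻¹))) →
      (Tor n t z' ∧ (z' ∈ Lam b ∨ (xO b z' ≠ 0 ∧ TP Q s (xO b z')⁻¹))) →
      Tor n t (z + z') ∧ (z + z' ∈ Lam b ∨ (xO b (z + z') ≠ 0 ∧ TP Q s (xO b (z + z'))⁻¹))

/-- MODULE `RoL` (70 lines; from `S_XOm`, `S_D1`). THE QUOTIENT OF THE FRAMINGS FOR A PRINCIPAL IDEAL. PROOF. `XOm.hmg` at `z = 1/5`: `rO ^ 2 * a3O (sp α * b) = toO α ^ 2 * (xO b (α/5) - xO b (α/3))` (`XOm.x5` for `sp α * b`, which is `G15`: `g15_sp` in `DN/E/XOm.lean`).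
The difference is a unit: `IK.sep`: `α/5`, `α/3` are not in `Lam b` (`div_lam_iff`: `5 ∣ α` or `3 ∣ α` would contradict `Cop α 15`: norms), and `15 (α/5 ± α/3) = (3 ± 5) α`: if `α/5 ± α/3 ∈ Lam b`, multiply by `3`: `3 α/5 ∈ Lam b` (`α ∈ Lam b`: `lam_mul`, `1 ∈ Lam b`), with `5 (α/5) ∈ Lam b`:
`α/5 ∈ Lam b`; `¬ IK` by `IK.not_of_nat` for `N = 15` (`15` is a unit). `a3O` is a unit (`GQ`). So `(rO / toO α) ^ 2` is a unit, `UP.of_pow`. -/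
def S_RoL : Prop :=
  ∀ (n t : ℕ) [Ine n t] (Q : Ideal ZZ), GQ n t Q → ¬ MP Q 3 → ¬ MP Q 5 → ∀ (α : OO n t) (b : Ideal (OO n t)), α ≠ 0 →
    Cop α 15 → G15 b → UP Q (rO b (sp α * b) / toO α)

open Classical in
/-- MODULE `D4` (180 lines; from `S_XOm`, `S_D1`, `S_Fer`, `S_PrC`, `S_LaU`, `S_D3a`, `S_Ref`, `S_RoL`; compare `DK/D/D4.lean`): `S_D4`. PROOF. `q = sp la`, `Abv Q q`, `Cop la 15` (`PrI q 15`, `aO6` (4)). `R` a system for `q` over `b`, `R.card = l`; `T, T'`; `C` from `S_PrC`, a unit. All `u' ∈ R`, `u' ∉ Lam b`, are in the kernel (`S_D3a`): `X u' ≠ 0`, `(X u')⁻¹ ∈ m` (`VP.not_iff`),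
`X u' - X T = X u' (1 - X T (X u')⁻¹)` is `X u'` times a unit (`X T ∈ V`: `S_LaU`). Every such `u'` is `j u` modulo `Lam b` with an integer `j > 0` (`aL3`: `u` is a generator as `q` is maximal, `u' - toC v u ∈ Lam b`, `O/q` has `l` elements, so `v - j ∈ q` for some `j`: as in `DK/D/D4.lean`). With `s = (X u)⁻¹ ∈ m`: `S_Ref` and induction on `j`: `(X u')⁻¹ = s y`, `y ∈ V`; by symmetry
`X u' / X u` is a unit. So `C = rO ^ 2 (X u) ^ (l - 1) * unit` (one factor of the product is `1`: `sys_zero`), `rO = toO la * unit` (`S_RoL`): `(toO la * (X u) ^ ((l - 1)/2)) ^ 2 = toO la ^ 2 (X u) ^ (l - 1)` is a unit (`l` is odd), `UP.of_pow`. -/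
abbrev M_D4 : Prop := S_D4

/-! ## 4. The theta function -/

/-- MODULE `HsP` (180 lines; no hypotheses; PORT of `DK/D/HsP.lean`, parts (1) - (4)). PRODUCTS OVER HALF SYSTEMS. PROOF. As there. -/
def S_HsP : Prop :=
  ∀ (n t : ℕ) [Ine n t] (m b : Ideal (OO n t)), m ≠ ⊥ → b ≠ ⊥ → PrI m 2 →
    (∀ (S S' : Finset ℂ), IsHalf m b S → IsHalf m b S' → ∀ F : ℂ → Om,
      (∀ z ∈ Lam (m * b), F (-z) = F z ∧ ∀ l ∈ Lam b, F (z + l) = F z) →
      ∏ u ∈ S, F u = ∏ u ∈ S', F u) ∧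
    (∀ (α : OO n t) (S : Finset ℂ), α ≠ 0 → IsHalf m (sp α * b) S →
      IsHalf m b (S.image fun u => toC α * u)) ∧
    (∀ (a : Ideal (OO n t)) (S : Finset ℂ), a ≠ ⊥ → a ⊔ m = ⊤ → IsHalf m b S → IsHalf m (a * b) S) ∧
    ∀ (v : OO n t) (S : Finset ℂ), sp v ⊔ m = ⊤ → IsHalf m b S → IsHalf m b (S.image fun u => toC v * u)

/-- The factor of `Theta` (without the cube). -/
def qO {n t : ℕ} (b : Ideal (OO n t)) (z u : ℂ) : Om := W2 b u * ((xO b z - xO b u) ^ 3)⁻¹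

/-- The complex number `℘'(u)²/(℘(z) - ℘(u))³`. -/
def qC {n t : ℕ} (b : Ideal (OO n t)) (z u : ℂ) : ℂ := wdC b u ^ 2 * ((wpC b z - wpC b u) ^ 3)⁻¹

/-- The cube root of `Theta`. -/
def th0 {n t : ℕ} (m b : Ideal (OO n t)) (z : ℂ) : Om := ∏ u ∈ hs m b, qO b z u

/-- MODULE `Qt` (100 lines; from `S_XOm`, `S_R1`). THE FACTOR DOES NOT DEPEND ON THE FRAMING. PROOF. (1) `W2 b u = vO b u ^ 2` (`XOm.crv`), `io (vO b u) = WC b u = wdC b u / fr b ^ 3`, `io (xO b z) = XC b z`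
(`S_R1`), `XC b z - XC b u = (wpC b z - wpC b u) / fr b ^ 2` (definition), `fr b ≠ 0` (`aB1`). (2) `io` of both sides: (1) and `aB7`: `wpC (sp α * b) z = toC α ^ 2 * wpC b (toC α * z)`, `wdC (sp α * b) u = toC α ^ 3 * wdC b (toC α * u)`; `sp α * b` is `G15` (`g15_sp` in `DN/E/XOm.lean`);
`u ∉ Lam (sp α * b)` means `toC α * u ∉ Lam b` (`lam_sp`). (3) All `z, u`: `xO b z = ofC (XC b z)`; parity and periods of `wpC` (`aB1`), `W2 b u` depends on `xO b u` only. (4) `W2 b u = vO b u ^ 2 ≠ 0` (`XOm.two`: `2 u ∉ Lam b`), `xO b z ≠ xO b u` (`XOm.inj`). -/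
def S_Qt : Prop :=
  ∀ (n t : ℕ) [Ine n t] (b : Ideal (OO n t)), G15 b →
    (∀ z u : ℂ, Tor n t z → Tor n t u → u ∉ Lam b → io (qO b z u) = qC b z u ∧ W2 b u = vO b u ^ 2) ∧
    (∀ (α : OO n t) (z u : ℂ), α ≠ 0 → Cop α 15 → Tor n t z → Tor n t u → u ∉ Lam (sp α * b) →
      qO (sp α * b) z u = qO b (toC α * z) (toC α * u)) ∧
    (∀ z u l : ℂ, l ∈ Lam b → qO b z (-u) = qO b z u ∧ qO b z (u + l) = qO b z u ∧ qO b (-z) u = qO b z u ∧
      qO b (z + l) u = qO b z u) ∧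
    ∀ z u : ℂ, Tor n t z → Tor n t u → 2 * u ∉ Lam b → z ∉ Lam b → z - u ∉ Lam b → z + u ∉ Lam b → qO b z u ≠ 0

/-- MODULE `D8a` (110 lines; from `S_XOm`, `S_HsP`, `S_Qt`; compare `DK/D/D8a.lean`). `S_D8` FOR `th0`. PROOF. `Theta m b z = th0 m b z ^ 3` (`Finset.prod_pow`, definition). (2) `hs m b` is a half system (`aB14`); `S_HsP` (1) with
`F u = qO b z u` (`S_Qt` (3)). (3) `S_Qt` (3). (4) `S_HsP` (2) for `S = hs m (sp α * b)`, `Finset.prod_image` (`toC α ≠ 0`), `S_Qt` (2) (the points of the half system are torsion points: `tor_lam`), and (2). (5) `S_Qt` (4): for `u ∈ hs m b`: `2 u ∉ Lam b` (`lam_of_odd`), `z ± u ∉ Lam b` (otherwise `z ∈ Lam (m b)`),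
`z ∉ Lam b` (`lam_mono`). -/
def S_D8a : Prop :=
  ∀ (n t : ℕ) [Ine n t] (m b : Ideal (OO n t)), m ≠ ⊥ → G15 b → PrI m 2 →
    (∀ z : ℂ, Theta m b z = th0 m b z ^ 3) ∧
    (∀ S : Finset ℂ, IsHalf m b S → ∀ z : ℂ, ∏ u ∈ S, qO b z u = th0 m b z) ∧
    (∀ z : ℂ, th0 m b (-z) = th0 m b z ∧ ∀ l ∈ Lam b, th0 m b (z + l) = th0 m b z) ∧
    (∀ (α : OO n t) (z : ℂ), α ≠ 0 → Cop α 15 → Tor n t z → th0 m (sp α * b) z = th0 m b (toC α * z)) ∧
    ∀ z : ℂ, Tor n t z → z ∉ Lam (m * b) → th0 m b z ≠ 0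

/-- MODULE `D8` (30 lines; from `S_D8a`; compare `DK/D/D8.lean`): `S_D8`. PROOF. Cubes (`Finset.prod_pow`). -/
abbrev M_D8 : Prop := S_D8

/-- MODULE `ThU` (owner helper9; 70 lines; from `S_XOm`, `S_D1`). GOOD PRIMES: THE DIFFERENCES ARE UNITS. PROOF. (1) `IK.not_of_abv`. (2) `1 = v + 2 w`, `v ∈ m` (`pri_split`): `toO v = 1 - 2 toO w`; `MP P (toO v)` would give `MP P 1`. (3) A point of the kernel is `Q`-primary
(`IK.qp`), so `¬ IK (z + u)`; `u = 0`: `¬ IK z`, `IK.vp`. `z ∈ Lam (m b)` would give `z + (-z) = 0`, which is `Q`-primary (`lam_mul`, `lam_zero`). `IK.sep` (`z - u = z + (-u)`, `-u ∈ Lam (m b)`). -/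
def S_ThU : Prop :=
  ∀ (n t : ℕ) [Ine n t] (m b : Ideal (OO n t)), m ≠ ⊥ → G15 b → PrI m 2 → ∀ Q : Ideal ZZ, GQ n t Q →
    (¬ Abv Q m → ∀ u ∈ Lam (m * b), u ∉ Lam b → ¬ IK Q b u) ∧ (MP Q 2 → ¬ Abv Q m) ∧
    ∀ z : ℂ, Tor n t z → (∀ u ∈ Lam (m * b), ¬ Qp Q b (z + u)) →
      ¬ IK Q b z ∧ VP Q (xO b z) ∧ z ∉ Lam (m * b) ∧
      ∀ u ∈ Lam (m * b), ¬ IK Q b (z + u) ∧ (u ∉ Lam b → ¬ IK Q b u → UP Q (xO b z - xO b u))

/-- MODULE `ThL` (owner helper9; from `S_LgK`, `S_LgT`). THE FACTORS OF THETA AT THE PRIMES NOT ABOVE `2`. PROOF. `T, T'` (`exists_ord2 aL3`), `l z = leO b T T' z`, `la = l (T + T')`. `S_LgT`: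
`qO b z u = 4 (l u) (l u - 1) (l u - la) ((l z - l u) ^ 3)⁻¹` `4` is a unit. `z`, `z ± u` are not in `IL` (they would be `Q`-primary). CASE 1: `¬ IL u`. `l u ∈ V`. `l T = 0`, `l T' = 1` (so `¬ IL T`, `¬ IL T'`), `¬ IL (T + T')`. `l u` is a unit: otherwise `l u - l T ∈ m` and `u + T` or `u - T` is in `IL`,
so `2 u` is (`2 T ∈ Lam b`), and `u = toC v u + toC w (2 u)` (`1 = v + 2 w`, `v ∈ m`: `pri_split`) is, a contradiction. In the same way `l u - 1 = l u - l T'`, `l u - la` are units, and `l z - l u` (separation: `z ± u` not in `IL`). CASE 2: `IL u`: `a = (l u)⁻¹ ∈ m`, and the quotient is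
`4 (1 - a) (1 - la a) ((l z * a - 1) ^ 3)⁻¹` (`l z ∈ V`). -/
def S_ThL : Prop :=
  ∀ (n t : ℕ) [Ine n t] (m b : Ideal (OO n t)), m ≠ ⊥ → G15 b → PrI m 2 → ∀ Q : Ideal ZZ, Npr Q →
    ¬ MP Q 2 → ∀ z : ℂ, Tor n t z → (∀ u ∈ Lam (m * b), ¬ Qp Q b (z + u)) →
      ∀ u ∈ Lam (m * b), u ∉ Lam b → UP Q (qO b z u)

/-- MODULE `D5` (owner helper9; 60 lines; from `S_R2a`, `S_D1`, `S_D2`, `S_Qt`, `S_ThU`, `S_ThL`, `S_D8a`): `S_D5`. PROOF. `Theta m b z = th0 m b z ^ 3`, `th0` is a product of the `qO b z u`, `u ∈ hs m b` (`aB14`: in `Lam (m b)`, not in `Lam b`); `UP.prod`. If `¬ MP Q 2`: `S_ThL`. If `MP Q 2` (`Ab2 Q`): `GQ n t Q` (`S_R2a`); `¬ Abv Q m` and `¬ IK u` (`S_ThU`),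
`W2 b u = vO b u ^ 2` is a unit (`S_Qt` (1); `S_D2` (4)) and `xO b z - xO b u` is a unit (`S_ThU`). -/
abbrev M_D5 : Prop := S_D5

/-- MODULE `D6` (owner helper9; 180 lines; from `S_XOm`, `S_D1`, `S_Fer`, `S_D3`, `S_HsP`, `S_D8a`, `S_ThU`; PORT of `DK/D/D6.lean`): `S_D6`. PROOF. It is enough to prove the congruences for `th0` (`Theta = th0 ^ 3`, all numbers in `V`: cubes). For `u ∈ hs m b` (`aB14`): `¬ IK u` (`S_ThU` (1)), `xO b u ∈ V`, `W2 b u ∈ V` (`GQ`), `xO b z - xO b u` is a unit (`S_ThU`). (1) `xO b (z + z') - xO b z ∈ m`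
(`IK.red`), so `xO b (z + z') - xO b u` is a unit congruent to it, the inverses of the cubes are congruent, and the products. (2) `q ⊔ m = ⊤` (`q` is maximal, `m ≤ q` would give `Abv Q m`), so `hs m b` is a half system for `(m, q b)` (`S_HsP` (3)) and `th0 m (q b) z` is the product over `hs m b` (`S_D8a` (2)). `S_D3`:
`xO (q b) z ≡ (xO b z) ^ l`, `xO (q b) u ≡ (xO b u) ^ l`, `a1O`, `a3O` too, `4 ^ l ≡ 4` (`S_Fer`), so `W2 (q b) u ≡ (W2 b u) ^ l` and `xO (q b) z - xO (q b) u ≡ (xO b z - xO b u) ^ l` (`S_Fer` (2)); units. -/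
abbrev M_D6 : Prop := S_D6

/-- MODULE `Dis` (150 lines; from `S_Qt`, `S_D8a`; PORT of `DK/D/Dis.lean`). DISTRIBUTION UP TO A CONSTANT. PROOF. (1) `io` of `th0` is the product of the `qC b z u` (`S_Qt` (1)). `∏ (v ∈ R) th0 m b (z + v)` becomes `(∏ (u) wdC b u ^ 2) ^ R.card / (∏∏ (wpC b (z + v) - wpC b u)) ^ 3`, and `aB16` (`l`, `m` coprime, `PrI m 2`): the constant is
`(∏ (u ∈ hs m b) wdC b u ^ 2) ^ R.card / (c ^ 3 ∏ (u ∈ hs m (l b)) wdC (l b) u ^ 2)`, a complex number `≠ 0` (`aB1`: `2 u` is not in the lattice). It is in the image of `io` (divide at one torsion point). The constant does not depend on `R`: `sys_prod` (periods of `th0`: `S_D8a`). (2) `z = 1/(4 j)`, `j ∈ c` a positive integer (`exists_nat`): `2 z ∈ Lam c` would give `j (2 z) = 1/2 ∈ O`. -/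
def S_Dis : Prop :=
  ∀ (n t : ℕ) [Ine n t] (m b : Ideal (OO n t)), m ≠ ⊥ → G15 b → PrI m 2 →
    (∀ l : Ideal (OO n t), l ≠ ⊥ → PrI l 15 → l ⊔ m = ⊤ → ∃ C : Om, C ≠ 0 ∧ ∀ R : Finset ℂ, IsSys l b R →
      ∀ z : ℂ, Tor n t z → z ∉ Lam (l * m * b) →
        ∏ v ∈ R, th0 m b (z + v) = C * th0 m (l * b) z) ∧
    ∀ c : Ideal (OO n t), c ≠ ⊥ → ∃ z : ℂ, Tor n t z ∧ 2 * z ∉ Lam c

/-- MODULE `Dis2` (180 lines; from `S_HsP`, `S_Qt`, `S_D8a`; PORT of `DK/D/Dis2.lean`). DISTRIBUTION FOR `2`. PROOF. `T, T'` (`exists_ord2 aL3`); `{0, T, T', T + T'}` is a system for `sp 2` over `b` (`aL6` (2) with `toC (wI n t) * T`, or: its four elements are different modulo `Lam b` and a system has `NI (sp 2) = 4` elements, `aL3`, `aO4`;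
all of them are killed by `2`); another system gives the same product (`sys_prod`). For `u ∈ hs m b`: `2 u ∉ Lam b` (`lam_of_odd`), `2 z ∉ Lam b`. `aB15`: `∏ (v) (wpC b (z + v) - wpC b u) = - wdC b u ^ 2 * (wpC b (2 z) - wpC b (2 u))`. So (`S_Qt` (1)) `io ∏ (v) th0 m b (z + v) = ∏ (u) wdC b u ^ 8 / (- wdC b u ^ 2 (wpC b (2 z) - wpC b (2 u))) ^ 3 =
(-1) ^ card ∏ (u) wdC b u ^ 2 / (wpC b (2 z) - wpC b (2 u)) ^ 3`. The set `2 hs` is a half system (`S_HsP` (4), `v = 2`), so `∏ (u) wdC b u ^ 2 = ∏ (u) wdC b (2 u) ^ 2` (`S_HsP` (1) for `F u = vO b u ^ 2`) and the product is `(-1) ^ card th0 m b (2 z)` (`S_D8a` (2)). -/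
def S_Dis2 : Prop :=
  ∀ (n t : ℕ) [Ine n t] (m b : Ideal (OO n t)), m ≠ ⊥ → G15 b → PrI m 2 → ∀ R : Finset ℂ,
    IsSys (sp 2) b R → ∀ z : ℂ, Tor n t z → 2 * z ∉ Lam (m * b) →
      ∏ v ∈ R, th0 m b (z + v) = (-1) ^ (hs m b).card * th0 m b (2 * z)

/-- MODULE `D7` (200 lines; from `S_D8a`, `S_Dis`, `S_Dis2`; PORT of `DK/D/D7.lean`): `S_D7`. PROOF. The case of `2`: `S_Dis2` to the third power, `s = (-1) ^ (3 card) = ± 1`. Let `l` be prime to `2` and `15`, `R` a system, `j = NI l = R.card` (odd: `aO6` (3)), `C` the constant of `S_Dis`. `card (hs m b) = card (hs m (l b))` (`aB14`). Let `R₂` be a system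
for `sp 2` over `b`; it is a system for `sp 2` over `l b` too (`aL5` with `N = 2`, `a = l`). Choose a torsion point `z` with `2 z ∉ Lam (l m b)` (`S_Dis`). `∏ (t ∈ R₂) ∏ (v ∈ R) th0 m b (z + v + t)`: on one side it is `∏ (v) ((-1) ^ c th0 m b (2 (z + v))) = (-1) ^ (c j) ∏ (v ∈ 2 R) th0 m b (2 z + v)` and `2 R` is a system for `l` (`l` odd), so it is
`(-1) ^ (c j) C th0 m (l b) (2 z)`; on the other side `∏ (t) C th0 m (l b) (z + t) = C ^ 4 (-1) ^ c th0 m (l b) (2 z)`. `th0 ≠ 0`, `j` odd: `C ^ 3 = 1`. The cube of the relation of `S_Dis` is the claim. -/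
abbrev M_D7 : Prop := S_D7

/-! ## 5. The primes above `2` -/

/-- MODULE `D9` (owner helper9; 70 lines; from `S_XOm`, `S_R1`, `S_R2a`, `S_D1`, `S_D2`, `S_ThU`): `S_D9`. PROOF. `GQ n t P`: `S_R2a`. `z ∉ Lam (m b)` (`S_ThU`). `io (gO m b z) = gC m b z` (`S_R1`) `= ∑ (u ∈ hs m b) WC b z / (XC b z - XC b u)` (`aB11`), and `io` of the right side (`S_R1`): the second claim. `¬ IK u` for `u ∈ hs m b` (`S_ThU` (1), (2)), `xO b z - xO b u` is a unit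
(`S_ThU`), `vO b z ∈ V` (`S_D2` (4)); `VP.sum`. -/
abbrev M_D9 : Prop := S_D9

/-- MODULE `D10a` (130 lines; from `S_XOm`, `S_R2`, `S_D1`, `S_D2`, `S_Tw`). TRANSLATION BY A POINT OF ORDER TWO, ABOVE `2`. PROOF. `GQ n t P` and `TP P 2 (a1O b)`: `S_R2`; `a1O b = 2 B`, `B ∈ V`; `A = a3O b` a unit. `T'` with `Ord2 b T T'`: `exists_ord2'`. `IK T` (`S_D2` (1)), `T ∉ Lam b`: `e = xO b T`, `y = e⁻¹ ∈ m` (`VP.not_iff`).
The cubic equation (`S_Tw` (1)) times `y ^ 3`: `4 + (2 B + A y) ^ 2 y = 0`, i.e. `A ^ 2 y ^ 3 = -4 (1 + A B y ^ 2 + B ^ 2 y)`, so `y ^ 3 = 4 η` with a unit `η`. `D_T = (xO b T' - e) (xO b (T + T') - e) = 3 e ^ 2 + 2 B ^ 2 e + A B` (`S_Tw` (2), (3)). Let `x = xO b z ∈ V`, `δ = xO b (z + T) - x` (`z`, `z + T` not in the kernel: `IK.not_add`). `S_Tw` (translation):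
`(δ + x - e) (x - e) = D_T`, so `δ (x - e) = 2 e ^ 2 + 2 (B ^ 2 + x) e + A B - x ^ 2`; times `y ^ 2`: `δ y (x y - 1) = 2 + 2 (B ^ 2 + x) y + (A B - x ^ 2) y ^ 2`. `w = y ^ 2/2`: `w ^ 3 = 16 η ^ 2/8 = 2 η ^ 2 ∈ m`, so `w ∈ m` (`MP.of_pow`) and the right side is `2 (1 + (B ^ 2 + x) y + (A B - x ^ 2) w) = 2 * unit`. So `δ y = 2 * unit`, the cube:
`δ ^ 3 * 4 η = 8 * unit`, `δ ^ 3/2` is a unit. -/
def S_D10a : Prop :=
  ∀ (n t : ℕ) [Ine n t] (P : Ideal ZZ), Ab2 P → ∀ b : Ideal (OO n t), G15 b → ∀ z T : ℂ,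
    Tor n t z → ¬ IK P b z → 2 * T ∈ Lam b → T ∉ Lam b → UP P ((xO b (z + T) - xO b z) ^ 3 / 2)

/-- MODULE `D10` (150 lines; from `S_XOm`, `S_R2`, `S_D1`, `S_D2`, `S_D10a`): `S_D10`. PROOF. Induction on `j` for all `z, d`; `j = 0`: `S_D10a`. Step: `d` of order `2 ^ (j + 2)`, `2 d` of order `2 ^ (j + 1)`. (1) `¬ IK (2 z)`: `IK (2 z)` gives `Qp (2 z)`; `N z ∈ Lam b` with `N = 2 ^ s N'`, `N'` odd (`tor_iff`); `α = N'` (a unit: `N' = 1 + 2 ..`), `β = 2 ^ s`: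
`2 ^ (s + 1) z ∈ Lam b`, so `IK z` (`S_D2` (1)). (2) `x = xO b z`, `y = xO b (z + d)` (`d` is in the kernel: `S_D2` (1); `¬ IK (z + d)`, `x, y ∈ V`), `δ = y - x ∈ m` (`IK.red`). `a1O b = 2 B`, `A = a3O b`; `F(x) = x ^ 4 - 2 B A x ^ 2 - 2 A ^ 2 x`, `G(x) = 4 x ^ 3 + (2 B x + A) ^ 2`; `XOm.dup`, `XOm.crv`: `xO b (2 z) G(x) = F(x)`, `xO b (2 z + 2 d) G(y) = F(y)`, `G(x) = vO b z ^ 2`,
`G(y)` are units (`S_D2` (4)). `δ' = xO b (2 z + 2 d) - xO b (2 z)`: `δ' G(x) G(y) = F(y) G(x) - F(x) G(y) = A ^ 2 δ ^ 4 + 2 δ g` with `g ∈ V` (`g = 2 x ^ 3 y ^ 3 + 2 B ^ 2 x ^ 2 y ^ 2 (x + y) + 2 A B x y (x ^ 2 + x y + y ^ 2) + 4 A B x ^ 2 y ^ 2 - A ^ 3 B (x + y) + 4 A ^ 2 x y (x + y) - A ^ 4 + A ^ 2 (x ^ 3 + 2 x y ^ 2 - x ^ 2 y)`, checked). (3) Induction: `δ' ^ N = 2 ε`, `ε` a unit, `N = 3 * 4 ^ j ≥ 1`, so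
`2/δ' = δ' ^ (N - 1) ε⁻¹ ∈ V` (`δ' ≠ 0`). So `A ^ 2 δ ^ 4 = δ' (G(x) G(y) - (2/δ') δ g) = δ' * unit` (`δ ∈ m`), `δ ^ 4 = δ' * unit`, `δ ^ (4 N) = δ' ^ N * unit = 2 * unit`. -/
abbrev M_D10 : Prop := S_D10

end Pool.Agent.DN
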